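import Mathlib
import Pool.Agent.H804R2.DP.Ulim

/-!
# Operator valued invariant means on commutative groups
-/

set_option autoImplicit false
set_option linter.unusedSectionVars false

open Filter Topology
open scoped InnerProductSpace ComplexConjugate

noncomputable section

namespace Pool.Agent.Q171.KK

section Av

variable {G : Type} [CommGroup G] {E : Type*} [NormedAddCommGroup E] [NormedSpace ℂ E]

/-- The average of `f` over `g, s g, ..., s ^ n g`. -/
def Av (n : ℕ) (s : G) (f : G → E) : G → E := fun g =>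
  ((n : ℂ) + 1)⁻¹ • ∑ k ∈ Finset.range (n + 1), f (s ^ k * g)

theorem Av_comm (n : ℕ) (s t : G) (f : G → E) : Av n s (Av n t f) = Av n t (Av n s f) := by
  funext g
  simp only [Av]
  simp only [← Finset.smul_sum]
  congr 2
  rw [Finset.sum_comm]
  refine Finset.sum_congr rfl fun k _ => Finset.sum_congr rfl fun l _ => ?_
  rw [mul_left_comm]

theorem Av_trans (n : ℕ) (s t : G) (f : G → E) (g : G) :
    Av n s (fun x => f (t * x)) g = Av n s f (t * g) := by
  simp only [Av]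
  congr 1
  refine Finset.sum_congr rfl fun k _ => ?_
  rw [mul_left_comm]

theorem inv_norm (n : ℕ) : ‖((n : ℂ) + 1)⁻¹‖ = ((n : ℝ) + 1)⁻¹ := by
  rw [norm_inv]
  congr 1
  have : ((n : ℂ) + 1) = ((n + 1 : ℕ) : ℂ) := by push_cast; ring
  rw [this, Complex.norm_natCast]
  push_cast; ring

theorem Av_norm (n : ℕ) (s : G) (f : G → E) (C : ℝ) (h : ∀ g, ‖f g‖ ≤ C) (g : G) :
    ‖Av n s f g‖ ≤ C := by
  unfold Av
  rw [norm_smul, inv_norm]
  have h1 : ‖∑ k ∈ Finset.range (n + 1), f (s ^ k * g)‖ ≤ ((n : ℝ) + 1) * C := by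
    refine (norm_sum_le _ _).trans ?_
    refine (Finset.sum_le_sum fun k _ => h _).trans ?_
    rw [Finset.sum_const, Finset.card_range, nsmul_eq_mul]
    push_cast
    exact le_rfl
  have h2 : (0 : ℝ) < (n : ℝ) + 1 := by positivity
  calc ((n : ℝ) + 1)⁻¹ * ‖∑ k ∈ Finset.range (n + 1), f (s ^ k * g)‖
      ≤ ((n : ℝ) + 1)⁻¹ * (((n : ℝ) + 1) * C) := by gcongr
    _ = C := by field_simp

theorem Av_diff (n : ℕ) (s : G) (f : G → E) (C : ℝ) (h : ∀ g, ‖f g‖ ≤ C) (g : G) :
    ‖Av n s f (s * g) - Av n s f g‖ ≤ 2 * C / ((n : ℝ) + 1) := by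
  unfold Av
  rw [← smul_sub, norm_smul, inv_norm]
  have e1 : ∑ k ∈ Finset.range (n + 1), f (s ^ k * (s * g)) -
      ∑ k ∈ Finset.range (n + 1), f (s ^ k * g) = f (s ^ (n + 1) * g) - f g := by
    have e2 : ∑ k ∈ Finset.range (n + 1), f (s ^ k * (s * g)) =
        ∑ k ∈ Finset.range (n + 1), f (s ^ (k + 1) * g) := by
      refine Finset.sum_congr rfl fun k _ => ?_
      rw [pow_succ, mul_assoc]
    rw [e2, ← Finset.sum_sub_distrib, Finset.sum_range_sub (fun k => f (s ^ k * g))]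
    simp
  rw [e1]
  have h2 : (0 : ℝ) < (n : ℝ) + 1 := by positivity
  have h3 : ‖f (s ^ (n + 1) * g) - f g‖ ≤ 2 * C := by
    refine (norm_sub_le _ _).trans ?_
    linarith [h (s ^ (n + 1) * g), h g]
  calc ((n : ℝ) + 1)⁻¹ * ‖f (s ^ (n + 1) * g) - f g‖ ≤ ((n : ℝ) + 1)⁻¹ * (2 * C) := by gcongr
    _ = 2 * C / ((n : ℝ) + 1) := by ring

theorem Av_map {F : Type*} [NormedAddCommGroup F] [NormedSpace ℂ F] (L : E →ₗ[ℂ] F) (n : ℕ)
    (s : G) (f : G → E) : Av n s (fun g => L (f g)) = fun g => L (Av n s f g) := by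
  funext g
  simp only [Av, map_smul, map_sum]

theorem Av_add (n : ℕ) (s : G) (f f' : G → E) : Av n s (fun g => f g + f' g) =
    fun g => Av n s f g + Av n s f' g := by
  funext g
  simp only [Av, Finset.sum_add_distrib, smul_add]

theorem Av_const (n : ℕ) (s : G) (c : E) : Av n s (fun _ => c) = fun _ => c := by
  funext g
  simp only [Av, Finset.sum_const, Finset.card_range]
  rw [← Nat.cast_smul_eq_nsmul ℂ, smul_smul]
  have : ((n : ℂ) + 1) ≠ 0 := by exact_mod_cast Nat.succ_ne_zero n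
  push_cast
  rw [inv_mul_cancel₀ this, one_smul]

/-- Iterated averages. -/
def AvL (n : ℕ) (l : List G) (f : G → E) : G → E := l.foldr (Av n) f

theorem AvL_cons (n : ℕ) (s : G) (l : List G) (f : G → E) :
    AvL n (s :: l) f = Av n s (AvL n l f) := rfl

theorem AvL_perm (n : ℕ) {l l' : List G} (h : l.Perm l') (f : G → E) : AvL n l f = AvL n l' f := by
  induction h with
  | nil => rfl
  | cons s _ ih => rw [AvL_cons, AvL_cons, ih]
  | swap s t l => rw [AvL_cons, AvL_cons, AvL_cons, AvL_cons, Av_comm]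
  | trans _ _ h1 h2 => rw [h1, h2]

theorem AvL_trans (n : ℕ) (l : List G) (t : G) (f : G → E) :
    AvL n l (fun x => f (t * x)) = fun g => AvL n l f (t * g) := by
  induction l with
  | nil => rfl
  | cons s l ih =>
    rw [AvL_cons, ih, AvL_cons]
    funext g
    exact Av_trans n s t _ g

theorem AvL_norm (n : ℕ) (l : List G) (f : G → E) (C : ℝ) (h : ∀ g, ‖f g‖ ≤ C) (g : G) :
    ‖AvL n l f g‖ ≤ C := by
  induction l generalizing g with
  | nil => exact h g
  | cons s l ih => rw [AvL_cons]; exact Av_norm n s _ C ih g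

theorem AvL_map {F : Type*} [NormedAddCommGroup F] [NormedSpace ℂ F] (L : E →ₗ[ℂ] F) (n : ℕ)
    (l : List G) (f : G → E) : AvL n l (fun g => L (f g)) = fun g => L (AvL n l f g) := by
  induction l with
  | nil => rfl
  | cons s l ih => rw [AvL_cons, ih, AvL_cons, Av_map]

theorem AvL_add (n : ℕ) (l : List G) (f f' : G → E) : AvL n l (fun g => f g + f' g) =
    fun g => AvL n l f g + AvL n l f' g := by
  induction l with
  | nil => rfl
  | cons s l ih => rw [AvL_cons, ih, AvL_cons, AvL_cons, Av_add]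

theorem AvL_const (n : ℕ) (l : List G) (c : E) : AvL n l (fun _ => c) = fun _ => c := by
  induction l with
  | nil => rfl
  | cons s l ih => rw [AvL_cons, ih, Av_const]

/-- The averages. -/
def avg (i : Finset G × ℕ) (f : G → E) : E := AvL i.2 i.1.toList f 1

theorem avg_diff (i : Finset G × ℕ) (s : G) (hs : s ∈ i.1) (f : G → E) (C : ℝ)
    (h : ∀ g, ‖f g‖ ≤ C) :
    ‖avg i (fun g => f (s * g)) - avg i f‖ ≤ 2 * C / ((i.2 : ℝ) + 1) := by
  classical
  have hp : i.1.toList.Perm (s :: i.1.toList.erase s) :=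
    List.perm_cons_erase (Finset.mem_toList.2 hs)
  unfold avg
  rw [AvL_perm _ hp, AvL_perm _ hp, AvL_cons, AvL_cons, AvL_trans]
  have := Av_trans i.2 s s (AvL i.2 (i.1.toList.erase s) f) 1
  rw [this]
  exact Av_diff _ _ _ C (fun g => AvL_norm _ _ _ C h g) 1

theorem avg_norm (i : Finset G × ℕ) (f : G → E) (C : ℝ) (h : ∀ g, ‖f g‖ ≤ C) : ‖avg i f‖ ≤ C :=
  AvL_norm _ _ _ C h 1

theorem avg_map {F : Type*} [NormedAddCommGroup F] [NormedSpace ℂ F] (L : E →ₗ[ℂ] F)
    (i : Finset G × ℕ) (f : G → E) : avg i (fun g => L (f g)) = L (avg i f) := by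
  unfold avg
  rw [AvL_map]

theorem avg_add (i : Finset G × ℕ) (f f' : G → E) :
    avg i (fun g => f g + f' g) = avg i f + avg i f' := by
  unfold avg
  rw [AvL_add]

theorem avg_const (i : Finset G × ℕ) (c : E) : avg i (fun _ : G => c) = c := by
  unfold avg
  rw [AvL_const]

end Av

/-! ### The mean -/

section mean

variable (G : Type) [CommGroup G]

instance dirInst : IsDirectedOrder (Finset G × ℕ) := by
  classical
  infer_instance

/-- An ultrafilter. -/
def UF : Ultrafilter (Finset G × ℕ) := Ultrafilter.of atTop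

theorem UF_le : (UF G : Filter (Finset G × ℕ)) ≤ atTop := Ultrafilter.of_le _

variable {G}
variable {H : Type} [NormedAddCommGroup H] [InnerProductSpace ℂ H] [CompleteSpace H]

/-- Boundedness. -/
def Bd (f : G → (H →L[ℂ] H)) : Prop := ∃ C : ℝ, ∀ g, ‖f g‖ ≤ C

theorem exists_mean (f : G → (H →L[ℂ] H)) (h : Bd f) : ∃ S : H →L[ℂ] H, ∀ ξ η : H,
    Tendsto (fun i => ⟪η, avg i f ξ⟫_ℂ) (UF G) (𝓝 ⟪η, S ξ⟫_ℂ) := by
  obtain ⟨C, hC⟩ := h
  obtain ⟨S, -, hS⟩ := H710R2.DP.dp_ulim H (Finset G × ℕ) (UF G) (fun i => avg i f) C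
    (fun i => avg_norm i f C hC)
  exact ⟨S, hS⟩

open Classical in
/-- The mean of a bounded operator valued function. -/
def mean (f : G → (H →L[ℂ] H)) : H →L[ℂ] H :=
  if h : Bd f then Classical.choose (exists_mean f h) else 0

theorem mean_spec {f : G → (H →L[ℂ] H)} (h : Bd f) (ξ η : H) :
    Tendsto (fun i => ⟪η, avg i f ξ⟫_ℂ) (UF G) (𝓝 ⟪η, mean f ξ⟫_ℂ) := by
  unfold mean
  rw [dif_pos h]
  exact Classical.choose_spec (exists_mean f h) ξ η

theorem mean_eq {f : G → (H →L[ℂ] H)} (h : Bd f) (S : H →L[ℂ] H)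
    (hS : ∀ ξ η, Tendsto (fun i => ⟪η, avg i f ξ⟫_ℂ) (UF G) (𝓝 ⟪η, S ξ⟫_ℂ)) : mean f = S := by
  ext ξ
  refine ext_inner_left ℂ fun η => ?_
  exact tendsto_nhds_unique (mean_spec h ξ η) (hS ξ η)

theorem Bd.add {f f' : G → (H →L[ℂ] H)} (h : Bd f) (h' : Bd f') : Bd fun g => f g + f' g := by
  obtain ⟨C, hC⟩ := h
  obtain ⟨C', hC'⟩ := h'
  exact ⟨C + C', fun g => (norm_add_le _ _).trans (add_le_add (hC g) (hC' g))⟩

theorem Bd.neg {f : G → (H →L[ℂ] H)} (h : Bd f) : Bd fun g => - f g := by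
  obtain ⟨C, hC⟩ := h
  exact ⟨C, fun g => by rw [norm_neg]; exact hC g⟩

theorem Bd.sub {f f' : G → (H →L[ℂ] H)} (h : Bd f) (h' : Bd f') : Bd fun g => f g - f' g := by
  simpa [sub_eq_add_neg] using h.add h'.neg

theorem Bd.mul {f f' : G → (H →L[ℂ] H)} (h : Bd f) (h' : Bd f') : Bd fun g => f g * f' g := by
  obtain ⟨C, hC⟩ := h
  obtain ⟨C', hC'⟩ := h'
  refine ⟨C * C', fun g => (norm_mul_le _ _).trans ?_⟩
  exact mul_le_mul (hC g) (hC' g) (norm_nonneg _) ((norm_nonneg _).trans (hC g))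

theorem Bd.const (c : H →L[ℂ] H) : Bd fun _ : G => c := ⟨‖c‖, fun _ => le_rfl⟩

theorem Bd.comp {f : G → (H →L[ℂ] H)} (h : Bd f) (φ : G → G) : Bd fun g => f (φ g) := by
  obtain ⟨C, hC⟩ := h
  exact ⟨C, fun g => hC _⟩

theorem mean_const (c : H →L[ℂ] H) : mean (fun _ : G => c) = c := by
  refine mean_eq (Bd.const c) c fun ξ η => ?_
  simp only [avg_const]
  exact tendsto_const_nhds

theorem mean_add {f f' : G → (H →L[ℂ] H)} (h : Bd f) (h' : Bd f') :
    mean (fun g => f g + f' g) = mean f + mean f' := by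
  refine mean_eq (h.add h') _ fun ξ η => ?_
  have := (mean_spec h ξ η).add (mean_spec h' ξ η)
  refine (this.congr fun i => ?_).trans ?_
  · rw [avg_add, add_apply, inner_add_right]
  · rw [add_apply, inner_add_right]

theorem mean_mul_left {f : G → (H →L[ℂ] H)} (h : Bd f) (a : H →L[ℂ] H) :
    mean (fun g => a * f g) = a * mean f := by
  refine mean_eq ((Bd.const a).mul h) _ fun ξ η => ?_
  have h1 := mean_spec h ξ (ContinuousLinearMap.adjoint a η)
  have h2 : ∀ T : H →L[ℂ] H, ⟪ContinuousLinearMap.adjoint a η, T ξ⟫_ℂ = ⟪η, (a * T) ξ⟫_ℂ := by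
    intro T
    rw [ContinuousLinearMap.adjoint_inner_left]
    rfl
  rw [← h2]
  refine h1.congr fun i => ?_
  rw [h2]
  congr 2
  have := avg_map (LinearMap.mulLeft ℂ a) i f
  simp only [LinearMap.mulLeft_apply] at this
  rw [this]

theorem mean_mul_right {f : G → (H →L[ℂ] H)} (h : Bd f) (a : H →L[ℂ] H) :
    mean (fun g => f g * a) = mean f * a := by
  refine mean_eq (h.mul (Bd.const a)) _ fun ξ η => ?_
  have h1 := mean_spec h (a ξ) η
  refine h1.congr fun i => ?_
  have := avg_map (LinearMap.mulRight ℂ a) i f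
  simp only [LinearMap.mulRight_apply] at this
  rw [this]
  rfl

theorem mean_neg {f : G → (H →L[ℂ] H)} (h : Bd f) : mean (fun g => - f g) = - mean f := by
  have := mean_mul_left h (-1)
  simpa using this

theorem mean_sub {f f' : G → (H →L[ℂ] H)} (h : Bd f) (h' : Bd f') :
    mean (fun g => f g - f' g) = mean f - mean f' := by
  simp only [sub_eq_add_neg]
  rw [mean_add h h'.neg, mean_neg h']

theorem Bd.star {f : G → (H →L[ℂ] H)} (h : Bd f) : Bd fun g => Star.star (f g) := by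
  obtain ⟨C, hC⟩ := h
  exact ⟨C, fun g => by rw [norm_star]; exact hC g⟩

theorem avg_star (i : Finset G × ℕ) (f : G → (H →L[ℂ] H)) :
    avg i (fun g => star (f g)) = star (avg i f) := by
  have key : ∀ (l : List G) (g : G), AvL i.2 l (fun g => star (f g)) g = star (AvL i.2 l f g) := by
    intro l
    induction l with
    | nil => intro g; rfl
    | cons s l ih =>
      intro g
      rw [AvL_cons, AvL_cons]
      unfold Av
      rw [star_smul, star_sum]
      congr 1
      · rw [star_inv₀, star_add, star_one]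
        congr 1
        simp
      · exact Finset.sum_congr rfl fun k _ => ih _
  exact key _ _

theorem mean_star {f : G → (H →L[ℂ] H)} (h : Bd f) :
    mean (fun g => star (f g)) = star (mean f) := by
  refine mean_eq h.star _ fun ξ η => ?_
  have h1 := (mean_spec h η ξ)
  have h2 : Tendsto (fun i => conj ⟪ξ, avg i f η⟫_ℂ) (UF G) (𝓝 (conj ⟪ξ, mean f η⟫_ℂ)) :=
    (Complex.continuous_conj.tendsto _).comp h1
  have h3 : ∀ T : H →L[ℂ] H, conj ⟪ξ, T η⟫_ℂ = ⟪η, (star T) ξ⟫_ℂ := by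
    intro T
    rw [inner_conj_symm, ContinuousLinearMap.star_eq_adjoint,
      ContinuousLinearMap.adjoint_inner_right]
  rw [← h3]
  refine h2.congr fun i => ?_
  rw [h3, avg_star]

theorem norm_inner_mean_le {f : G → (H →L[ℂ] H)} (h : Bd f) (ξ η : H) (c : ℝ)
    (hc : ∀ g, ‖⟪η, f g ξ⟫_ℂ‖ ≤ c) : ‖⟪η, mean f ξ⟫_ℂ‖ ≤ c := by
  refine le_of_tendsto (mean_spec h ξ η).norm (Eventually.of_forall fun i => ?_)
  have h1 : ⟪η, avg i f ξ⟫_ℂ = avg i (fun g => ⟪η, f g ξ⟫_ℂ) := by
    let L : (H →L[ℂ] H) →ₗ[ℂ] ℂ :=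
      { toFun := fun T => ⟪η, T ξ⟫_ℂ
        map_add' := fun S T => by rw [add_apply, inner_add_right]
        map_smul' := fun r S => by
          rw [smul_apply, inner_smul_right, RingHom.id_apply, smul_eq_mul] }
    exact (avg_map L i f).symm
  rw [h1]
  exact avg_norm i _ c hc

theorem inner_mean_const {f : G → (H →L[ℂ] H)} (h : Bd f) (ξ η : H) (c : ℂ)
    (hc : ∀ g, ⟪η, f g ξ⟫_ℂ = c) : ⟪η, mean f ξ⟫_ℂ = c := by
  have h1 := mean_spec h ξ η
  refine tendsto_nhds_unique h1 ?_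
  have h2 : ∀ i, ⟪η, avg i f ξ⟫_ℂ = c := by
    intro i
    let L : (H →L[ℂ] H) →ₗ[ℂ] ℂ :=
      { toFun := fun T => ⟪η, T ξ⟫_ℂ
        map_add' := fun S T => by rw [add_apply, inner_add_right]
        map_smul' := fun r S => by
          rw [smul_apply, inner_smul_right, RingHom.id_apply, smul_eq_mul] }
    have h3 : avg i (fun g => L (f g)) = L (avg i f) := avg_map L i f
    have h4 : (fun g => L (f g)) = fun _ => c := funext hc
    rw [h4, avg_const] at h3
    exact h3.symm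
  simp only [h2]
  exact tendsto_const_nhds

theorem mean_norm {f : G → (H →L[ℂ] H)} (C : ℝ) (h : ∀ g, ‖f g‖ ≤ C) : ‖mean f‖ ≤ C := by
  have hC : 0 ≤ C := (norm_nonneg _).trans (h 1)
  refine ContinuousLinearMap.opNorm_le_bound _ hC fun ξ => ?_
  by_cases h0 : mean f ξ = 0
  · rw [h0, norm_zero]
    positivity
  have h1 : ‖⟪mean f ξ, mean f ξ⟫_ℂ‖ ≤ C * ‖ξ‖ * ‖mean f ξ‖ := by
    refine norm_inner_mean_le ⟨C, h⟩ _ _ _ fun g => ?_
    refine (norm_inner_le_norm _ _).trans ?_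
    rw [mul_comm]
    exact mul_le_mul_of_nonneg_right (((f g).le_opNorm ξ).trans
      (mul_le_mul_of_nonneg_right (h g) (norm_nonneg _))) (norm_nonneg _)
  have h2 : ‖⟪mean f ξ, mean f ξ⟫_ℂ‖ = ‖mean f ξ‖ * ‖mean f ξ‖ := by
    rw [inner_self_eq_norm_sq_to_K]; simp [sq]
  rw [h2] at h1
  exact le_of_mul_le_mul_right h1 (norm_pos_iff.2 h0)

theorem mean_close {f : G → (H →L[ℂ] H)} (c : H →L[ℂ] H) (r : ℝ) (h : ∀ g, ‖f g - c‖ ≤ r) :
    ‖mean f - c‖ ≤ r := by
  have hb : Bd f := ⟨r + ‖c‖, fun g => by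
    calc ‖f g‖ = ‖(f g - c) + c‖ := by rw [sub_add_cancel]
      _ ≤ _ := (norm_add_le _ _).trans (by linarith [h g])⟩
  have h1 := mean_sub hb (Bd.const (G := G) c)
  rw [mean_const] at h1
  rw [← h1]
  exact mean_norm r h

theorem mean_inv {f : G → (H →L[ℂ] H)} (h : Bd f) (s : G) :
    mean (fun g => f (s * g)) = mean f := by
  refine mean_eq (h.comp _) _ fun ξ η => ?_
  have h1 := mean_spec h ξ η
  obtain ⟨C, hC⟩ := h
  have h2 : Tendsto (fun i : Finset G × ℕ => ⟪η, avg i (fun g => f (s * g)) ξ⟫_ℂ -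
      ⟪η, avg i f ξ⟫_ℂ) atTop (𝓝 0) := by
    have hlim : Tendsto (fun i : Finset G × ℕ => ‖η‖ * (2 * C / ((i.2 : ℝ) + 1) * ‖ξ‖)) atTop
        (𝓝 0) := by
      have h5 : Tendsto (fun n : ℕ => ‖η‖ * (2 * C / ((n : ℝ) + 1) * ‖ξ‖)) atTop (𝓝 0) := by
        have h6 : Tendsto (fun n : ℕ => 2 * C / ((n : ℝ) + 1)) atTop (𝓝 0) :=
          tendsto_const_nhds.div_atTop
            (tendsto_atTop_add_const_right _ _ tendsto_natCast_atTop_atTop)
        have h7 := (h6.mul_const ‖ξ‖).const_mul ‖η‖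
        simpa using h7
      have h8 : Tendsto (fun i : Finset G × ℕ => i.2) atTop atTop := by
        rw [← prod_atTop_atTop_eq]
        exact tendsto_snd
      exact h5.comp h8
    refine squeeze_zero_norm' ?_ hlim
    rw [eventually_atTop]
    refine ⟨({s}, 0), fun i hi => ?_⟩
    have hs : s ∈ i.1 := hi.1 (Finset.mem_singleton_self s)
    rw [← inner_sub_right, ← sub_apply]
    refine (norm_inner_le_norm _ _).trans ?_
    refine mul_le_mul_of_nonneg_left ?_ (norm_nonneg _)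
    refine (ContinuousLinearMap.le_opNorm _ _).trans ?_
    exact mul_le_mul_of_nonneg_right (avg_diff i s hs f C hC) (norm_nonneg _)
  have h3 := (h2.mono_left (UF_le G)).add h1
  rw [zero_add] at h3
  refine h3.congr fun i => ?_
  ring

theorem mean_commute {f : G → (H →L[ℂ] H)} (h : Bd f) (y : H →L[ℂ] H)
    (hy : ∀ g, y * f g = f g * y) : y * mean f = mean f * y := by
  rw [← mean_mul_left h, ← mean_mul_right h]
  congr 1
  funext g
  exact hy g

/-- The basic identity of the iteration. -/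
theorem mean_cov {f f' : G → (H →L[ℂ] H)} (h : Bd f) (h' : Bd f') (r r' : ℝ)
    (hr : ∀ g, ‖f g - mean f‖ ≤ r) (hr' : ∀ g, ‖f' g - mean f'‖ ≤ r') :
    ‖mean (fun g => f g * f' g) - mean f * mean f'‖ ≤ r * r' := by
  have h1 : mean (fun g => (f g - mean f) * (f' g - mean f')) =
      mean (fun g => f g * f' g) - mean f * mean f' := by
    have e1 : (fun g => (f g - mean f) * (f' g - mean f')) =
        fun g => (f g * f' g - f g * mean f') - (mean f * f' g - mean f * mean f') := by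
      funext g
      noncomm_ring
    rw [e1, mean_sub ((h.mul h').sub (h.mul (Bd.const _)))
      (((Bd.const _).mul h').sub (Bd.const _)), mean_sub (h.mul h') (h.mul (Bd.const _)),
      mean_sub ((Bd.const _).mul h') (Bd.const _), mean_mul_right h, mean_mul_left h', mean_const]
    noncomm_ring
  rw [← h1]
  refine mean_norm _ fun g => (norm_mul_le _ _).trans ?_
  exact mul_le_mul (hr g) (hr' g) (norm_nonneg _) ((norm_nonneg _).trans (hr g))

end mean

end Pool.Agent.Q171.KK
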