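import Mathlib
import Pool.Agent.H759R2.Kad.Props5

/-!
# Operators near the identity, near projections, near inclusions
-/

set_option autoImplicit false
set_option linter.unusedSectionVars false
set_option linter.unusedVariables false

open Filter Topology
open scoped InnerProductSpace ComplexConjugate ComplexOrder

noncomputable section

namespace Pool.Agent.Q171.KK

open H759R2.Kad

variable {H : Type} [NormedAddCommGroup H] [InnerProductSpace ℂ H] [CompleteSpace H]

theorem norm_one_le : ‖(1 : H →L[ℂ] H)‖ ≤ 1 := ContinuousLinearMap.norm_id_le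

theorem spec_near (T : H →L[ℂ] H) (r : ℝ) (h : ‖T - 1‖ ≤ r) (x : ℝ)
    (hx : x ∈ spectrum ℝ T) : |x - 1| ≤ r := by
  rcases subsingleton_or_nontrivial H with hs | hn
  · exfalso
    have : Subsingleton (H →L[ℂ] H) := by
      constructor
      intro a b
      ext v
      exact Subsingleton.elim _ _
    rw [spectrum.of_subsingleton] at hx
    exact hx
  have h1 : x - 1 ∈ spectrum ℝ (T - 1) := by
    have := spectrum.sub_singleton_eq T (1 : ℝ)
    rw [map_one] at this
    rw [← this]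
    exact Set.sub_mem_sub hx (Set.mem_singleton _)
  have h2 := spectrum.norm_le_norm_of_mem h1
  rw [Real.norm_eq_abs] at h2
  exact h2.trans h

/-- Square root and inverse square root of an operator near the identity. -/
theorem nearOne (T : H →L[ℂ] H) (hT : IsSelfAdjoint T) (r : ℝ) (hr1 : r ≤ 1 / 2)
    (h : ‖T - 1‖ ≤ r) : ∃ S S' : H →L[ℂ] H, IsSelfAdjoint S ∧ IsSelfAdjoint S' ∧ S * S = T ∧
      S * S' = 1 ∧ S' * S = 1 ∧ ‖S - 1‖ ≤ r ∧ ‖S' - 1‖ ≤ 2 * r ∧
      ∀ y : H →L[ℂ] H, y * T = T * y → y * S = S * y ∧ y * S' = S' * y := by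
  have hr0 : 0 ≤ r := (norm_nonneg _).trans h
  have hsp : ∀ x ∈ spectrum ℝ T, 1 / 2 ≤ x ∧ |x - 1| ≤ r := by
    intro x hx
    have h1 := spec_near T r h x hx
    refine ⟨?_, h1⟩
    have := (abs_le.1 h1).1
    linarith
  have hc2 : ContinuousOn (fun x : ℝ => (√x)⁻¹) (spectrum ℝ T) := by
    refine ContinuousOn.inv₀ (Real.continuous_sqrt.continuousOn) fun x hx => ?_
    have := (hsp x hx).1
    exact (Real.sqrt_pos.2 (by linarith)).ne'
  have hc1 : ContinuousOn (fun x : ℝ => √x) (spectrum ℝ T) := Real.continuous_sqrt.continuousOn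
  have hss : ∀ x ∈ spectrum ℝ T, √x * (√x)⁻¹ = 1 := by
    intro x hx
    have := (hsp x hx).1
    exact mul_inv_cancel₀ (Real.sqrt_pos.2 (by linarith)).ne'
  refine ⟨cfc (fun x : ℝ => √x) T, cfc (fun x : ℝ => (√x)⁻¹) T, cfc_predicate _ _,
    cfc_predicate _ _, ?_, ?_, ?_, ?_, ?_, ?_⟩
  · rw [← cfc_mul _ _ T hc1 hc1]
    have e1 : cfc (fun x : ℝ => √x * √x) T = cfc (fun x : ℝ => x) T := by
      refine cfc_congr fun x hx => ?_
      have := (hsp x hx).1
      exact Real.mul_self_sqrt (by linarith)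
    rw [e1, cfc_id' ℝ T]
  · rw [← cfc_mul _ _ T hc1 hc2]
    have e1 : cfc (fun x : ℝ => √x * (√x)⁻¹) T = cfc (fun _ : ℝ => (1 : ℝ)) T :=
      cfc_congr fun x hx => hss x hx
    rw [e1, cfc_const_one ℝ T]
  · rw [← cfc_mul _ _ T hc2 hc1]
    have e1 : cfc (fun x : ℝ => (√x)⁻¹ * √x) T = cfc (fun _ : ℝ => (1 : ℝ)) T :=
      cfc_congr fun x hx => by
        show (√x)⁻¹ * √x = 1
        rw [mul_comm]; exact hss x hx
    rw [e1, cfc_const_one ℝ T]
  · have e1 : cfc (fun x : ℝ => √x) T - 1 = cfc (fun x : ℝ => √x - 1) T := by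
      rw [cfc_sub _ _ T hc1 continuousOn_const, cfc_const_one ℝ T]
    rw [e1]
    refine norm_cfc_le hr0 fun x hx => ?_
    obtain ⟨h1, h2⟩ := hsp x hx
    have h3 : 0 ≤ √x := Real.sqrt_nonneg _
    have h4 : (√x - 1) * (√x + 1) = x - 1 := by
      have := Real.mul_self_sqrt (show (0 : ℝ) ≤ x by linarith)
      nlinarith
    rw [Real.norm_eq_abs]
    have h5 : |√x - 1| * |√x + 1| = |x - 1| := by rw [← abs_mul, h4]
    have h6 : 1 ≤ |√x + 1| := by rw [abs_of_nonneg (by linarith)]; linarith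
    nlinarith [abs_nonneg (√x - 1)]
  · have e1 : cfc (fun x : ℝ => (√x)⁻¹) T - 1 = cfc (fun x : ℝ => (√x)⁻¹ - 1) T := by
      rw [cfc_sub _ _ T hc2 continuousOn_const, cfc_const_one ℝ T]
    rw [e1]
    refine norm_cfc_le (by linarith) fun x hx => ?_
    obtain ⟨h1, h2⟩ := hsp x hx
    have h3 : 0 < √x := Real.sqrt_pos.2 (by linarith)
    have h7 : 1 / 2 ≤ √x := by
      rw [show (1 / 2 : ℝ) = √(1 / 4) by
        rw [show (1 / 4 : ℝ) = (1 / 2) ^ 2 by norm_num, Real.sqrt_sq (by norm_num)]]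
      exact Real.sqrt_le_sqrt (by linarith)
    have h4 : (√x - 1) * (√x + 1) = x - 1 := by
      have := Real.mul_self_sqrt (show (0 : ℝ) ≤ x by linarith)
      nlinarith
    have h5 : |√x - 1| * |√x + 1| = |x - 1| := by rw [← abs_mul, h4]
    have h6 : 1 ≤ |√x + 1| := by rw [abs_of_nonneg (by linarith)]; linarith
    have h8 : |√x - 1| ≤ r := by nlinarith [abs_nonneg (√x - 1)]
    rw [Real.norm_eq_abs]
    have h9 : (√x)⁻¹ - 1 = -((√x - 1) * (√x)⁻¹) := by
      have := mul_inv_cancel₀ h3.ne'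
      ring_nf
      nlinarith
    rw [h9, abs_neg, abs_mul, abs_of_pos (inv_pos.2 h3)]
    have h10 : (√x)⁻¹ ≤ 2 := by
      rw [inv_le_comm₀ h3 (by norm_num)]
      linarith
    calc |√x - 1| * (√x)⁻¹ ≤ r * 2 := mul_le_mul h8 h10 (inv_pos.2 h3).le hr0
      _ = 2 * r := by ring
  · intro y hy
    have hy' : Commute T y := hy.symm
    exact ⟨(hy'.cfc_real (fun x : ℝ => √x)).symm, (hy'.cfc_real (fun x : ℝ => (√x)⁻¹)).symm⟩

/-- The cut-off function used for projections. -/
def hcut (x : ℝ) : ℝ := max 0 (min 1 (2 * x - 1 / 2))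

theorem hcut_cont : Continuous hcut := by unfold hcut; fun_prop

theorem hcut_zero {x : ℝ} (h : x ≤ 1 / 4) : hcut x = 0 := by
  unfold hcut
  rw [min_eq_right (by linarith), max_eq_left (by linarith)]

theorem hcut_one {x : ℝ} (h : 3 / 4 ≤ x) : hcut x = 1 := by
  unfold hcut
  rw [min_eq_left (by linarith), max_eq_right (by norm_num)]

theorem real_quad {x s : ℝ} (hs : s ≤ 1 / 8) (h : |x * x - x| ≤ s) :
    |x| ≤ 2 * s ∨ |x - 1| ≤ 2 * s := by
  have h0 : 0 ≤ s := (abs_nonneg _).trans h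
  have h1 : |x| * |x - 1| ≤ s := by
    rw [← abs_mul]
    have : x * (x - 1) = x * x - x := by ring
    rw [this]
    exact h
  by_cases hx : x ≤ 1 / 2
  · left
    have h2 : 1 / 2 ≤ |x - 1| := by
      rw [abs_of_nonpos (by linarith)]
      linarith
    nlinarith [abs_nonneg x]
  · right
    push Not at hx
    have h2 : 1 / 2 ≤ |x| := by
      rw [abs_of_nonneg (by linarith)]
      linarith
    nlinarith [abs_nonneg (x - 1)]

/-- A self-adjoint operator near a projection is near a projection of its C*-algebra. -/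
theorem near_proj (b p : H →L[ℂ] H) (hb : IsSelfAdjoint b) (hp : IsPr p) (r : ℝ)
    (hr : r ≤ 1 / 32) (h : ‖b - p‖ ≤ r) : ∃ q : H →L[ℂ] H, IsPr q ∧ ‖q - b‖ ≤ 8 * r ∧
      ∀ y : H →L[ℂ] H, y * b = b * y → y * q = q * y := by
  have hr0 : 0 ≤ r := (norm_nonneg _).trans h
  rcases subsingleton_or_nontrivial H with hs | hn
  · have hsub : Subsingleton (H →L[ℂ] H) := by
      constructor
      intro a b
      ext v
      exact Subsingleton.elim _ _
    refine ⟨p, hp, ?_, fun y _ => Subsingleton.elim _ _⟩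
    rw [Subsingleton.elim (p - b) 0, norm_zero]
    positivity
  have hpn : ‖p‖ ≤ 1 := by
    have h1 : ‖p‖ * ‖p‖ = ‖p‖ := by
      rw [← CStarRing.norm_star_mul_self, hp.1, hp.2]
    rcases eq_or_ne ‖p‖ 0 with h0 | h0
    · rw [h0]; norm_num
    · exact le_of_eq (mul_left_cancel₀ h0 (by rw [h1, mul_one]))
  have hbn : ‖b‖ ≤ 1 + r := by
    calc ‖b‖ = ‖(b - p) + p‖ := by rw [sub_add_cancel]
      _ ≤ _ := (norm_add_le _ _).trans (by linarith)
  have hbb : ‖b * b - b‖ ≤ 4 * r := by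
    have e1 : b * b - b = b * (b - p) + (b - p) * p - (b - p) := by
      have e0 : b * (b - p) + (b - p) * p - (b - p) = b * b - b + (p - p * p) := by noncomm_ring
      rw [e0, hp.2, sub_self, add_zero]
    rw [e1]
    have e2 : ‖b * (b - p)‖ ≤ (1 + r) * r := (norm_mul_le _ _).trans
      (mul_le_mul hbn h (norm_nonneg _) (by linarith))
    have e3 : ‖(b - p) * p‖ ≤ r * 1 := (norm_mul_le _ _).trans
      (mul_le_mul h hpn (norm_nonneg _) hr0)
    calc _ ≤ ‖b * (b - p) + (b - p) * p‖ + ‖b - p‖ := norm_sub_le _ _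
      _ ≤ ‖b * (b - p)‖ + ‖(b - p) * p‖ + ‖b - p‖ := by linarith [norm_add_le (b * (b - p)) ((b - p) * p)]
      _ ≤ 4 * r := by nlinarith
  have hsp : ∀ x ∈ spectrum ℝ b, |x| ≤ 8 * r ∨ |x - 1| ≤ 8 * r := by
    intro x hx
    have h1 : x * x - x ∈ spectrum ℝ (b * b - b) := by
      have e1 : b * b - b = cfc (fun x : ℝ => x * x - x) b := by
        rw [cfc_sub _ _ b (by fun_prop) (by fun_prop), cfc_mul _ _ b (by fun_prop) (by fun_prop),
          cfc_id' ℝ b]
      rw [e1, cfc_map_spectrum (fun x : ℝ => x * x - x) b]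
      exact ⟨x, hx, rfl⟩
    have h2 := spectrum.norm_le_norm_of_mem h1
    rw [Real.norm_eq_abs] at h2
    rcases real_quad (s := 4 * r) (by linarith) (h2.trans hbb) with h3 | h3
    · left; linarith
    · right; linarith
  have hval : ∀ x ∈ spectrum ℝ b, (hcut x = 0 ∧ |x| ≤ 8 * r) ∨ (hcut x = 1 ∧ |x - 1| ≤ 8 * r) := by
    intro x hx
    rcases hsp x hx with h3 | h3
    · left
      exact ⟨hcut_zero (by linarith [(abs_le.1 h3).2]), h3⟩
    · right
      exact ⟨hcut_one (by linarith [(abs_le.1 h3).1]), h3⟩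
  refine ⟨cfc hcut b, ⟨cfc_predicate hcut b, ?_⟩, ?_, ?_⟩
  · rw [← cfc_mul _ _ b hcut_cont.continuousOn hcut_cont.continuousOn]
    refine cfc_congr fun x hx => ?_
    rcases hval x hx with ⟨h1, -⟩ | ⟨h1, -⟩ <;> · show hcut x * hcut x = hcut x; rw [h1]; norm_num
  · have e1 : cfc hcut b - b = cfc (fun x : ℝ => hcut x - x) b := by
      rw [cfc_sub _ _ b hcut_cont.continuousOn (by fun_prop), cfc_id' ℝ b]
    rw [e1]
    refine norm_cfc_le (by positivity) fun x hx => ?_
    rw [Real.norm_eq_abs]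
    rcases hval x hx with ⟨h1, h2⟩ | ⟨h1, h2⟩
    · rw [h1, zero_sub, abs_neg]; exact h2
    · rw [h1, abs_sub_comm]; exact h2
  · intro y hy
    have hy' : Commute b y := hy.symm
    exact (hy'.cfc_real hcut).symm

theorem norm_pr {p : H →L[ℂ] H} (hp : IsPr p) : ‖p‖ ≤ 1 := by
  have h1 : ‖p‖ * ‖p‖ = ‖p‖ := by
    rw [← CStarRing.norm_star_mul_self, hp.1, hp.2]
  rcases eq_or_ne ‖p‖ 0 with h0 | h0
  · rw [h0]; norm_num
  · exact le_of_eq (mul_left_cancel₀ h0 (by rw [h1, mul_one]))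

theorem prCompl {p : H →L[ℂ] H} (hp : IsPr p) : IsPr (1 - p) := by
  refine ⟨by rw [star_sub, star_one, hp.1], ?_⟩
  rw [mul_sub, sub_mul, sub_mul, one_mul, one_mul, mul_one, hp.2]
  abel

/-- A projection of norm less than one is zero. -/
theorem pr_zero {p : H →L[ℂ] H} (hp : IsPr p) (h : ‖p‖ < 1) : p = 0 := by
  have h1 : ‖p‖ * ‖p‖ = ‖p‖ := by
    rw [← CStarRing.norm_star_mul_self, hp.1, hp.2]
  rw [← norm_eq_zero]
  by_contra h0
  have := mul_left_cancel₀ h0 (h1.trans (mul_one _).symm)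
  linarith

theorem norm_of_PI {v : H →L[ℂ] H} (hp : IsPr (star v * v)) : ‖v‖ ≤ 1 := by
  have h1 : ‖v‖ * ‖v‖ ≤ 1 := by
    rw [← CStarRing.norm_star_mul_self]
    exact norm_pr hp
  nlinarith [norm_nonneg v]

/-- A von Neumann algebra contains what commutes with its commutant. -/
theorem mem_of_comm (N : VonNeumannAlgebra H) (x : H →L[ℂ] H)
    (h : ∀ y : H →L[ℂ] H, (∀ a ∈ N, a * y = y * a) → y * x = x * y) : x ∈ N := by
  have h1 : x ∈ Set.centralizer (Set.centralizer (N : Set (H →L[ℂ] H))) := by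
    rw [Set.mem_centralizer_iff]
    intro y hy
    rw [Set.mem_centralizer_iff] at hy
    exact h y fun a ha => hy a ha
  rw [VonNeumannAlgebra.centralizer_centralizer] at h1
  exact h1

/-- Equivalence of projections of `N` that are near the initial and final projections of a partial
isometry which is near `N`. -/
theorem near_equiv (N : VonNeumannAlgebra H) (q₁ q₂ v x : H →L[ℂ] H) (hq₁ : q₁ ∈ N) (hq₂ : q₂ ∈ N)
    (h₁ : IsPr q₁) (h₂ : IsPr q₂) (hv1 : IsPr (star v * v)) (hv2 : IsPr (v * star v))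
    (hx : x ∈ N) (r : ℝ) (hr : r ≤ 1 / 100) (hxv : ‖x - v‖ ≤ r) (hp₁ : ‖star v * v - q₁‖ ≤ r)
    (hp₂ : ‖v * star v - q₂‖ ≤ r) : ∃ u ∈ N, star u * u = q₁ ∧ u * star u = q₂ := by
  have hr0 : 0 ≤ r := (norm_nonneg _).trans hxv
  have hvn : ‖v‖ ≤ 1 := norm_of_PI hv1
  have hvv : v * (star v * v) = v := by
    have h1 : star (v * (star v * v) - v) * (v * (star v * v) - v) = 0 := by
      have e := hv1.2
      calc star (v * (star v * v) - v) * (v * (star v * v) - v)
          = (star v * v) * (star v * v) * (star v * v) - (star v * v) * (star v * v) -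
            (star v * v) * (star v * v) + star v * v := by
            simp only [star_sub, star_mul, star_star]
            noncomm_ring
        _ = 0 := by rw [e, e]; noncomm_ring
    have h2 := CStarRing.star_mul_self_eq_zero_iff (v * (star v * v) - v)
    exact sub_eq_zero.1 (h2.1 h1)
  set y := q₂ * x * q₁ with hy
  have hyN : y ∈ N := mul_mem (mul_mem hq₂ hx) hq₁
  have hn1 : ‖q₁‖ ≤ 1 := norm_pr h₁
  have hn2 : ‖q₂‖ ≤ 1 := norm_pr h₂
  have hyv : ‖y - v‖ ≤ 3 * r := by
    have e1 : y - v = q₂ * (x - v) * q₁ + (q₂ - v * star v) * v * q₁ +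
        v * (q₁ - star v * v) := by
      have e2 : v * star v * v = v := by rw [mul_assoc]; exact hvv
      calc y - v = q₂ * x * q₁ - q₂ * v * q₁ + (q₂ * v * q₁ - v * q₁) + (v * q₁ - v) := by
            rw [hy]; abel
        _ = q₂ * x * q₁ - q₂ * v * q₁ + (q₂ * v * q₁ - (v * star v * v) * q₁) +
            (v * q₁ - v * (star v * v)) := by rw [e2, hvv]
        _ = _ := by noncomm_ring
    rw [e1]
    have t1 : ‖q₂ * (x - v) * q₁‖ ≤ r := by
      calc _ ≤ ‖q₂‖ * ‖x - v‖ * ‖q₁‖ := (norm_mul_le _ _).trans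
            (mul_le_mul_of_nonneg_right (norm_mul_le _ _) (norm_nonneg _))
        _ ≤ 1 * r * 1 := by gcongr
        _ = r := by ring
    have t2 : ‖(q₂ - v * star v) * v * q₁‖ ≤ r := by
      calc _ ≤ ‖q₂ - v * star v‖ * ‖v‖ * ‖q₁‖ := (norm_mul_le _ _).trans
            (mul_le_mul_of_nonneg_right (norm_mul_le _ _) (norm_nonneg _))
        _ ≤ r * 1 * 1 := by
            have : ‖q₂ - v * star v‖ ≤ r := by rw [norm_sub_rev]; exact hp₂
            gcongr
        _ = r := by ring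
    have t3 : ‖v * (q₁ - star v * v)‖ ≤ r := by
      calc _ ≤ ‖v‖ * ‖q₁ - star v * v‖ := norm_mul_le _ _
        _ ≤ 1 * r := by
            have : ‖q₁ - star v * v‖ ≤ r := by rw [norm_sub_rev]; exact hp₁
            gcongr
        _ = r := by ring
    calc _ ≤ ‖q₂ * (x - v) * q₁ + (q₂ - v * star v) * v * q₁‖ + ‖v * (q₁ - star v * v)‖ :=
          norm_add_le _ _
      _ ≤ ‖q₂ * (x - v) * q₁‖ + ‖(q₂ - v * star v) * v * q₁‖ + ‖v * (q₁ - star v * v)‖ := by
          linarith [norm_add_le (q₂ * (x - v) * q₁) ((q₂ - v * star v) * v * q₁)]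
      _ ≤ 3 * r := by linarith
  have hyn : ‖y‖ ≤ 1 + 3 * r := by
    calc ‖y‖ = ‖(y - v) + v‖ := by rw [sub_add_cancel]
      _ ≤ _ := (norm_add_le _ _).trans (by linarith)
  have hyq : y * q₁ = y := by rw [hy, mul_assoc, h₁.2]
  have hqy : q₂ * y = y := by rw [hy, ← mul_assoc, ← mul_assoc, h₂.2]
  have hqy' : q₁ * star y = star y := by
    have := congrArg star hyq
    rwa [star_mul, h₁.1] at this
  set T := star y * y + (1 - q₁) with hT
  have hTs : IsSelfAdjoint T := by
    rw [hT]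
    show star (star y * y + (1 - q₁)) = _
    rw [star_add, star_mul, star_star, star_sub, star_one, h₁.1]
  have hT1 : ‖T - 1‖ ≤ 9 * r := by
    have e1 : T - 1 = star (y - v) * y + star v * (y - v) + (star v * v - q₁) := by
      rw [hT, star_sub]
      noncomm_ring
    rw [e1]
    have t1 : ‖star (y - v) * y‖ ≤ 3 * r * (1 + 3 * r) := by
      refine (norm_mul_le _ _).trans ?_
      rw [norm_star]
      exact mul_le_mul hyv hyn (norm_nonneg _) (by linarith)
    have t2 : ‖star v * (y - v)‖ ≤ 1 * (3 * r) := by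
      refine (norm_mul_le _ _).trans ?_
      rw [norm_star]
      exact mul_le_mul hvn hyv (norm_nonneg _) (by norm_num)
    calc _ ≤ ‖star (y - v) * y + star v * (y - v)‖ + ‖star v * v - q₁‖ := norm_add_le _ _
      _ ≤ ‖star (y - v) * y‖ + ‖star v * (y - v)‖ + ‖star v * v - q₁‖ := by
          linarith [norm_add_le (star (y - v) * y) (star v * (y - v))]
      _ ≤ 9 * r := by nlinarith
  obtain ⟨S, S', hS, hS', hSS, hSS', hS'S, hn, hn', hcomm⟩ := nearOne T hTs (9 * r) (by linarith) hT1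
  have hTq : T * (1 - q₁) = 1 - q₁ := by
    rw [hT]
    have e := h₁.2
    calc (star y * y + (1 - q₁)) * (1 - q₁) = star y * (y - y * q₁) + (1 - q₁ - q₁ + q₁ * q₁) := by
          noncomm_ring
      _ = 1 - q₁ := by rw [hyq, e]; noncomm_ring
  have hqT : (1 - q₁) * T = 1 - q₁ := by
    have := congrArg star hTq
    rw [star_mul, hTs.star_eq, star_sub, star_one, h₁.1] at this
    exact this
  have hcq : (1 - q₁) * S' = S' * (1 - q₁) := (hcomm (1 - q₁) (by rw [hTq, hqT])).2
  have hST : S' * T * S' = 1 := by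
    rw [← hSS]
    calc S' * (S * S) * S' = (S' * S) * (S * S') := by noncomm_ring
      _ = 1 := by rw [hS'S, hSS', one_mul]
  have hS'T : S' * S' * T = 1 := by
    have h1 : T * S' = S' * T := (hcomm T rfl).2
    rw [mul_assoc, ← h1, ← mul_assoc, hST]
  have hSq : S' * (1 - q₁) * S' = 1 - q₁ := by
    calc S' * (1 - q₁) * S' = S' * (S' * (1 - q₁)) := by rw [mul_assoc, hcq]
      _ = S' * S' * (T * (1 - q₁)) := by rw [hTq, mul_assoc]
      _ = (S' * S' * T) * (1 - q₁) := by simp only [mul_assoc]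
      _ = 1 - q₁ := by rw [hS'T, one_mul]
  have hS'N : S' ∈ N := by
    refine mem_of_comm N S' fun z hz => ?_
    have h1 : z * T = T * z := by
      rw [hT]
      have e1 := hz y hyN
      have e2 := hz (star y) (star_mem hyN)
      have e3 := hz q₁ hq₁
      calc z * (star y * y + (1 - q₁)) = (z * star y) * y + z - z * q₁ := by noncomm_ring
        _ = star y * (z * y) + z - q₁ * z := by rw [← e2, ← e3]; noncomm_ring
        _ = (star y * y + (1 - q₁)) * z := by rw [← e1]; noncomm_ring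
    exact (hcomm z h1).2
  refine ⟨y * S', mul_mem hyN hS'N, ?_, ?_⟩
  · calc star (y * S') * (y * S') = S' * (star y * y) * S' := by
          rw [star_mul, hS'.star_eq]; noncomm_ring
      _ = S' * T * S' - S' * (1 - q₁) * S' := by rw [hT]; noncomm_ring
      _ = q₁ := by rw [hST, hSq]; noncomm_ring
  · have hu1 : star (y * S') * (y * S') = q₁ := by
      calc star (y * S') * (y * S') = S' * (star y * y) * S' := by
            rw [star_mul, hS'.star_eq]; noncomm_ring
        _ = S' * T * S' - S' * (1 - q₁) * S' := by rw [hT]; noncomm_ring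
        _ = q₁ := by rw [hST, hSq]; noncomm_ring
    set u := y * S' with hu
    have huq : u * q₁ = u := by
      have e1 : q₁ * S' = S' * q₁ := by
        have := hcq
        rw [sub_mul, mul_sub, one_mul, mul_one] at this
        exact sub_right_injective this
      rw [hu, mul_assoc, ← e1, ← mul_assoc, hyq]
    have hqu : q₂ * u = u := by rw [hu, ← mul_assoc, hqy]
    set f := u * star u with hf
    have hfp : IsPr f := by
      refine ⟨by rw [hf, star_mul, star_star], ?_⟩
      calc f * f = u * (star u * u) * star u := by rw [hf]; noncomm_ring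
        _ = f := by rw [hu1, huq]
    have hqf : q₂ * f = f := by rw [hf, ← mul_assoc, hqu]
    have hfq : f * q₂ = f := by
      have := congrArg star hqf
      rwa [star_mul, h₂.1, hfp.1] at this
    have hun : ‖u‖ ≤ 1 := norm_of_PI (by rw [hu1]; exact h₁)
    have huv : ‖u - v‖ ≤ 23 * r := by
      have e1 : u - v = y * (S' - 1) + (y - v) := by rw [hu]; noncomm_ring
      rw [e1]
      have t1 : ‖y * (S' - 1)‖ ≤ (1 + 3 * r) * (2 * (9 * r)) := (norm_mul_le _ _).trans
        (mul_le_mul hyn hn' (norm_nonneg _) (by linarith))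
      calc _ ≤ ‖y * (S' - 1)‖ + ‖y - v‖ := norm_add_le _ _
        _ ≤ 23 * r := by nlinarith
    have hd : ‖q₂ - f‖ ≤ 47 * r := by
      have e1 : q₂ - f = -(v * star v - q₂) - ((u - v) * star u + v * star (u - v)) := by
        rw [hf, star_sub]
        noncomm_ring
      rw [e1]
      have t1 : ‖(u - v) * star u‖ ≤ 23 * r * 1 := by
        refine (norm_mul_le _ _).trans ?_
        rw [norm_star]
        exact mul_le_mul huv hun (norm_nonneg _) (by linarith)
      have t2 : ‖v * star (u - v)‖ ≤ 1 * (23 * r) := by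
        refine (norm_mul_le _ _).trans ?_
        rw [norm_star]
        exact mul_le_mul hvn huv (norm_nonneg _) (by norm_num)
      calc _ ≤ ‖-(v * star v - q₂)‖ + ‖(u - v) * star u + v * star (u - v)‖ := norm_sub_le _ _
        _ ≤ r + (‖(u - v) * star u‖ + ‖v * star (u - v)‖) := by
            rw [norm_neg]
            exact add_le_add hp₂ (norm_add_le _ _)
        _ ≤ 47 * r := by linarith
    have hz : q₂ - f = 0 := by
      refine pr_zero ⟨by rw [star_sub, h₂.1, hfp.1], ?_⟩ (by linarith)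
      rw [mul_sub, sub_mul, sub_mul, h₂.2, hfq, hqf, hfp.2]
      abel
    exact (sub_eq_zero.1 hz).symm

/-- Near inclusion. -/
def NI (A B : Set (H →L[ℂ] H)) (ε : ℝ) : Prop := ∀ x ∈ A, ‖x‖ ≤ 1 → ∃ y ∈ B, ‖x - y‖ ≤ ε

theorem NI.mono {A B : Set (H →L[ℂ] H)} {ε ε' : ℝ} (h : NI A B ε) (he : ε ≤ ε') : NI A B ε' := by
  intro x hx hx1
  obtain ⟨y, hy, hxy⟩ := h x hx hx1
  exact ⟨y, hy, hxy.trans he⟩

/-- Riesz: a closed subspace that is nearly everything is everything. -/
theorem riesz_eq (A B : Submodule ℂ (H →L[ℂ] H)) (hA : IsClosed (A : Set (H →L[ℂ] H)))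
    (hAB : A ≤ B) (ε : ℝ) (hε : ε < 1) (h : NI (B : Set (H →L[ℂ] H)) A ε) : B ≤ A := by
  have h' : ∀ x ∈ B, ∃ y ∈ A, ‖x - y‖ ≤ ε * ‖x‖ := by
    intro x hx
    rcases eq_or_ne x 0 with h0 | h0
    · exact ⟨0, A.zero_mem, by rw [h0]; simp⟩
    have hx0 : (‖x‖ : ℂ) ≠ 0 := by exact_mod_cast (norm_ne_zero_iff.2 h0)
    obtain ⟨y, hy, hxy⟩ := h ((‖x‖ : ℂ)⁻¹ • x) (B.smul_mem _ hx) (by
      rw [norm_smul, norm_inv, Complex.norm_real, norm_norm, inv_mul_cancel₀
        (norm_ne_zero_iff.2 h0)])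
    refine ⟨(‖x‖ : ℂ) • y, A.smul_mem _ hy, ?_⟩
    have e1 : x - (‖x‖ : ℂ) • y = (‖x‖ : ℂ) • ((‖x‖ : ℂ)⁻¹ • x - y) := by
      rw [smul_sub, smul_smul, mul_inv_cancel₀ hx0, one_smul]
    rw [e1, norm_smul, Complex.norm_real, norm_norm, mul_comm]
    exact mul_le_mul_of_nonneg_right hxy (norm_nonneg _)
  intro x hx
  have hne : (A : Set (H →L[ℂ] H)).Nonempty := ⟨0, A.zero_mem⟩
  have h1 : x ∈ closure (A : Set (H →L[ℂ] H)) := by
    rw [Metric.mem_closure_iff_infDist_zero hne]
    by_contra hd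
    have hpos : 0 < Metric.infDist x (A : Set (H →L[ℂ] H)) :=
      lt_of_le_of_ne Metric.infDist_nonneg (Ne.symm hd)
    set d := Metric.infDist x (A : Set (H →L[ℂ] H)) with hdef
    have hε1 : max ε 0 < 1 := max_lt hε one_pos
    obtain ⟨η, hη0, hη⟩ : ∃ η : ℝ, 0 < η ∧ max ε 0 * (d + η) < d := by
      refine ⟨(1 - max ε 0) * d / 2, by
        have : 0 < 1 - max ε 0 := by linarith
        positivity, ?_⟩
      have h2 : 0 ≤ max ε 0 := le_max_right _ _
      nlinarith [mul_pos (sub_pos.2 hε1) hpos, mul_nonneg h2 hpos.le]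
    obtain ⟨y, hy, hxy⟩ := (Metric.infDist_lt_iff hne).1 (show Metric.infDist x
      (A : Set (H →L[ℂ] H)) < d + η by linarith)
    rw [dist_eq_norm] at hxy
    obtain ⟨z, hz, hxz⟩ := h' (x - y) (B.sub_mem hx (hAB hy))
    have h3 : d ≤ ‖x - y - z‖ := by
      have := Metric.infDist_le_dist_of_mem (x := x) (A.add_mem hy hz)
      rw [dist_eq_norm] at this
      rw [sub_sub]
      exact this
    have h4 : ‖x - y - z‖ ≤ max ε 0 * (d + η) := by
      refine hxz.trans ?_
      calc ε * ‖x - y‖ ≤ max ε 0 * ‖x - y‖ :=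
            mul_le_mul_of_nonneg_right (le_max_left _ _) (norm_nonneg _)
        _ ≤ max ε 0 * (d + η) := mul_le_mul_of_nonneg_left hxy.le (le_max_right _ _)
    linarith
  rw [hA.closure_eq] at h1
  exact h1

end Pool.Agent.Q171.KK
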