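import Mathlib
import Pool.Agent.Q171.KK.Near
import Pool.Agent.Q171.KK.Mean

/-!
# Near inclusions of commutative groups of unitaries are implemented by unitaries near the identity
-/

set_option autoImplicit false
set_option linter.unusedSectionVars false
set_option linter.unusedVariables false

open Filter Topology
open scoped InnerProductSpace ComplexConjugate ComplexOrder

noncomputable section

namespace Pool.Agent.Q171.KK

open H759R2.Kad

variable {H : Type} [NormedAddCommGroup H] [InnerProductSpace ℂ H] [CompleteSpace H]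

/-- A unitary operator. -/
def IsUn (u : H →L[ℂ] H) : Prop := star u * u = 1 ∧ u * star u = 1

theorem IsUn.norm_le {u : H →L[ℂ] H} (hu : IsUn u) : ‖u‖ ≤ 1 := by
  have h1 : ‖u‖ * ‖u‖ ≤ 1 := by
    rw [← CStarRing.norm_star_mul_self, hu.1]
    exact norm_one_le
  nlinarith [norm_nonneg u]

theorem IsUn.star {u : H →L[ℂ] H} (hu : IsUn u) : IsUn (star u) :=
  ⟨by rw [star_star]; exact hu.2, by rw [star_star]; exact hu.1⟩

/-- Operators near a unitary are invertible. -/
theorem inv_near {a u : H →L[ℂ] H} (hu : IsUn u) (h : ‖a - u‖ ≤ 1 / 4) :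
    a * Ring.inverse a = 1 ∧ Ring.inverse a * a = 1 ∧ ‖Ring.inverse a‖ ≤ 4 / 3 := by
  have hua : ‖1 - star u * a‖ < 1 := by
    have e1 : 1 - star u * a = - (star u * (a - u)) := by rw [mul_sub, hu.1]; abel
    rw [e1, norm_neg]
    have := (norm_mul_le (star u) (a - u)).trans
      (mul_le_mul hu.star.norm_le h (norm_nonneg _) (by norm_num))
    linarith
  have h1 : IsUnit (star u * a) := by
    have := (Units.oneSub (1 - star u * a) hua).isUnit
    rwa [Units.val_oneSub, sub_sub_cancel] at this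
  have h2 : IsUnit a := by
    have h3 : IsUnit u := ⟨⟨u, star u, hu.2, hu.1⟩, rfl⟩
    have h4 := h3.mul h1
    rwa [← mul_assoc, hu.2, one_mul] at h4
  have i1 := Ring.mul_inverse_cancel a h2
  have i2 := Ring.inverse_mul_cancel a h2
  refine ⟨i1, i2, ?_⟩
  set b := Ring.inverse a with hb
  have e2 : b = star u + b * (u - a) * star u := by
    have : b * (u - a) * star u = b * (u * star u) - (b * a) * star u := by noncomm_ring
    rw [this, hu.2, i2]
    noncomm_ring
  have h5 : ‖b * (u - a) * star u‖ ≤ ‖b‖ * (1 / 4) * 1 := by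
    refine (norm_mul_le _ _).trans ?_
    refine mul_le_mul ((norm_mul_le _ _).trans (mul_le_mul_of_nonneg_left ?_ (norm_nonneg _)))
      hu.star.norm_le (norm_nonneg _) (by positivity)
    rw [norm_sub_rev]
    exact h
  have h6 : ‖b‖ ≤ 1 + ‖b‖ * (1 / 4) * 1 := by
    calc ‖b‖ = ‖star u + b * (u - a) * star u‖ := by rw [← e2]
      _ ≤ ‖star u‖ + ‖b * (u - a) * star u‖ := norm_add_le _ _
      _ ≤ _ := add_le_add hu.star.norm_le h5
  linarith

section kaz

variable {G : Type} [CommGroup G] (π : G → (H →L[ℂ] H)) (S : Set (H →L[ℂ] H))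

/-- The state of the iteration. -/
structure Gd (ρ : G → (H →L[ℂ] H)) (d η : ℝ) : Prop where
  mem : ∀ g, ∀ s ∈ S, s * ρ g = ρ g * s
  near : ∀ g, ‖ρ g - π g‖ ≤ d
  defect : ∀ g h, ‖ρ (g * h) * Ring.inverse (ρ h) - ρ g‖ ≤ η

/-- One step. -/
def step (ρ : G → (H →L[ℂ] H)) : G → (H →L[ℂ] H) := fun g =>
  mean fun h => ρ (g * h) * Ring.inverse (ρ h)

variable {π S}

theorem inv_comm {a s b : H →L[ℂ] H} (h1 : a * b = 1) (h2 : b * a = 1) (h : s * a = a * s) :
    s * b = b * s := by
  calc s * b = (b * a) * s * b := by rw [h2, one_mul]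
    _ = b * (s * a) * b := by rw [h]; noncomm_ring
    _ = b * s * (a * b) := by noncomm_ring
    _ = b * s := by rw [h1, mul_one]

theorem Gd.step {ρ : G → (H →L[ℂ] H)} {d η : ℝ} (hπ : ∀ g, IsUn (π g)) (h : Gd π S ρ d η)
    (hη : η ≤ 1 / 12) (hd : d + η ≤ 1 / 4) :
    Gd π S (step ρ) (d + η) (η / 2) ∧ ∀ g, ‖KK.step ρ g - ρ g‖ ≤ η := by
  have hη0 : 0 ≤ η := (norm_nonneg _).trans (h.defect 1 1)
  have hinv : ∀ g, ρ g * Ring.inverse (ρ g) = 1 ∧ Ring.inverse (ρ g) * ρ g = 1 ∧
      ‖Ring.inverse (ρ g)‖ ≤ 4 / 3 := fun g =>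
    inv_near (hπ g) ((h.near g).trans (by linarith))
  have hρn : ∀ g, ‖ρ g‖ ≤ 5 / 4 := by
    intro g
    calc ‖ρ g‖ = ‖(ρ g - π g) + π g‖ := by rw [sub_add_cancel]
      _ ≤ _ := (norm_add_le _ _).trans (add_le_add (h.near g) (hπ g).norm_le)
      _ ≤ 5 / 4 := by linarith
  have hb : ∀ g, Bd fun h => ρ (g * h) * Ring.inverse (ρ h) := by
    intro g
    refine ⟨5 / 4 * (4 / 3), fun k => (norm_mul_le _ _).trans ?_⟩
    exact mul_le_mul (hρn _) (hinv k).2.2 (norm_nonneg _) (by norm_num)
  have hclose : ∀ g, ‖KK.step ρ g - ρ g‖ ≤ η := by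
    intro g
    exact mean_close (ρ g) η fun k => h.defect g k
  have hnear : ∀ g, ‖KK.step ρ g - π g‖ ≤ d + η := by
    intro g
    calc ‖KK.step ρ g - π g‖ = ‖(ρ g - π g) + (KK.step ρ g - ρ g)‖ := by congr 1; abel
      _ ≤ _ := (norm_add_le _ _).trans (add_le_add (h.near g) (hclose g))
  have hinv' : ∀ g, KK.step ρ g * Ring.inverse (KK.step ρ g) = 1 ∧
      Ring.inverse (KK.step ρ g) * KK.step ρ g = 1 ∧ ‖Ring.inverse (KK.step ρ g)‖ ≤ 4 / 3 :=
    fun g => inv_near (hπ g) ((hnear g).trans hd)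
  refine ⟨⟨?_, hnear, ?_⟩, hclose⟩
  · intro g s hs
    refine mean_commute (hb g) s fun k => ?_
    have e1 := h.mem (g * k) s hs
    have e2 := inv_comm (hinv k).1 (hinv k).2.1 (h.mem k s hs)
    calc s * (ρ (g * k) * Ring.inverse (ρ k)) = (s * ρ (g * k)) * Ring.inverse (ρ k) := by
          noncomm_ring
      _ = ρ (g * k) * (s * Ring.inverse (ρ k)) := by rw [e1]; noncomm_ring
      _ = ρ (g * k) * Ring.inverse (ρ k) * s := by rw [e2]; noncomm_ring
  · intro g k
    set X : G → (H →L[ℂ] H) := fun m => ρ (g * (k * m)) * Ring.inverse (ρ (k * m)) with hX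
    set Y : G → (H →L[ℂ] H) := fun m => ρ (k * m) * Ring.inverse (ρ m) with hY
    have hXb : Bd X := (hb g).comp fun m => k * m
    have hmX : mean X = KK.step ρ g := mean_inv (hb g) k
    have hmY : mean Y = KK.step ρ k := rfl
    have hXY : (fun m => X m * Y m) = fun m => ρ ((g * k) * m) * Ring.inverse (ρ m) := by
      funext m
      calc X m * Y m = ρ (g * (k * m)) * (Ring.inverse (ρ (k * m)) * ρ (k * m)) *
            Ring.inverse (ρ m) := by rw [hX, hY]; noncomm_ring
        _ = _ := by rw [(hinv _).2.1, mul_one, mul_assoc g k m]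
    have hcov := mean_cov hXb (hb k) (2 * η) (2 * η) (fun m => by
      rw [hmX]
      calc ‖X m - KK.step ρ g‖ = ‖(X m - ρ g) + (ρ g - KK.step ρ g)‖ := by congr 1; abel
        _ ≤ ‖X m - ρ g‖ + ‖ρ g - KK.step ρ g‖ := norm_add_le _ _
        _ ≤ η + η := by
            refine add_le_add (h.defect g (k * m)) ?_
            rw [norm_sub_rev]
            exact hclose g
        _ = 2 * η := by ring) (fun m => by
      have : mean (fun m => ρ (k * m) * Ring.inverse (ρ m)) = KK.step ρ k := rfl
      rw [this]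
      calc ‖ρ (k * m) * Ring.inverse (ρ m) - KK.step ρ k‖
          = ‖(ρ (k * m) * Ring.inverse (ρ m) - ρ k) + (ρ k - KK.step ρ k)‖ := by congr 1; abel
        _ ≤ ‖ρ (k * m) * Ring.inverse (ρ m) - ρ k‖ + ‖ρ k - KK.step ρ k‖ := norm_add_le _ _
        _ ≤ η + η := by
            refine add_le_add (h.defect k m) ?_
            rw [norm_sub_rev]
            exact hclose k
        _ = 2 * η := by ring)
    have hcov' : ‖KK.step ρ (g * k) - KK.step ρ g * KK.step ρ k‖ ≤ 2 * η * (2 * η) := by
      have e1 : KK.step ρ (g * k) = mean fun m => X m * Y m := by rw [hXY]; rfl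
      rw [e1, ← hmX, ← hmY]
      exact hcov
    have e2 : KK.step ρ (g * k) * Ring.inverse (KK.step ρ k) - KK.step ρ g =
        (KK.step ρ (g * k) - KK.step ρ g * KK.step ρ k) * Ring.inverse (KK.step ρ k) := by
      rw [sub_mul, mul_assoc (KK.step ρ g), (hinv' k).1, mul_one]
    rw [e2]
    calc _ ≤ ‖KK.step ρ (g * k) - KK.step ρ g * KK.step ρ k‖ * ‖Ring.inverse (KK.step ρ k)‖ :=
          norm_mul_le _ _
      _ ≤ 2 * η * (2 * η) * (4 / 3) := mul_le_mul hcov' (hinv' k).2.2 (norm_nonneg _)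
          (by positivity)
      _ ≤ η / 2 := by nlinarith

/-- The sequence of the iteration. -/
def seq (ρ : G → (H →L[ℂ] H)) : ℕ → G → (H →L[ℂ] H)
  | 0 => ρ
  | n + 1 => step (seq ρ n)

theorem seq_gd {ρ : G → (H →L[ℂ] H)} {d η : ℝ} (hπ : ∀ g, IsUn (π g)) (h : Gd π S ρ d η)
    (hη : η ≤ 1 / 12) (hd : d + 2 * η ≤ 1 / 4) (n : ℕ) :
    Gd π S (seq ρ n) (d + 2 * η * (1 - (1 / 2) ^ n)) (η * (1 / 2) ^ n) ∧
      ∀ g, ‖seq ρ (n + 1) g - seq ρ n g‖ ≤ η * (1 / 2) ^ n := by
  have hη0 : 0 ≤ η := (norm_nonneg _).trans (h.defect 1 1)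
  have key : ∀ n, Gd π S (seq ρ n) (d + 2 * η * (1 - (1 / 2) ^ n)) (η * (1 / 2) ^ n) := by
    intro n
    induction n with
    | zero => simpa [seq] using h
    | succ n ih =>
      have hp : (0 : ℝ) ≤ (1 / 2) ^ n := by positivity
      have hp1 : ((1 : ℝ) / 2) ^ n ≤ 1 := pow_le_one₀ (by norm_num) (by norm_num)
      have := (ih.step hπ (by nlinarith) (by nlinarith)).1
      have e1 : d + 2 * η * (1 - (1 / 2) ^ n) + η * (1 / 2) ^ n =
          d + 2 * η * (1 - (1 / 2) ^ (n + 1)) := by rw [pow_succ]; ring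
      have e2 : η * (1 / 2) ^ n / 2 = η * (1 / 2) ^ (n + 1) := by rw [pow_succ]; ring
      rw [e1, e2] at this
      exact this
  refine ⟨key n, ?_⟩
  have hp : (0 : ℝ) ≤ (1 / 2) ^ n := by positivity
  have hp1 : ((1 : ℝ) / 2) ^ n ≤ 1 := pow_le_one₀ (by norm_num) (by norm_num)
  exact ((key n).step hπ (by nlinarith) (by nlinarith)).2

/-- Approximate homomorphisms are near homomorphisms. -/
theorem exists_hom {ρ : G → (H →L[ℂ] H)} {d η : ℝ} (hπ : ∀ g, IsUn (π g)) (h : Gd π S ρ d η)
    (hη : η ≤ 1 / 12) (hd : d + 2 * η ≤ 1 / 4) :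
    ∃ θ : G → (H →L[ℂ] H), (∀ g, ∀ s ∈ S, s * θ g = θ g * s) ∧ (∀ g, ‖θ g - π g‖ ≤ d + 2 * η) ∧
      ∀ g k, θ (g * k) = θ g * θ k := by
  have hη0 : 0 ≤ η := (norm_nonneg _).trans (h.defect 1 1)
  have hgd := fun n => (seq_gd hπ h hη hd n).1
  have hst := fun n => (seq_gd hπ h hη hd n).2
  have hc : ∀ g, CauchySeq fun n => seq ρ n g := by
    intro g
    refine cauchySeq_of_le_geometric (1 / 2) η (by norm_num) fun n => ?_
    rw [dist_comm, dist_eq_norm]
    exact hst n g
  choose θ hθ using fun g => cauchySeq_tendsto_of_complete (hc g)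
  have hpow : Tendsto (fun n : ℕ => η * (1 / 2 : ℝ) ^ n) atTop (𝓝 0) := by
    have := (tendsto_pow_atTop_nhds_zero_of_lt_one (r := (1 / 2 : ℝ)) (by norm_num)
      (by norm_num)).const_mul η
    simpa using this
  refine ⟨θ, ?_, ?_, ?_⟩
  · intro g s hs
    have h1 : Tendsto (fun n => s * seq ρ n g) atTop (𝓝 (s * θ g)) := (hθ g).const_mul s
    have h2 : Tendsto (fun n => seq ρ n g * s) atTop (𝓝 (θ g * s)) := (hθ g).mul_const s
    refine tendsto_nhds_unique h1 (h2.congr fun n => ?_)
    exact ((hgd n).mem g s hs).symm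
  · intro g
    refine le_of_tendsto ((hθ g).sub_const _).norm (Eventually.of_forall fun n => ?_)
    refine ((hgd n).near g).trans ?_
    have hp : (0 : ℝ) ≤ (1 / 2) ^ n := by positivity
    nlinarith
  · intro g k
    have h1 : Tendsto (fun n => seq ρ n (g * k) - seq ρ n g * seq ρ n k) atTop
        (𝓝 (θ (g * k) - θ g * θ k)) := (hθ (g * k)).sub ((hθ g).mul (hθ k))
    have h2 : Tendsto (fun n => seq ρ n (g * k) - seq ρ n g * seq ρ n k) atTop (𝓝 0) := by
      refine squeeze_zero_norm (a := fun n : ℕ => η * (1 / 2 : ℝ) ^ n * (5 / 4)) (fun n => ?_) ?_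
      · have hp : (0 : ℝ) ≤ (1 / 2) ^ n := by positivity
        have hnear : ‖seq ρ n k - π k‖ ≤ 1 / 4 := ((hgd n).near k).trans (by nlinarith)
        have hi := inv_near (hπ k) hnear
        have hn : ‖seq ρ n k‖ ≤ 5 / 4 := by
          calc ‖seq ρ n k‖ = ‖(seq ρ n k - π k) + π k‖ := by rw [sub_add_cancel]
            _ ≤ _ := (norm_add_le _ _).trans (add_le_add hnear (hπ k).norm_le)
            _ ≤ 5 / 4 := by norm_num
        have e1 : seq ρ n (g * k) - seq ρ n g * seq ρ n k =
            (seq ρ n (g * k) * Ring.inverse (seq ρ n k) - seq ρ n g) * seq ρ n k := by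
          rw [sub_mul, mul_assoc (seq ρ n (g * k)), hi.2.1, mul_one]
        rw [e1]
        exact (norm_mul_le _ _).trans (mul_le_mul ((hgd n).defect g k) hn (norm_nonneg _)
          (by positivity))
      · simpa using hpow.mul_const (5 / 4)
    exact sub_eq_zero.1 (tendsto_nhds_unique h1 h2)

end kaz

theorem norm_mul_sub_one {a b : H →L[ℂ] H} {r r' : ℝ} (h : ‖a - 1‖ ≤ r) (h' : ‖b - 1‖ ≤ r') :
    ‖a * b - 1‖ ≤ r * (1 + r') + r' := by
  have hr : 0 ≤ r := (norm_nonneg _).trans h
  have hb : ‖b‖ ≤ 1 + r' := by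
    calc ‖b‖ = ‖(b - 1) + 1‖ := by rw [sub_add_cancel]
      _ ≤ _ := (norm_add_le _ _).trans (by linarith [norm_one_le (H := H)])
  have e1 : a * b - 1 = (a - 1) * b + (b - 1) := by noncomm_ring
  rw [e1]
  exact (norm_add_le _ _).trans (add_le_add ((norm_mul_le _ _).trans
    (mul_le_mul h hb (norm_nonneg _) hr)) h')

/-- **Perturbation.** A commutative group of unitaries nearly included in a commutant `S'` can be
moved into `S'` by a unitary near the identity. -/
theorem perturb {G : Type} [CommGroup G] (π : G → (H →L[ℂ] H)) (hπ : ∀ g, IsUn (π g))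
    (hmul : ∀ g k, π (g * k) = π g * π k) (S : Set (H →L[ℂ] H)) (hS : ∀ s ∈ S, star s ∈ S)
    (ε : ℝ) (hε : ε ≤ 1 / 1000)
    (hnear : ∀ g, ∃ t : H →L[ℂ] H, (∀ s ∈ S, s * t = t * s) ∧ ‖π g - t‖ ≤ ε) :
    ∃ w : H →L[ℂ] H, IsUn w ∧ ‖w - 1‖ ≤ 160 * ε ∧
      (∀ g, ∀ s ∈ S, s * (w * π g * star w) = (w * π g * star w) * s) ∧
      ∀ y : H →L[ℂ] H, (∀ g, y * π g = π g * y) →
        (∀ t : H →L[ℂ] H, (∀ s ∈ S, s * t = t * s) → y * t = t * y) → y * w = w * y := by
  choose ρ hρS hρ using hnear
  have hε0 : 0 ≤ ε := (norm_nonneg _).trans (hρ 1)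
  have hρ' : ∀ g, ‖ρ g - π g‖ ≤ ε := fun g => by rw [norm_sub_rev]; exact hρ g
  have hρn : ∀ g, ‖ρ g‖ ≤ 5 / 4 := by
    intro g
    calc ‖ρ g‖ = ‖(ρ g - π g) + π g‖ := by rw [sub_add_cancel]
      _ ≤ _ := (norm_add_le _ _).trans (add_le_add (hρ' g) (hπ g).norm_le)
      _ ≤ 5 / 4 := by linarith
  have hgd : Gd π S ρ ε (5 * ε) := by
    refine ⟨hρS, hρ', fun g k => ?_⟩
    have hi := inv_near (hπ k) ((hρ' k).trans (by linarith))
    have e1 : ρ (g * k) * Ring.inverse (ρ k) - ρ g =
        ((ρ (g * k) - π (g * k)) - (ρ g - π g) * ρ k - π g * (ρ k - π k)) *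
          Ring.inverse (ρ k) := by
      have e2 : (ρ (g * k) - π (g * k)) - (ρ g - π g) * ρ k - π g * (ρ k - π k) =
          ρ (g * k) - ρ g * ρ k := by rw [hmul]; noncomm_ring
      rw [e2, sub_mul, mul_assoc (ρ g), hi.1, mul_one]
    rw [e1]
    have t1 : ‖(ρ g - π g) * ρ k‖ ≤ ε * (5 / 4) := (norm_mul_le _ _).trans
      (mul_le_mul (hρ' g) (hρn k) (norm_nonneg _) hε0)
    have t2 : ‖π g * (ρ k - π k)‖ ≤ 1 * ε := (norm_mul_le _ _).trans
      (mul_le_mul (hπ g).norm_le (hρ' k) (norm_nonneg _) (by norm_num))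
    have t3 : ‖(ρ (g * k) - π (g * k)) - (ρ g - π g) * ρ k - π g * (ρ k - π k)‖ ≤
        ε + ε * (5 / 4) + ε := by
      refine (norm_sub_le _ _).trans (add_le_add ((norm_sub_le _ _).trans
        (add_le_add (hρ' _) t1)) (by linarith))
    calc _ ≤ ‖(ρ (g * k) - π (g * k)) - (ρ g - π g) * ρ k - π g * (ρ k - π k)‖ *
          ‖Ring.inverse (ρ k)‖ := norm_mul_le _ _
      _ ≤ (ε + ε * (5 / 4) + ε) * (4 / 3) := mul_le_mul t3 hi.2.2 (norm_nonneg _) (by linarith)
      _ ≤ 5 * ε := by linarith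
  obtain ⟨θ, hθS, hθπ, hθmul⟩ := exists_hom hπ hgd (by linarith) (by linarith)
  have hθπ' : ∀ g, ‖θ g - π g‖ ≤ 11 * ε := fun g => (hθπ g).trans (by linarith)
  have hθn : ∀ g, ‖θ g‖ ≤ 1 + 11 * ε := by
    intro g
    calc ‖θ g‖ = ‖(θ g - π g) + π g‖ := by rw [sub_add_cancel]
      _ ≤ _ := (norm_add_le _ _).trans (add_le_add (hθπ' g) (hπ g).norm_le)
      _ = 1 + 11 * ε := by ring
  have hθSs : ∀ g, ∀ s ∈ S, s * star (θ g) = star (θ g) * s := by
    intro g s hs
    have := congrArg star (hθS g (star s) (hS s hs))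
    rw [star_mul, star_mul, star_star] at this
    exact this.symm
  -- the positive operator
  have hbt : Bd fun g => star (θ g) * θ g :=
    ⟨(1 + 11 * ε) * (1 + 11 * ε), fun g => (norm_mul_le _ _).trans (by
      rw [norm_star]
      exact mul_le_mul (hθn g) (hθn g) (norm_nonneg _) (by linarith))⟩
  set t := mean fun g => star (θ g) * θ g with ht
  have htsa : IsSelfAdjoint t := by
    show star t = t
    rw [ht, ← mean_star hbt]
    congr 1
    funext g
    rw [star_mul, star_star]
  have ht1 : ‖t - 1‖ ≤ 24 * ε := by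
    refine mean_close 1 _ fun g => ?_
    have e1 : star (θ g) * θ g - 1 = star (θ g - π g) * θ g + star (π g) * (θ g - π g) := by
      rw [star_sub, sub_mul, mul_sub, (hπ g).1]
      abel
    rw [e1]
    have t1 : ‖star (θ g - π g) * θ g‖ ≤ 11 * ε * (1 + 11 * ε) := by
      refine (norm_mul_le _ _).trans ?_
      rw [norm_star]
      exact mul_le_mul (hθπ' g) (hθn g) (norm_nonneg _) (by linarith)
    have t2 : ‖star (π g) * (θ g - π g)‖ ≤ 1 * (11 * ε) := by
      refine (norm_mul_le _ _).trans ?_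
      exact mul_le_mul (hπ g).star.norm_le (hθπ' g) (norm_nonneg _) (by norm_num)
    refine (norm_add_le _ _).trans ?_
    nlinarith
  have htk : ∀ k, star (θ k) * t * θ k = t := by
    intro k
    have h1 : mean (fun g => star (θ k) * (star (θ g) * θ g) * θ k) = star (θ k) * t * θ k := by
      rw [mean_mul_right ((Bd.const (star (θ k))).mul hbt), mean_mul_left hbt]
    rw [← h1]
    have h2 : (fun g => star (θ k) * (star (θ g) * θ g) * θ k) =
        fun g => (fun m => star (θ m) * θ m) (k * g) := by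
      funext g
      show _ = star (θ (k * g)) * θ (k * g)
      rw [mul_comm k g, hθmul, star_mul]
      noncomm_ring
    rw [h2]
    exact mean_inv hbt k
  have htS : ∀ s ∈ S, s * t = t * s := by
    intro s hs
    refine mean_commute hbt s fun g => ?_
    rw [← mul_assoc, hθSs g s hs, mul_assoc, hθS g s hs, mul_assoc]
  -- the intertwiner
  have hbs : Bd fun g => θ g * star (π g) :=
    ⟨(1 + 11 * ε) * 1, fun g => (norm_mul_le _ _).trans
      (mul_le_mul (hθn g) (hπ g).star.norm_le (norm_nonneg _) (by linarith))⟩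
  set s := mean fun g => θ g * star (π g) with hs
  have hs1 : ‖s - 1‖ ≤ 11 * ε := by
    refine mean_close 1 _ fun g => ?_
    have e1 : θ g * star (π g) - 1 = (θ g - π g) * star (π g) := by
      rw [sub_mul, (hπ g).2]
    rw [e1]
    refine (norm_mul_le _ _).trans ?_
    have := mul_le_mul (hθπ' g) (hπ g).star.norm_le (norm_nonneg _) (by linarith)
    linarith
  have hsk : ∀ k, θ k * s = s * π k := by
    intro k
    rw [hs, ← mean_mul_left hbs]
    have h2 : (fun g => θ k * (θ g * star (π g))) =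
        fun g => ((fun m => θ m * star (π m)) (k * g)) * π k := by
      funext g
      show _ = θ (k * g) * star (π (k * g)) * π k
      rw [hθmul, hmul, star_mul]
      have e := (hπ k).1
      have e' : star (π g) * star (π k) = star (π k) * star (π g) := by
        rw [← star_mul, ← star_mul, ← hmul, ← hmul, mul_comm]
      calc θ k * (θ g * star (π g)) = θ k * θ g * star (π g) * 1 := by noncomm_ring
        _ = θ k * θ g * (star (π g) * star (π k)) * π k := by rw [← e]; noncomm_ring
    rw [h2, mean_mul_right (hbs.comp _), mean_inv hbs k]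
  have hbs' : Bd fun g => π g * star (θ g) :=
    ⟨1 * (1 + 11 * ε), fun g => (norm_mul_le _ _).trans (by
      rw [norm_star]
      exact mul_le_mul (hπ g).norm_le (hθn g) (norm_nonneg _) (by norm_num))⟩
  have hss : star s = mean fun g => π g * star (θ g) := by
    rw [hs, ← mean_star hbs]
    congr 1
    funext g
    rw [star_mul, star_star]
  have hsn1 : ‖star s - 1‖ ≤ 11 * ε := by
    have : star s - 1 = star (s - 1) := by rw [star_sub, star_one]
    rw [this, norm_star]
    exact hs1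
  set h := star s * t * s with hh
  have hhsa : IsSelfAdjoint h := by
    show star h = h
    rw [hh, star_mul, star_mul, star_star, htsa.star_eq]
    noncomm_ring
  have hh1 : ‖h - 1‖ ≤ 50 * ε := by
    have t1 := norm_mul_sub_one hsn1 ht1
    have t2 := norm_mul_sub_one t1 hs1
    refine t2.trans ?_
    have : 0 ≤ ε * ε := by positivity
    nlinarith [mul_nonneg this hε0, mul_le_mul_of_nonneg_left hε hε0,
      mul_le_mul_of_nonneg_left hε this]
  have hhk : ∀ k, π k * h = h * π k := by
    intro k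
    have e1 : star (π k) * star s = star s * star (θ k) := by
      rw [← star_mul, ← star_mul, hsk]
    have e2 : star (π k) * h * π k = h := by
      calc star (π k) * h * π k = (star (π k) * star s) * t * (s * π k) := by
            rw [hh]; noncomm_ring
        _ = star s * (star (θ k) * t * θ k) * s := by rw [e1, ← hsk]; noncomm_ring
        _ = h := by rw [htk]
    calc π k * h = π k * (star (π k) * h * π k) := by rw [e2]
      _ = (π k * star (π k)) * h * π k := by noncomm_ring
      _ = h * π k := by rw [(hπ k).2, one_mul]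
  obtain ⟨A, A', hA, hA', hAA, hAA', hA'A, hAn, hAn', hAc⟩ :=
    nearOne t htsa (24 * ε) (by linarith) ht1
  obtain ⟨P, P', hP, hP', hPP, hPP', hP'P, hPn, hPn', hPc⟩ :=
    nearOne h hhsa (50 * ε) (by linarith) hh1
  set w := A * s * P' with hw
  have hw1 : ‖w - 1‖ ≤ 160 * ε := by
    have t1 := norm_mul_sub_one hAn hs1
    have t2 := norm_mul_sub_one t1 hPn'
    refine t2.trans ?_
    have : 0 ≤ ε * ε := by positivity
    nlinarith [mul_nonneg this hε0, mul_le_mul_of_nonneg_left hε hε0,
      mul_le_mul_of_nonneg_left hε this]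
  have hww : star w * w = 1 := by
    have e1 : P' * h * P' = 1 := by
      rw [← hPP]
      calc P' * (P * P) * P' = (P' * P) * (P * P') := by noncomm_ring
        _ = 1 := by rw [hP'P, hPP', one_mul]
    calc star w * w = P' * (star s * (A * A) * s) * P' := by
          rw [hw, star_mul, star_mul, hA.star_eq, hP'.star_eq]
          noncomm_ring
      _ = 1 := by rw [hAA, ← hh, e1]
  have hwu : IsUn w := by
    have h1 := inv_near (a := w) (u := 1) ⟨by rw [star_one, one_mul], by rw [star_one, one_mul]⟩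
      (hw1.trans (by linarith))
    refine ⟨hww, ?_⟩
    have e1 : star w = Ring.inverse w := by
      calc star w = star w * (w * Ring.inverse w) := by rw [h1.1, mul_one]
        _ = Ring.inverse w := by rw [← mul_assoc, hww, one_mul]
    rw [e1]
    exact h1.1
  have hwk : ∀ k, w * π k * star w = A * θ k * A' := by
    intro k
    have e1 : P' * π k = π k * P' := ((hPc (π k) (hhk k)).2).symm
    calc w * π k * star w = A * s * (P' * π k) * star w := by rw [hw]; noncomm_ring
      _ = A * (s * π k) * P' * star w := by rw [e1]; noncomm_ring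
      _ = A * θ k * (1 * s) * P' * star w := by rw [← hsk, one_mul]; noncomm_ring
      _ = A * θ k * A' * (w * star w) := by rw [← hA'A, hw]; noncomm_ring
      _ = A * θ k * A' := by rw [hwu.2, mul_one]
  refine ⟨w, hwu, hw1, ?_, ?_⟩
  · intro k x hx
    rw [hwk]
    obtain ⟨c1, c2⟩ := hAc x (htS x hx)
    calc x * (A * θ k * A') = (x * A) * θ k * A' := by noncomm_ring
      _ = A * (x * θ k) * A' := by rw [c1]; noncomm_ring
      _ = A * θ k * (x * A') := by rw [hθS k x hx]; noncomm_ring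
      _ = A * θ k * A' * x := by rw [c2]; noncomm_ring
  · intro y hy hyT
    have c0 : ∀ g, y * θ g = θ g * y := fun g => hyT _ (hθS g)
    have c0' : ∀ g, y * star (θ g) = star (θ g) * y := fun g => hyT _ (hθSs g)
    have cp : ∀ g, y * star (π g) = star (π g) * y := by
      intro g
      exact inv_comm (hπ g).2 (hπ g).1 (hy g)
    have ct : y * t = t * y := by
      refine mean_commute hbt y fun g => ?_
      rw [← mul_assoc, c0', mul_assoc, c0, mul_assoc]
    have cs : y * s = s * y := by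
      refine mean_commute hbs y fun g => ?_
      rw [← mul_assoc, c0, mul_assoc, cp, mul_assoc]
    have cs' : y * star s = star s * y := by
      rw [hss]
      refine mean_commute hbs' y fun g => ?_
      rw [← mul_assoc, hy, mul_assoc, c0', mul_assoc]
    have ch : y * h = h * y := by
      rw [hh]
      calc y * (star s * t * s) = (y * star s) * t * s := by noncomm_ring
        _ = star s * (y * t) * s := by rw [cs']; noncomm_ring
        _ = star s * t * (y * s) := by rw [ct]; noncomm_ring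
        _ = star s * t * s * y := by rw [cs]; noncomm_ring
    have cA := (hAc y ct).1
    have cP := (hPc y ch).2
    rw [hw]
    calc y * (A * s * P') = (y * A) * s * P' := by noncomm_ring
      _ = A * (y * s) * P' := by rw [cA]; noncomm_ring
      _ = A * s * (y * P') := by rw [cs]; noncomm_ring
      _ = A * s * P' * y := by rw [cP]; noncomm_ring

end Pool.Agent.Q171.KK
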