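import Mathlib
import Pool.Agent.Q171.KK.Kaz

/-!
# Maximal abelian subalgebras
-/

set_option autoImplicit false
set_option linter.unusedSectionVars false
set_option linter.unusedVariables false
set_option linter.style.haveILetI false

open Filter Topology
open scoped InnerProductSpace ComplexConjugate ComplexOrder

noncomputable section

namespace Pool.Agent.Q171.KK

open H759R2.Kad

variable {H : Type} [NormedAddCommGroup H] [InnerProductSpace ℂ H] [CompleteSpace H]

/-- The commutant of a set and its adjoints, as a von Neumann algebra. -/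
def vnC (s : Set (H →L[ℂ] H)) : VonNeumannAlgebra H where
  toStarSubalgebra := StarSubalgebra.centralizer ℂ s
  centralizer_centralizer' := by
    show Set.centralizer (Set.centralizer (Set.centralizer (s ∪ star s))) = _
    rw [Set.centralizer_centralizer_centralizer]; rfl

theorem mem_vnC {s : Set (H →L[ℂ] H)} {y : H →L[ℂ] H} :
    y ∈ vnC s ↔ ∀ x ∈ s, x * y = y * x ∧ star x * y = y * star x := by
  show y ∈ StarSubalgebra.centralizer ℂ s ↔ _
  rw [StarSubalgebra.mem_centralizer_iff]

/-- For star closed sets. -/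
theorem mem_vnC' {s : Set (H →L[ℂ] H)} (hs : ∀ x ∈ s, star x ∈ s) {y : H →L[ℂ] H} :
    y ∈ vnC s ↔ ∀ x ∈ s, x * y = y * x := by
  rw [mem_vnC]
  exact ⟨fun h x hx => (h x hx).1, fun h x hx => ⟨h x hx, h _ (hs x hx)⟩⟩

/-- The commutant of a von Neumann algebra. -/
def cm (M : VonNeumannAlgebra H) : VonNeumannAlgebra H := vnC (M : Set (H →L[ℂ] H))

theorem mem_cm {M : VonNeumannAlgebra H} {y : H →L[ℂ] H} :
    y ∈ cm M ↔ ∀ x ∈ M, x * y = y * x :=
  mem_vnC' fun x hx => star_mem (S := VonNeumannAlgebra H) (s := M) hx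

theorem mem_iff_cm {M : VonNeumannAlgebra H} {x : H →L[ℂ] H} :
    x ∈ M ↔ ∀ y ∈ cm M, y * x = x * y := by
  refine ⟨fun hx y hy => (mem_cm.1 hy x hx).symm, fun h => ?_⟩
  exact mem_of_comm M x fun y hy => h y (mem_cm.2 hy)

theorem cm_cm (M : VonNeumannAlgebra H) {x : H →L[ℂ] H} : x ∈ cm (cm M) ↔ x ∈ M := by
  rw [mem_cm, mem_iff_cm (M := M)]

theorem vn_smul {M : VonNeumannAlgebra H} (c : ℂ) {x : H →L[ℂ] H} (hx : x ∈ M) : c • x ∈ M :=
  M.toStarSubalgebra.smul_mem hx c

/-- The unitary group of a von Neumann algebra. -/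
def UG (A : VonNeumannAlgebra H) : Type := {u : H →L[ℂ] H // u ∈ A ∧ IsUn u}

/-- The operator. -/
def UG.op {A : VonNeumannAlgebra H} (u : UG A) : H →L[ℂ] H := u.1

theorem UG.mem {A : VonNeumannAlgebra H} (u : UG A) : u.op ∈ A := u.2.1

theorem UG.un {A : VonNeumannAlgebra H} (u : UG A) : IsUn u.op := u.2.2

/-- Commutative von Neumann algebras. -/
def Cmt (A : VonNeumannAlgebra H) : Prop := ∀ x ∈ A, ∀ y ∈ A, x * y = y * x

theorem IsUn.mul {u v : H →L[ℂ] H} (hu : IsUn u) (hv : IsUn v) : IsUn (u * v) := by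
  constructor
  · calc Star.star (u * v) * (u * v) = Star.star v * (Star.star u * u) * v := by
          rw [star_mul]; noncomm_ring
      _ = 1 := by rw [hu.1, mul_one, hv.1]
  · calc (u * v) * Star.star (u * v) = u * (v * Star.star v) * Star.star u := by
          rw [star_mul]; noncomm_ring
      _ = 1 := by rw [hv.2, mul_one, hu.2]

/-- The group structure. -/
@[reducible] def ugComm (A : VonNeumannAlgebra H) (hA : Cmt A) : CommGroup (UG A) where
  mul u v := ⟨u.1 * v.1, mul_mem u.2.1 v.2.1, u.2.2.mul v.2.2⟩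
  mul_assoc u v w := Subtype.ext (mul_assoc _ _ _)
  one := ⟨1, one_mem _, by rw [IsUn, star_one, one_mul]; exact ⟨rfl, rfl⟩⟩
  one_mul u := Subtype.ext (one_mul _)
  mul_one u := Subtype.ext (mul_one _)
  inv u := ⟨star u.1, star_mem u.2.1, u.2.2.star⟩
  inv_mul_cancel u := Subtype.ext u.2.2.1
  mul_comm u v := Subtype.ext (hA _ u.2.1 _ v.2.1)

theorem ug_mul (A : VonNeumannAlgebra H) (hA : Cmt A) (u v : UG A) :
    letI := ugComm A hA
    (u * v).op = u.op * v.op := rfl

/-- A closed linear condition satisfied by the unitaries is satisfied by everything. -/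
theorem of_unitaries (A : VonNeumannAlgebra H) (P : Submodule ℂ (H →L[ℂ] H))
    (h : ∀ u ∈ A, IsUn u → u ∈ P) : ∀ x ∈ A, x ∈ P := by
  intro x hx
  have h1 : (⟨x, hx⟩ : A.toStarSubalgebra) ∈
      Submodule.span ℂ (unitary A.toStarSubalgebra : Set A.toStarSubalgebra) := by
    rw [CStarAlgebra.span_unitary]
    exact Submodule.mem_top
  have h2 : ∀ y ∈ Submodule.span ℂ (unitary A.toStarSubalgebra : Set A.toStarSubalgebra),
      (y : H →L[ℂ] H) ∈ P := by
    intro y hy
    induction hy using Submodule.span_induction with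
    | mem u hu =>
      refine h u u.2 ⟨?_, ?_⟩
      · have := congrArg (Subtype.val) (Unitary.mem_iff.1 hu).1
        exact this
      · have := congrArg (Subtype.val) (Unitary.mem_iff.1 hu).2
        exact this
    | zero => exact P.zero_mem
    | add a b _ _ ha hb => exact P.add_mem ha hb
    | smul c a _ ha => exact P.smul_mem c ha
  exact h2 _ h1

/-- Commutation with all unitaries. -/
theorem comm_of_unitaries (A : VonNeumannAlgebra H) (y : H →L[ℂ] H)
    (h : ∀ u ∈ A, IsUn u → y * u = u * y) : ∀ x ∈ A, y * x = x * y := by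
  let P : Submodule ℂ (H →L[ℂ] H) :=
    { carrier := {x | y * x = x * y}
      add_mem' := fun {a b} ha hb => by
        show y * (a + b) = (a + b) * y
        rw [mul_add, add_mul]
        have ha' : y * a = a * y := ha
        have hb' : y * b = b * y := hb
        rw [ha', hb']
      zero_mem' := by show y * 0 = 0 * y; simp
      smul_mem' := fun c {a} ha => by
        show y * (c • a) = (c • a) * y
        have ha' : y * a = a * y := ha
        rw [mul_smul_comm, smul_mul_assoc, ha'] }
  exact of_unitaries A P h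

/-- **Perturbation of commutative von Neumann algebras.** -/
theorem perturbVN (A T : VonNeumannAlgebra H) (hA : Cmt A) (ε : ℝ) (hε : ε ≤ 1 / 1000)
    (h : NI (A : Set (H →L[ℂ] H)) T ε) :
    ∃ w : H →L[ℂ] H, IsUn w ∧ ‖w - 1‖ ≤ 160 * ε ∧ (∀ a ∈ A, w * a * star w ∈ T) ∧
      ∀ y : H →L[ℂ] H, (∀ a ∈ A, y * a = a * y) → (∀ t ∈ T, y * t = t * y) → y * w = w * y := by
  letI := ugComm A hA
  obtain ⟨w, hw, hw1, hwT, hwc⟩ := perturb (G := UG A) (fun u => u.op) (fun u => u.un)
    (fun u v => rfl) (cm T : Set (H →L[ℂ] H)) (fun s hs => star_mem hs) ε hε (fun u => by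
      obtain ⟨t, ht, ht1⟩ := h u.op u.mem u.un.norm_le
      exact ⟨t, fun s hs => mem_iff_cm.1 ht s hs, ht1⟩)
  refine ⟨w, hw, hw1, ?_, ?_⟩
  · let P : Submodule ℂ (H →L[ℂ] H) :=
      { carrier := {x | w * x * star w ∈ T}
        add_mem' := fun {a b} ha hb => by
          show w * (a + b) * star w ∈ T
          rw [mul_add, add_mul]
          exact add_mem ha hb
        zero_mem' := by show w * 0 * star w ∈ T; rw [mul_zero, zero_mul]; exact zero_mem _
        smul_mem' := fun c {a} ha => by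
          show w * (c • a) * star w ∈ T
          rw [mul_smul_comm, smul_mul_assoc]
          exact vn_smul c ha }
    intro a ha
    refine of_unitaries A P (fun u hu hun => ?_) a ha
    exact mem_iff_cm.2 fun s hs => hwT ⟨u, hu, hun⟩ s hs
  · intro y hyA hyT
    refine hwc y (fun u => hyA _ u.mem) fun t ht => hyT t (mem_iff_cm.2 ht)

/-! ### Averages over the unitaries -/

section avg

variable (A : VonNeumannAlgebra H) (hA : Cmt A)

/-- The average of the conjugates. -/
def EA (x : H →L[ℂ] H) : H →L[ℂ] H :=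
  letI := ugComm A hA
  mean fun u : UG A => u.op * x * star u.op

theorem EA_bd (x : H →L[ℂ] H) : Bd fun u : UG A => u.op * x * star u.op := by
  refine ⟨‖x‖, fun u => ?_⟩
  calc ‖u.op * x * star u.op‖ ≤ ‖u.op‖ * ‖x‖ * ‖star u.op‖ := (norm_mul_le _ _).trans
        (mul_le_mul_of_nonneg_right (norm_mul_le _ _) (norm_nonneg _))
    _ ≤ 1 * ‖x‖ * 1 := by
        have h1 := u.un.norm_le
        have h2 := u.un.star.norm_le
        gcongr
    _ = ‖x‖ := by ring

theorem EA_comm (x : H →L[ℂ] H) : ∀ a ∈ A, EA A hA x * a = a * EA A hA x := by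
  letI := ugComm A hA
  refine comm_of_unitaries A _ fun v hv hvu => ?_
  have h1 : v * EA A hA x * star v = EA A hA x := by
    unfold EA
    rw [← mean_mul_left (EA_bd A x), ← mean_mul_right ((Bd.const v).mul (EA_bd A x))]
    let v' : UG A := ⟨v, hv, hvu⟩
    have h2 : (fun u : UG A => v * (u.op * x * star u.op) * star v) =
        fun u => (fun u : UG A => u.op * x * star u.op) (v' * u) := by
      funext u
      show _ = (v * u.op) * x * star (v * u.op)
      rw [star_mul]
      noncomm_ring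
    rw [h2, mean_inv (EA_bd A x)]
  calc EA A hA x * v = v * EA A hA x * star v * v := by rw [h1]
    _ = v * EA A hA x * (star v * v) := by noncomm_ring
    _ = v * EA A hA x := by rw [hvu.1, mul_one]

theorem EA_near (x y : H →L[ℂ] H) (hx : ∀ a ∈ A, x * a = a * x) (r : ℝ) (h : ‖y - x‖ ≤ r) :
    ‖EA A hA y - x‖ ≤ r := by
  have hr0 : 0 ≤ r := (norm_nonneg _).trans h
  letI := ugComm A hA
  refine mean_close x r fun u => ?_
  have e1 : u.op * y * star u.op - x = u.op * (y - x) * star u.op := by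
    have e2 : u.op * x * star u.op = x := by
      rw [← hx _ u.mem, mul_assoc, u.un.2, mul_one]
    rw [mul_sub, sub_mul, e2]
  rw [e1]
  calc ‖u.op * (y - x) * star u.op‖ ≤ ‖u.op‖ * ‖y - x‖ * ‖star u.op‖ := (norm_mul_le _ _).trans
        (mul_le_mul_of_nonneg_right (norm_mul_le _ _) (norm_nonneg _))
    _ ≤ 1 * r * 1 := by
        have h1 := u.un.norm_le
        have h2 := u.un.star.norm_le
        gcongr
    _ = r := by ring

theorem EA_commutes (x y : H →L[ℂ] H) (h1 : ∀ a ∈ A, y * a = a * y) (h2 : y * x = x * y) :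
    y * EA A hA x = EA A hA x * y := by
  letI := ugComm A hA
  refine mean_commute (EA_bd A x) y fun u => ?_
  calc y * (u.op * x * star u.op) = (y * u.op) * x * star u.op := by noncomm_ring
    _ = u.op * (y * x) * star u.op := by rw [h1 _ u.mem]; noncomm_ring
    _ = u.op * x * (y * star u.op) := by rw [h2]; noncomm_ring
    _ = u.op * x * star u.op * y := by rw [h1 _ (star_mem u.mem)]; noncomm_ring

theorem EA_mem (M : VonNeumannAlgebra H) (hAM : ∀ a ∈ A, a ∈ M) (x : H →L[ℂ] H) (hx : x ∈ M) :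
    EA A hA x ∈ M := by
  refine mem_iff_cm.2 fun y hy => ?_
  exact EA_commutes A hA x y (fun a ha => mem_iff_cm.1 (hAM a ha) y hy) (mem_iff_cm.1 hx y hy)

end avg

/-! ### Zorn -/

/-- `A` is a maximal abelian von Neumann subalgebra of `M`. -/
structure IsMasa (A M : VonNeumannAlgebra H) : Prop where
  cmt : Cmt A
  le : ∀ a ∈ A, a ∈ M
  max : ∀ x ∈ M, (∀ a ∈ A, x * a = a * x) → x ∈ A

theorem exists_masa (M : VonNeumannAlgebra H) (S₀ : Set (H →L[ℂ] H)) (h1 : ∀ s ∈ S₀, s ∈ M)
    (h2 : ∀ s ∈ S₀, star s ∈ S₀) (h3 : ∀ s ∈ S₀, ∀ t ∈ S₀, s * t = t * s) :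
    ∃ A : VonNeumannAlgebra H, IsMasa A M ∧ ∀ s ∈ S₀, s ∈ A := by
  let F : Set (Set (H →L[ℂ] H)) := {S | (∀ s ∈ S, s ∈ M) ∧ (∀ s ∈ S, star s ∈ S) ∧
    ∀ s ∈ S, ∀ t ∈ S, s * t = t * s}
  obtain ⟨S, hS0, hS⟩ := zorn_subset_nonempty F (fun c hc hchain hne => by
    refine ⟨⋃₀ c, ⟨?_, ?_, ?_⟩, fun s hs => Set.subset_sUnion_of_mem hs⟩
    · rintro s ⟨T, hT, hs⟩
      exact (hc hT).1 s hs
    · rintro s ⟨T, hT, hs⟩
      exact ⟨T, hT, (hc hT).2.1 s hs⟩
    · rintro s ⟨T, hT, hs⟩ t ⟨T', hT', ht⟩
      rcases hchain.total hT hT' with h | h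
      · exact (hc hT').2.2 s (h hs) t ht
      · exact (hc hT).2.2 s hs t (h ht)) S₀ ⟨h1, h2, h3⟩
  obtain ⟨⟨hS1, hS2, hS3⟩, hmax⟩ := hS
  -- normal elements of the relative commutant belong to `S`
  have key : ∀ x ∈ M, (∀ s ∈ S, x * s = s * x) → star x * x = x * star x → x ∈ S := by
    intro x hx hxs hn
    have hxs' : ∀ s ∈ S, star x * s = s * star x := by
      intro s hs
      have := congrArg star (hxs (star s) (hS2 s hs))
      rw [star_mul, star_mul, star_star] at this
      exact this.symm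
    have hF : S ∪ {x, star x} ∈ F := by
      refine ⟨?_, ?_, ?_⟩
      · rintro s (hs | rfl | rfl)
        · exact hS1 s hs
        · exact hx
        · exact star_mem hx
      · rintro s (hs | rfl | rfl)
        · exact Or.inl (hS2 s hs)
        · exact Or.inr (Or.inr rfl)
        · exact Or.inr (Or.inl (star_star _))
      · rintro s (hs | rfl | rfl) t (ht | rfl | rfl)
        · exact hS3 s hs t ht
        · exact (hxs s hs).symm
        · exact (hxs' s hs).symm
        · exact hxs t ht
        · rfl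
        · exact hn.symm
        · exact hxs' t ht
        · exact hn
        · rfl
    exact hmax hF Set.subset_union_left (Or.inr (Or.inl rfl))
  have hall : ∀ x ∈ M, (∀ s ∈ S, x * s = s * x) → x ∈ S := by
    intro x hx hxs
    have hxs' : ∀ s ∈ S, star x * s = s * star x := by
      intro s hs
      have := congrArg star (hxs (star s) (hS2 s hs))
      rw [star_mul, star_mul, star_star] at this
      exact this.symm
    have ha : x + star x ∈ S := by
      refine key _ (add_mem hx (star_mem hx)) (fun s hs => by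
        rw [add_mul, mul_add, hxs s hs, hxs' s hs]) ?_
      rw [star_add, star_star, add_comm (star x) x]
    have hb : x - star x ∈ S := by
      refine key _ (sub_mem hx (star_mem hx)) (fun s hs => by
        rw [sub_mul, mul_sub, hxs s hs, hxs' s hs]) ?_
      rw [star_sub, star_star]
      noncomm_ring
    refine key x hx hxs ?_
    have h4 := hS3 _ ha _ hb
    have h5 : (2 : ℂ) • (star x * x - x * star x) = 0 := by
      have h6 : (x + star x) * (x - star x) - (x - star x) * (x + star x) =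
          (2 : ℂ) • (star x * x - x * star x) := by
        rw [two_smul]
        noncomm_ring
      rw [← h6, h4, sub_self]
    rcases smul_eq_zero.1 h5 with h7 | h7
    · norm_num at h7
    · exact sub_eq_zero.1 h7
  -- the algebra
  set T : Set (H →L[ℂ] H) := (cm M : Set (H →L[ℂ] H)) ∪ S with hT
  have hTs : ∀ x ∈ T, star x ∈ T := by
    rintro x (hx | hx)
    · exact Or.inl (star_mem (S := VonNeumannAlgebra H) (s := cm M) hx)
    · exact Or.inr (hS2 x hx)
  have hmem : ∀ x, x ∈ vnC T ↔ x ∈ S := by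
    intro x
    rw [mem_vnC' hTs]
    constructor
    · intro h
      exact hall x (mem_iff_cm.2 fun y hy => h y (Or.inl hy)) fun s hs => (h s (Or.inr hs)).symm
    · rintro hx y (hy | hy)
      · exact mem_iff_cm.1 (hS1 x hx) y hy
      · exact hS3 y hy x hx
  refine ⟨vnC T, ⟨?_, ?_, ?_⟩, ?_⟩
  · intro x hx y hy
    exact hS3 x ((hmem x).1 hx) y ((hmem y).1 hy)
  · intro a ha
    exact hS1 a ((hmem a).1 ha)
  · intro x hx h
    exact (hmem x).2 (hall x hx fun s hs => h s ((hmem s).2 hs))
  · intro s hs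
    exact (hmem s).2 (hS0 hs)

theorem vn_closed (A : VonNeumannAlgebra H) : IsClosed (A : Set (H →L[ℂ] H)) := by
  rw [← VonNeumannAlgebra.centralizer_centralizer (S := A)]
  exact Set.isClosed_centralizer _

/-- The underlying subspace. -/
def sub (A : VonNeumannAlgebra H) : Submodule ℂ (H →L[ℂ] H) where
  carrier := A
  add_mem' := fun ha hb => add_mem ha hb
  zero_mem' := zero_mem A
  smul_mem' := fun c _ ha => vn_smul c ha

/-- A masa of `M` contained in a near algebra `N` is a masa of `N`. -/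
theorem IsMasa.transfer {A M N : VonNeumannAlgebra H} (h : IsMasa A M) (hN : ∀ a ∈ A, a ∈ N)
    (ε : ℝ) (hε : ε < 1) (hni : NI (N : Set (H →L[ℂ] H)) M ε) : IsMasa A N := by
  refine ⟨h.cmt, hN, ?_⟩
  let B : Submodule ℂ (H →L[ℂ] H) :=
    { carrier := {x | x ∈ N ∧ ∀ a ∈ A, x * a = a * x}
      add_mem' := fun {x y} hx hy => ⟨add_mem hx.1 hy.1, fun a ha => by
        rw [add_mul, mul_add, hx.2 a ha, hy.2 a ha]⟩
      zero_mem' := ⟨zero_mem _, fun a _ => by rw [zero_mul, mul_zero]⟩
      smul_mem' := fun c {x} hx => ⟨vn_smul c hx.1, fun a ha => by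
        rw [smul_mul_assoc, mul_smul_comm, hx.2 a ha]⟩ }
  have h1 : B ≤ sub A := by
    refine riesz_eq (sub A) B (vn_closed A) (fun a ha => ⟨hN a ha, fun b hb => h.cmt a ha b hb⟩)
      ε hε ?_
    intro x hx hx1
    obtain ⟨y, hy, hxy⟩ := hni x hx.1 hx1
    refine ⟨EA A h.cmt y, ?_, ?_⟩
    · exact h.max _ (EA_mem A h.cmt M h.le y hy) (EA_comm A h.cmt y)
    · rw [norm_sub_rev]
      exact EA_near A h.cmt x y hx.2 ε (by rw [norm_sub_rev]; exact hxy)
  intro x hx hxa
  exact h1 ⟨hx, hxa⟩

end Pool.Agent.Q171.KK
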