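import Mathlib
import Pool.Agent.Q171.KK.Masa
import Pool.Agent.H710R2.DP.Final

/-!
# Near inclusions of commutants
-/

set_option autoImplicit false
set_option linter.unusedSectionVars false
set_option linter.unusedVariables false
set_option linter.style.haveILetI false

open Filter Topology
open scoped InnerProductSpace ComplexConjugate ComplexOrder

noncomputable section

namespace Pool.Agent.Q171.KK

open H759R2.Kad H710R2.DP

/-- The derivation implemented by an operator. -/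
def derL {H : Type} [NormedAddCommGroup H] [InnerProductSpace ℂ H] [CompleteSpace H]
    (M : VonNeumannAlgebra H) (y : H →L[ℂ] H) (c : ℂ) : M.toStarSubalgebra →ₗ[ℂ] (H →L[ℂ] H) where
  toFun m := c • (y * (m : H →L[ℂ] H) - (m : H →L[ℂ] H) * y)
  map_add' a b := by
    have : ((a + b : M.toStarSubalgebra) : H →L[ℂ] H) = a + b := rfl
    rw [this, ← smul_add]
    congr 1
    noncomm_ring
  map_smul' r a := by
    have : ((r • a : M.toStarSubalgebra) : H →L[ℂ] H) = r • (a : H →L[ℂ] H) := rfl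
    rw [this, mul_smul_comm, smul_mul_assoc, ← smul_sub, smul_comm, RingHom.id_apply]

/-- **Operators almost commuting with a von Neumann algebra are near the commutant**, with a
universal constant. -/
theorem exists_const : ∃ K : ℝ, 0 < K ∧ ∀ (H : Type) [NormedAddCommGroup H]
    [InnerProductSpace ℂ H] [CompleteSpace H] (M : VonNeumannAlgebra H) (y : H →L[ℂ] H) (c : ℝ),
    0 ≤ c → (∀ m ∈ M, ‖y * m - m * y‖ ≤ c * ‖m‖) → ∃ z ∈ cm M, ‖y - z‖ ≤ K * c := by
  obtain ⟨C, hC, hW⟩ := fin_W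
  refine ⟨1 + C, by linarith, ?_⟩
  intro H _ _ _ M y c hc hy
  rcases hc.eq_or_lt with h0 | hpos
  · refine ⟨y, mem_cm.2 fun m hm => ?_, by rw [sub_self, norm_zero, ← h0]; simp⟩
    have h1 := hy m hm
    rw [← h0, zero_mul] at h1
    exact (sub_eq_zero.1 (norm_le_zero_iff.1 h1)).symm
  letI : PartialOrder M.toStarSubalgebra := CStarAlgebra.spectralOrder M.toStarSubalgebra
  haveI : StarOrderedRing M.toStarSubalgebra :=
    CStarAlgebra.spectralOrderedRing M.toStarSubalgebra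
  set D := derL M y ((c : ℂ)⁻¹) with hD
  have hc0 : (c : ℂ) ≠ 0 := by exact_mod_cast hpos.ne'
  have hDer : IsDerB (inc M) D 1 := by
    refine ⟨?_, ?_⟩
    · intro a b
      show (c : ℂ)⁻¹ • (y * ((a : H →L[ℂ] H) * b) - ((a : H →L[ℂ] H) * b) * y) =
        (a : H →L[ℂ] H) * ((c : ℂ)⁻¹ • (y * (b : H →L[ℂ] H) - b * y)) +
          ((c : ℂ)⁻¹ • (y * (a : H →L[ℂ] H) - a * y)) * (b : H →L[ℂ] H)
      rw [mul_smul_comm, smul_mul_assoc, ← smul_add]
      congr 1
      noncomm_ring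
    · intro a
      show ‖(c : ℂ)⁻¹ • (y * (a : H →L[ℂ] H) - a * y)‖ ≤ 1 * ‖(a : H →L[ℂ] H)‖
      rw [norm_smul, norm_inv, Complex.norm_real, Real.norm_eq_abs, abs_of_pos hpos, one_mul]
      have h1 := hy a a.2
      calc c⁻¹ * ‖y * (a : H →L[ℂ] H) - a * y‖ ≤ c⁻¹ * (c * ‖(a : H →L[ℂ] H)‖) := by gcongr
        _ = ‖(a : H →L[ℂ] H)‖ := by field_simp
  have hlvl : ∀ m, LvlBd (uD (inc M) D) m (1 + C * 1) := fun m =>
    dp_uD H M.toStarSubalgebra (inc M) D _ m (by positivity) (hW H M D 1 zero_le_one hDer m)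
  obtain ⟨hh1, _⟩ := prove4_dhom M.toStarSubalgebra H (inc M) D hDer.leib 1 zero_le_one hDer.bound
  obtain ⟨S, S', hSS', hS'S, hS1, hS2, hst⟩ := final_similar M.toStarSubalgebra (HH (Fin 2) H)
    (uD (inc M) D) hh1 (1 + C * 1) (by linarith) hlvl
  obtain ⟨T, hTn, hT⟩ := prove4_dinner M.toStarSubalgebra H (inc M) D hDer.leib S S' hSS' hS'S hst
  have hTn' : ‖T‖ ≤ 1 + C := by
    nlinarith [sq_nonneg (‖S‖ - ‖S'‖), norm_nonneg S, norm_nonneg S']
  refine ⟨y - (c : ℂ) • T, mem_cm.2 fun m hm => ?_, ?_⟩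
  · have h1 : (c : ℂ)⁻¹ • (y * m - m * y) = T * m - m * T := hT ⟨m, hm⟩
    have h2 : y * m - m * y = (c : ℂ) • (T * m - m * T) := by
      rw [← h1, smul_smul, mul_inv_cancel₀ hc0, one_smul]
    have h3 : (y - (c : ℂ) • T) * m - m * (y - (c : ℂ) • T) = 0 := by
      rw [sub_mul, mul_sub, smul_mul_assoc, mul_smul_comm]
      have : y * m - (c : ℂ) • (T * m) - (m * y - (c : ℂ) • (m * T)) =
          (y * m - m * y) - (c : ℂ) • (T * m - m * T) := by
        rw [smul_sub]; abel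
      rw [this, h2, sub_self]
    exact (sub_eq_zero.1 h3).symm
  · rw [sub_sub_cancel, norm_smul, Complex.norm_real, Real.norm_eq_abs, abs_of_pos hpos,
      mul_comm]
    exact mul_le_mul_of_nonneg_right hTn' hc

section

variable {H : Type} [NormedAddCommGroup H] [InnerProductSpace ℂ H] [CompleteSpace H]

theorem ni_scale {M N : VonNeumannAlgebra H} {ε : ℝ} (h : NI (M : Set (H →L[ℂ] H)) N ε)
    (x : H →L[ℂ] H) (hx : x ∈ M) : ∃ y ∈ N, ‖x - y‖ ≤ ε * ‖x‖ := by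
  rcases eq_or_ne x 0 with h0 | h0
  · exact ⟨0, zero_mem N, by rw [h0]; simp⟩
  have hx0 : (‖x‖ : ℂ) ≠ 0 := by exact_mod_cast (norm_ne_zero_iff.2 h0)
  obtain ⟨y, hy, hxy⟩ := h ((‖x‖ : ℂ)⁻¹ • x) (vn_smul _ hx) (by
    rw [norm_smul, norm_inv, Complex.norm_real, norm_norm, inv_mul_cancel₀
      (norm_ne_zero_iff.2 h0)])
  refine ⟨(‖x‖ : ℂ) • y, vn_smul _ hy, ?_⟩
  have e1 : x - (‖x‖ : ℂ) • y = (‖x‖ : ℂ) • ((‖x‖ : ℂ)⁻¹ • x - y) := by
    rw [smul_sub, smul_smul, mul_inv_cancel₀ hx0, one_smul]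
  rw [e1, norm_smul, Complex.norm_real, norm_norm, mul_comm]
  exact mul_le_mul_of_nonneg_right hxy (norm_nonneg _)

theorem ni_cm (K : ℝ) (hK : 0 < K) (hKc : ∀ (M : VonNeumannAlgebra H) (y : H →L[ℂ] H) (c : ℝ),
    0 ≤ c → (∀ m ∈ M, ‖y * m - m * y‖ ≤ c * ‖m‖) → ∃ z ∈ cm M, ‖y - z‖ ≤ K * c)
    {M N : VonNeumannAlgebra H} {ε : ℝ} (hε : 0 ≤ ε) (h : NI (M : Set (H →L[ℂ] H)) N ε) :
    NI (cm N : Set (H →L[ℂ] H)) (cm M) (2 * K * ε) := by
  intro y hy hy1
  obtain ⟨z, hz, hyz⟩ := hKc M y (2 * ε) (by linarith) (fun m hm => by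
    obtain ⟨n, hn, hmn⟩ := ni_scale h m hm
    have h1 := mem_cm.1 hy n hn
    have e1 : y * m - m * y = y * (m - n) - (m - n) * y := by
      have : y * (m - n) - (m - n) * y = (y * m - m * y) + (n * y - y * n) := by noncomm_ring
      rw [this, h1, sub_self, add_zero]
    rw [e1]
    have t1 : ‖y * (m - n)‖ ≤ 1 * (ε * ‖m‖) := (norm_mul_le _ _).trans
      (mul_le_mul hy1 hmn (norm_nonneg _) (by norm_num))
    have t2 : ‖(m - n) * y‖ ≤ (ε * ‖m‖) * 1 := (norm_mul_le _ _).trans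
      (mul_le_mul hmn hy1 (norm_nonneg _) (by positivity))
    refine (norm_sub_le _ _).trans ?_
    linarith)
  exact ⟨z, hz, by linarith⟩

end

end Pool.Agent.Q171.KK
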