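import Mathlib
import Pool.Agent.Q171.KK.Masa
import Pool.Agent.H710R2.DP.Final
import Pool.Agent.H332R2.Kad4.NoMin
import Pool.Agent.H956R2.Kad4.Comp
import Pool.Agent.H720R2.Kad4.Join

/-!
# Traces of near II₁ factors agree on common projections
-/

set_option autoImplicit false
set_option linter.unusedSectionVars false
set_option linter.unusedVariables false

open Filter Topology
open scoped InnerProductSpace ComplexConjugate ComplexOrder

noncomputable section

namespace Pool.Agent.Q171.KK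

open H759R2.Kad H710R2.DP

variable {H : Type} [NormedAddCommGroup H] [InnerProductSpace ℂ H] [CompleteSpace H]

/-- The functional `x ↦ ∑ ⟨ζ n, x (ζ n)⟩`. -/
def nt (ζ : ℕ → H) (x : H →L[ℂ] H) : ℂ := ∑' n, ⟪ζ n, x (ζ n)⟫_ℂ

/-- A summable family of vectors. -/
def Sm (ζ : ℕ → H) : Prop := Summable fun n => ‖ζ n‖ ^ 2

theorem term_le (ζ : ℕ → H) (x : H →L[ℂ] H) (n : ℕ) : ‖⟪ζ n, x (ζ n)⟫_ℂ‖ ≤ ‖x‖ * ‖ζ n‖ ^ 2 := by
  refine (norm_inner_le_norm _ _).trans ?_
  have := x.le_opNorm (ζ n)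
  nlinarith [norm_nonneg (ζ n), norm_nonneg (x (ζ n))]

theorem term_summable {ζ : ℕ → H} (h : Sm ζ) (x : H →L[ℂ] H) :
    Summable fun n => ⟪ζ n, x (ζ n)⟫_ℂ :=
  Summable.of_norm_bounded (h.mul_left ‖x‖) (term_le ζ x)

theorem nt_add {ζ : ℕ → H} (h : Sm ζ) (x y : H →L[ℂ] H) : nt ζ (x + y) = nt ζ x + nt ζ y := by
  unfold nt
  rw [← (term_summable h x).tsum_add (term_summable h y)]
  refine tsum_congr fun n => ?_
  rw [add_apply, inner_add_right]

theorem nt_smul {ζ : ℕ → H} (h : Sm ζ) (c : ℂ) (x : H →L[ℂ] H) : nt ζ (c • x) = c * nt ζ x := by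
  unfold nt
  rw [← tsum_mul_left]
  refine tsum_congr fun n => ?_
  rw [smul_apply, inner_smul_right]

theorem nt_neg {ζ : ℕ → H} (h : Sm ζ) (x : H →L[ℂ] H) : nt ζ (-x) = - nt ζ x := by
  have := nt_smul h (-1) x
  simpa using this

theorem nt_sub {ζ : ℕ → H} (h : Sm ζ) (x y : H →L[ℂ] H) : nt ζ (x - y) = nt ζ x - nt ζ y := by
  rw [sub_eq_add_neg, nt_add h, nt_neg h, ← sub_eq_add_neg]

theorem nt_norm_le {ζ : ℕ → H} (h : Sm ζ) (x : H →L[ℂ] H) :
    ‖nt ζ x‖ ≤ ‖x‖ * ∑' n, ‖ζ n‖ ^ 2 := by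
  unfold nt
  have h1 : Summable fun n => ‖x‖ * ‖ζ n‖ ^ 2 := h.mul_left ‖x‖
  rw [← tsum_mul_left]
  exact tsum_of_norm_bounded h1.hasSum (term_le ζ x)

/-- For positive elements the value is a nonnegative real number. -/
theorem nt_star_mul {ζ : ℕ → H} (h : Sm ζ) (a : H →L[ℂ] H) :
    nt ζ (star a * a) = ((∑' n, ‖a (ζ n)‖ ^ 2 : ℝ) : ℂ) := by
  unfold nt
  rw [Complex.ofReal_tsum]
  refine tsum_congr fun n => ?_
  have : (star a * a) (ζ n) = ContinuousLinearMap.adjoint a (a (ζ n)) := rfl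
  rw [this, ContinuousLinearMap.adjoint_inner_right, inner_self_eq_norm_sq_to_K]
  norm_cast

/-- A normal faithful tracial state. -/
structure IsTr (M : VonNeumannAlgebra H) (ζ : ℕ → H) : Prop where
  sm : HasSum (fun n => ‖ζ n‖ ^ 2) 1
  comm : ∀ a ∈ M, ∀ b ∈ M, nt ζ (a * b) = nt ζ (b * a)
  faithful : ∀ a ∈ M, nt ζ (star a * a) = 0 → a = 0

theorem IsTr.s {M : VonNeumannAlgebra H} {ζ : ℕ → H} (h : IsTr M ζ) : Sm ζ := h.sm.summable

theorem IsTr.one {M : VonNeumannAlgebra H} {ζ : ℕ → H} (h : IsTr M ζ) : nt ζ 1 = 1 := by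
  have h1 := nt_star_mul h.s (1 : H →L[ℂ] H)
  rw [star_one, one_mul] at h1
  rw [h1]
  have h2 : (fun n => ‖(1 : H →L[ℂ] H) (ζ n)‖ ^ 2) = fun n => ‖ζ n‖ ^ 2 := rfl
  rw [h2, h.sm.tsum_eq]
  norm_num

/-- II₁ factors. -/
structure Is21 (M : VonNeumannAlgebra H) (ζ : ℕ → H) : Prop where
  center : ∀ z ∈ M, (∀ a ∈ M, z * a = a * z) → ∃ c : ℂ, z = c • 1
  infinite : ¬ FiniteDimensional ℂ M.toStarSubalgebra
  tr : IsTr M ζ

/-- The trace as a linear functional on `M`. -/
def trL (M : VonNeumannAlgebra H) (ζ : ℕ → H) (h : Sm ζ) : M.toStarSubalgebra →ₗ[ℂ] ℂ where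
  toFun a := nt ζ (a : H →L[ℂ] H)
  map_add' a b := nt_add h _ _
  map_smul' c a := nt_smul h _ _

theorem Is21.toII1 {M : VonNeumannAlgebra H} {ζ : ℕ → H} (h : Is21 M ζ) :
    IsII1 M (trL M ζ h.tr.s) where
  center := h.center
  infinite := h.infinite
  trace :=
    { one := h.tr.one
      pos := fun a => by
        show 0 ≤ nt ζ (star (a : H →L[ℂ] H) * (a : H →L[ℂ] H))
        rw [nt_star_mul h.tr.s]
        exact_mod_cast tsum_nonneg fun n => by positivity
      comm := fun a b => h.tr.comm a a.2 b b.2 }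
  faithful := fun a ha => Subtype.ext (h.tr.faithful a a.2 ha)

theorem nomin : F_nomin.{0} :=
  prove5_nomin prove5_range (prove5_comp prove5_join prove5_polar prove5_chain)

theorem compar : F_comp.{0} := prove5_comp prove5_join prove5_polar prove5_chain

theorem vmu : V_mu := dp_Vmu (dp_Vhalf (dp_Vab dp_Vsupp prove5_polar fin_bin) prove5_chain)

theorem pr_norm_one {p : H →L[ℂ] H} (hp : IsPr p) (h0 : p ≠ 0) : ‖p‖ = 1 := by
  have h1 : ‖p‖ * ‖p‖ = ‖p‖ := by
    rw [← CStarRing.norm_star_mul_self, hp.1, hp.2]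
  exact mul_left_cancel₀ (norm_ne_zero_iff.2 h0) (by rw [h1, mul_one])

theorem noab {M : VonNeumannAlgebra H} {ζ : ℕ → H} (h : Is21 M ζ) : NoAb M 1 := by
  intro e he hep _ hab
  by_contra hne
  obtain ⟨q, hq, hqp, heq, hq0, hqe⟩ := nomin H M _ h.toII1 e he hep hne
  obtain ⟨z, hz, hz1⟩ := hab q hq (1 / 4) (by norm_num)
  obtain ⟨c, rfl⟩ := h.center z hz.1 hz.2
  have hqe' : q * e = q := by
    have := congrArg star heq
    rwa [star_mul, hqp.1, hep.1] at this
  rw [heq, hqe', smul_mul_assoc, one_mul] at hz1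
  have h1 : ‖(1 - c : ℂ)‖ ≤ 1 / 4 := by
    have e1 : (q - c • e) * q = (1 - c) • q := by
      rw [sub_mul, hqp.2, smul_mul_assoc, heq, sub_smul, one_smul]
    have e2 : ‖(q - c • e) * q‖ ≤ 1 / 4 * 1 := (norm_mul_le _ _).trans
      (mul_le_mul hz1 (norm_pr hqp) (norm_nonneg _) (by norm_num))
    rw [e1, norm_smul, pr_norm_one hqp hq0] at e2
    linarith
  have h2 : ‖c‖ ≤ 1 / 4 := by
    have hd : IsPr (e - q) := by
      refine ⟨by rw [star_sub, hep.1, hqp.1], ?_⟩
      rw [mul_sub, sub_mul, sub_mul, hep.2, hqe', heq, hqp.2]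
      abel
    have hd0 : e - q ≠ 0 := fun h0 => hqe (sub_eq_zero.1 h0).symm
    have e1 : (q - c • e) * (e - q) = (-c) • (e - q) := by
      rw [sub_mul, mul_sub, hqe', hqp.2, smul_mul_assoc, mul_sub, hep.2, heq]
      module
    have e2 : ‖(q - c • e) * (e - q)‖ ≤ 1 / 4 * 1 := (norm_mul_le _ _).trans
      (mul_le_mul hz1 (norm_pr hd) (norm_nonneg _) (by norm_num))
    rw [e1, norm_smul, norm_neg, pr_norm_one hd hd0] at e2
    linarith
  have h3 : (1 : ℝ) ≤ ‖(1 - c : ℂ)‖ + ‖c‖ := by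
    calc (1 : ℝ) = ‖((1 - c) + c : ℂ)‖ := by rw [sub_add_cancel, norm_one]
      _ ≤ _ := norm_add_le _ _
  linarith

/-! ### Dimension functions -/

/-- A dimension function on the projections of `M`. -/
structure DimF (M : VonNeumannAlgebra H) (F : (H →L[ℂ] H) → ℝ) : Prop where
  nn : ∀ p ∈ M, IsPr p → 0 ≤ F p
  one : F 1 = 1
  add : ∀ p ∈ M, ∀ q ∈ M, IsPr p → IsPr q → p * q = 0 → F (p + q) = F p + F q
  eqv : ∀ v ∈ M, IsPr (star v * v) → IsPr (v * star v) → F (star v * v) = F (v * star v)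

theorem pr_one : IsPr (1 : H →L[ℂ] H) := ⟨star_one _, one_mul _⟩

theorem pr_zero' : IsPr (0 : H →L[ℂ] H) := ⟨star_zero _, zero_mul _⟩

theorem prAdd {p q : H →L[ℂ] H} (hp : IsPr p) (hq : IsPr q) (h : p * q = 0) :
    IsPr (p + q) := by
  have h' : q * p = 0 := by
    have := congrArg star h
    rwa [star_mul, star_zero, hp.1, hq.1] at this
  refine ⟨by rw [star_add, hp.1, hq.1], ?_⟩
  rw [mul_add, add_mul, add_mul, hp.2, hq.2, h, h']
  abel

theorem prSub {p q : H →L[ℂ] H} (hp : IsPr p) (hq : IsPr q) (h : p * q = q) :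
    IsPr (p - q) := by
  have h' : q * p = q := by
    have := congrArg star h
    rwa [star_mul, hp.1, hq.1] at this
  refine ⟨by rw [star_sub, hp.1, hq.1], ?_⟩
  rw [mul_sub, sub_mul, sub_mul, hp.2, hq.2, h, h']
  abel

theorem DimF.zero {M : VonNeumannAlgebra H} {F : (H →L[ℂ] H) → ℝ} (h : DimF M F) : F 0 = 0 := by
  have := h.add 0 (zero_mem _) 0 (zero_mem _) pr_zero' pr_zero' (mul_zero _)
  rw [add_zero] at this
  linarith

theorem DimF.mono {M : VonNeumannAlgebra H} {F : (H →L[ℂ] H) → ℝ} (h : DimF M F)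
    {p q : H →L[ℂ] H} (hp : p ∈ M) (hq : q ∈ M) (hpp : IsPr p) (hqp : IsPr q) (hle : p * q = q) :
    F p = F (p - q) + F q ∧ F q ≤ F p := by
  have h1 := h.add (p - q) (sub_mem hp hq) q hq (prSub hpp hqp hle) hqp (by
    rw [sub_mul, hle, hqp.2, sub_self])
  rw [sub_add_cancel] at h1
  exact ⟨h1, by linarith [h.nn _ (sub_mem hp hq) (prSub hpp hqp hle)]⟩

theorem DimF.sum {M : VonNeumannAlgebra H} {F : (H →L[ℂ] H) → ℝ} (h : DimF M F) {ι : Type}
    (s : Finset ι) (p : ι → (H →L[ℂ] H)) (hp : ∀ i, p i ∈ M) (hpp : ∀ i, IsPr (p i))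
    (ho : ∀ i j, i ≠ j → p i * p j = 0) :
    (∑ i ∈ s, p i) ∈ M ∧ IsPr (∑ i ∈ s, p i) ∧ F (∑ i ∈ s, p i) = ∑ i ∈ s, F (p i) := by
  classical
  induction s using Finset.induction_on with
  | empty =>
    rw [Finset.sum_empty, Finset.sum_empty]
    exact ⟨zero_mem _, pr_zero', h.zero⟩
  | insert a s ha ih =>
    obtain ⟨h1, h2, h3⟩ := ih
    rw [Finset.sum_insert ha, Finset.sum_insert ha]
    have h0 : p a * ∑ i ∈ s, p i = 0 := by
      rw [Finset.mul_sum]
      exact Finset.sum_eq_zero fun i hi => ho a i fun h => ha (h ▸ hi)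
    refine ⟨add_mem (hp a) h1, prAdd (hpp a) h2 h0, ?_⟩
    rw [h.add _ (hp a) _ h1 (hpp a) h2 h0, h3]

/-- Matrix units with sum one. -/
theorem exists_mu {M : VonNeumannAlgebra H} {ζ : ℕ → H} (h : Is21 M ζ) (k : ℕ) :
    ∃ e : Fin (2 ^ k) → Fin (2 ^ k) → (H →L[ℂ] H), MU M 1 (2 ^ k) e :=
  vmu H M 1 (one_mem _) pr_one (noab h) k

theorem exists_small {M : VonNeumannAlgebra H} {ζ : ℕ → H} (h : Is21 M ζ) (k : ℕ) :
    ∃ e ∈ M, IsPr e ∧ ∀ F : (H →L[ℂ] H) → ℝ, DimF M F → F e = (1 / 2) ^ k := by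
  obtain ⟨e, he⟩ := exists_mu h k
  have hpp : ∀ i, IsPr (e i i) := fun i => ⟨he.adj i i, by rw [he.mul, if_pos rfl]⟩
  refine ⟨e 0 0, he.mem 0 0, hpp 0, fun F hF => ?_⟩
  have h1 := hF.sum Finset.univ (fun i => e i i) (fun i => he.mem i i) hpp (fun i j hij => by
    rw [he.mul, if_neg hij])
  have h2 := h1.2.2
  rw [he.sum, hF.one] at h2
  have h3 : ∀ i, F (e i i) = F (e 0 0) := by
    intro i
    have e1 : star (e i 0) * e i 0 = e 0 0 := by rw [he.adj, he.mul, if_pos rfl]
    have e2 : e i 0 * star (e i 0) = e i i := by rw [he.adj, he.mul, if_pos rfl]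
    have := hF.eqv (e i 0) (he.mem i 0) (by rw [e1]; exact hpp 0) (by rw [e2]; exact hpp i)
    rw [e1, e2] at this
    exact this.symm
  simp only [h3] at h2
  rw [Finset.sum_const, Finset.card_univ, Fintype.card_fin, nsmul_eq_mul] at h2
  push_cast at h2
  have h4 : (2 : ℝ) ^ k ≠ 0 := by positivity
  rw [one_div, inv_pow]
  exact (eq_inv_of_mul_eq_one_right h2.symm)

theorem dim_window {M : VonNeumannAlgebra H} {ζ : ℕ → H} (h : Is21 M ζ) (k : ℕ)
    (g : (H →L[ℂ] H) → ℝ) (hg : DimF M g) :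
    ∀ n : ℕ, ∀ p ∈ M, IsPr p → g p < n * (1 / 2) ^ k → ∃ m : ℕ, ∀ F : (H →L[ℂ] H) → ℝ,
      DimF M F → (m : ℝ) * (1 / 2) ^ k ≤ F p ∧ F p ≤ (m + 1) * (1 / 2) ^ k := by
  obtain ⟨e, he, hep, hval⟩ := exists_small h k
  intro n
  induction n with
  | zero =>
    intro p hp hpp hlt
    have := hg.nn p hp hpp
    simp at hlt
    linarith
  | succ n ih =>
    intro p hp hpp hlt
    obtain ⟨v, hv, ⟨h1, h2⟩ | ⟨h1, h2⟩⟩ := compar H M h.center e he p hp hep hpp
    · -- `e` is equivalent to a subprojection of `p`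
      have hev : v * e = v := by
        have h3 : star (v * e - v) * (v * e - v) = 0 := by
          calc star (v * e - v) * (v * e - v) = e * (star v * v) * e - e * (star v * v) -
                (star v * v) * e + star v * v := by
                rw [star_sub, star_mul, hep.1]; noncomm_ring
            _ = 0 := by rw [h1, hep.2, hep.2]; noncomm_ring
        exact sub_eq_zero.1 ((CStarRing.star_mul_self_eq_zero_iff _).1 h3)
      have hq : IsPr (v * star v) := by
        refine ⟨by rw [star_mul, star_star], ?_⟩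
        calc v * star v * (v * star v) = v * (star v * v) * star v := by noncomm_ring
          _ = v * star v := by rw [h1, hev]
      have hqM : v * star v ∈ M := mul_mem hv (star_mem hv)
      have hle : p * (v * star v) = v * star v := by rw [← mul_assoc, h2]
      have hval' : ∀ F : (H →L[ℂ] H) → ℝ, DimF M F → F (v * star v) = (1 / 2) ^ k := by
        intro F hF
        rw [← hF.eqv v hv (by rw [h1]; exact hep) hq, h1]
        exact hval F hF
      obtain ⟨m, hm⟩ := ih (p - v * star v) (sub_mem hp hqM) (prSub hpp hq hle) (by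
        have := (hg.mono hp hqM hpp hq hle).1
        rw [hval' g hg] at this
        push_cast at hlt
        linarith)
      refine ⟨m + 1, fun F hF => ?_⟩
      obtain ⟨m1, m2⟩ := hm F hF
      have := (hF.mono hp hqM hpp hq hle).1
      rw [hval' F hF] at this
      push_cast
      constructor <;> linarith
    · -- `p` is equivalent to a subprojection of `e`
      have hw : IsPr (star v * v) := by
        refine ⟨by rw [star_mul, star_star], ?_⟩
        have h3 : v * star v * v = v := by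
          have h4 : (v * star v * v - v) * star (v * star v * v - v) = 0 := by
            calc (v * star v * v - v) * star (v * star v * v - v) =
                  (v * star v) * (v * star v) * (v * star v) - (v * star v) * (v * star v) -
                  (v * star v) * (v * star v) + v * star v := by
                  simp only [star_sub, star_mul, star_star]; noncomm_ring
              _ = 0 := by rw [h1, hpp.2, hpp.2]; noncomm_ring
          exact sub_eq_zero.1 ((CStarRing.mul_star_self_eq_zero_iff _).1 h4)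
        calc star v * v * (star v * v) = star v * (v * star v * v) := by noncomm_ring
          _ = star v * v := by rw [h3]
      have hwM : star v * v ∈ M := mul_mem (star_mem hv) hv
      have hle : e * (star v * v) = star v * v := by
        have : e * star v = star v := by
          have := congrArg star h2
          rwa [star_mul, hep.1] at this
        rw [← mul_assoc, this]
      refine ⟨0, fun F hF => ?_⟩
      have h5 := (hF.mono he hwM hep hw hle).2
      rw [hF.eqv v hv hw (by rw [h1]; exact hpp), h1, hval F hF] at h5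
      have h6 := hF.nn p hp hpp
      push_cast
      constructor <;> linarith

/-- Uniqueness of the dimension function. -/
theorem dim_unique {M : VonNeumannAlgebra H} {ζ : ℕ → H} (h : Is21 M ζ)
    (F g : (H →L[ℂ] H) → ℝ) (hF : DimF M F) (hg : DimF M g) (p : H →L[ℂ] H) (hp : p ∈ M)
    (hpp : IsPr p) : F p = g p := by
  have key : ∀ k : ℕ, |F p - g p| ≤ (1 / 2) ^ k := by
    intro k
    have hpos : (0 : ℝ) < (1 / 2) ^ k := by positivity
    obtain ⟨n, hn⟩ := exists_nat_gt (g p / (1 / 2) ^ k)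
    rw [div_lt_iff₀ hpos] at hn
    obtain ⟨m, hm⟩ := dim_window h k g hg n p hp hpp hn
    obtain ⟨a1, a2⟩ := hm F hF
    obtain ⟨b1, b2⟩ := hm g hg
    rw [abs_le]
    constructor <;> nlinarith
  have hlim : Tendsto (fun k : ℕ => (1 / 2 : ℝ) ^ k) atTop (𝓝 0) :=
    tendsto_pow_atTop_nhds_zero_of_lt_one (by norm_num) (by norm_num)
  have h0 : |F p - g p| ≤ 0 := ge_of_tendsto' hlim key
  have := abs_nonneg (F p - g p)
  exact sub_eq_zero.1 (abs_eq_zero.1 (le_antisymm h0 this))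

/-- The trace is a dimension function. -/
theorem IsTr.dimF {M : VonNeumannAlgebra H} {ζ : ℕ → H} (h : IsTr M ζ) :
    DimF M fun x => (nt ζ x).re where
  nn := fun p hp hpp => by
    have h1 := nt_star_mul h.s p
    rw [hpp.1, hpp.2] at h1
    show 0 ≤ (nt ζ p).re
    rw [h1, Complex.ofReal_re]
    exact tsum_nonneg fun n => by positivity
  one := by show (nt ζ 1).re = 1; rw [h.one]; norm_num
  add := fun p hp q hq _ _ _ => by
    show (nt ζ (p + q)).re = _
    rw [nt_add h.s, Complex.add_re]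
  eqv := fun v hv _ _ => by
    show (nt ζ (star v * v)).re = (nt ζ (v * star v)).re
    rw [h.comm _ (star_mem hv) _ hv]

theorem IsTr.real {M : VonNeumannAlgebra H} {ζ : ℕ → H} (h : IsTr M ζ) {p : H →L[ℂ] H}
    (hp : IsPr p) : nt ζ p = ((nt ζ p).re : ℂ) := by
  have h1 := nt_star_mul h.s p
  rw [hp.1, hp.2] at h1
  rw [h1, Complex.ofReal_re]

end Pool.Agent.Q171.KK
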