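import Mathlib
import Pool.Agent.Q171.KK.Ex

/-!
# Traces of near II₁ factors agree on common elements
-/

set_option autoImplicit false
set_option linter.unusedSectionVars false
set_option linter.unusedVariables false

open Filter Topology
open scoped InnerProductSpace ComplexConjugate ComplexOrder

noncomputable section

namespace Pool.Agent.Q171.KK

open H759R2.Kad H710R2.DP

variable {H : Type} [NormedAddCommGroup H] [InnerProductSpace ℂ H] [CompleteSpace H]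

/-- The self-adjoint part. -/
theorem sa_near (N : VonNeumannAlgebra H) (p b : H →L[ℂ] H) (hp : IsSelfAdjoint p) (hb : b ∈ N)
    (ε : ℝ) (h : ‖p - b‖ ≤ ε) : ∃ b' ∈ N, IsSelfAdjoint b' ∧ ‖b' - p‖ ≤ ε := by
  refine ⟨(1 / 2 : ℂ) • (b + star b), vn_smul _ (add_mem hb (star_mem hb)), ?_, ?_⟩
  · show star ((1 / 2 : ℂ) • (b + star b)) = _
    rw [star_smul, star_add, star_star, add_comm (star b) b]
    congr 1
    simp
  · have e1 : (1 / 2 : ℂ) • (b + star b) - p = (1 / 2 : ℂ) • ((b - p) + star (b - p)) := by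
      rw [star_sub, hp.star_eq]
      module
    rw [e1, norm_smul]
    have h1 : ‖(b - p) + star (b - p)‖ ≤ ε + ε := by
      refine (norm_add_le _ _).trans (add_le_add ?_ ?_)
      · rw [norm_sub_rev]; exact h
      · rw [norm_star, norm_sub_rev]; exact h
    have h2 : ‖(1 / 2 : ℂ)‖ = 1 / 2 := by norm_num
    rw [h2]
    linarith

theorem near_pr_mem (N : VonNeumannAlgebra H) (p b : H →L[ℂ] H) (hp : IsPr p) (hb : b ∈ N)
    (ε : ℝ) (hε : ε ≤ 1 / 32) (h : ‖p - b‖ ≤ ε) : ∃ q ∈ N, IsPr q ∧ ‖p - q‖ ≤ 9 * ε := by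
  obtain ⟨b', hb', hsa, hn⟩ := sa_near N p b hp.1 hb ε h
  obtain ⟨q, hq, hqb, hqc⟩ := near_proj b' p hsa hp ε hε hn
  refine ⟨q, mem_of_comm N q fun y hy => hqc y (hy b' hb').symm, hq, ?_⟩
  calc ‖p - q‖ = ‖(b' - p) + (q - b')‖ := by rw [norm_sub_rev]; congr 1; abel
    _ ≤ ε + 8 * ε := (norm_add_le _ _).trans (add_le_add hn hqb)
    _ = 9 * ε := by ring

/-- Splitting a near projection. -/
theorem split_near (N : VonNeumannAlgebra H) (p₁ p₂ q b : H →L[ℂ] H) (h₁ : IsPr p₁)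
    (h₂ : IsPr p₂) (h₁₂ : p₁ * p₂ = 0) (hq : q ∈ N) (hqp : IsPr q) (hb : b ∈ N) (ε : ℝ)
    (hε : ε ≤ 1 / 18000) (hpq : ‖p₁ + p₂ - q‖ ≤ 9 * ε) (hbp : ‖p₁ - b‖ ≤ ε) :
    ∃ q₁ ∈ N, ∃ q₂ ∈ N, IsPr q₁ ∧ IsPr q₂ ∧ q₁ * q₂ = 0 ∧ q₁ + q₂ = q ∧
      ‖p₁ - q₁‖ ≤ 1 / 100 ∧ ‖p₂ - q₂‖ ≤ 1 / 100 := by
  have hε0 : 0 ≤ ε := (norm_nonneg _).trans hbp
  obtain ⟨b', hb', hsa, hn⟩ := sa_near N p₁ b h₁.1 hb ε hbp
  have h₂₁ : p₂ * p₁ = 0 := by
    have := congrArg star h₁₂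
    rwa [star_mul, star_zero, h₁.1, h₂.1] at this
  set p := p₁ + p₂ with hp
  have hpp : IsPr p := prAdd h₁ h₂ h₁₂
  have hpp₁ : p * p₁ = p₁ := by rw [hp, add_mul, h₁.2, h₂₁, add_zero]
  have hp₁p : p₁ * p = p₁ := by rw [hp, mul_add, h₁.2, h₁₂, add_zero]
  set c := q * b' * q with hc
  have hcN : c ∈ N := mul_mem (mul_mem hq hb') hq
  have hcsa : IsSelfAdjoint c := by
    show star c = c
    rw [hc, star_mul, star_mul, hsa.star_eq, hqp.1]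
    noncomm_ring
  have hqn := norm_pr hqp
  have hcn : ‖c - p₁‖ ≤ 19 * ε := by
    have e1 : c - p₁ = q * (b' - p₁) * q + ((q - p) * p₁ * q + p₁ * (q - p)) := by
      have e2 : p₁ = p₁ * p := hp₁p.symm
      have e3 : p * p₁ * q = p₁ * q := by rw [hpp₁]
      calc c - p₁ = q * b' * q - q * p₁ * q + ((q * p₁ * q - p * p₁ * q) +
            (p * p₁ * q - p₁)) := by rw [hc]; abel
        _ = q * b' * q - q * p₁ * q + ((q * p₁ * q - p * p₁ * q) + (p₁ * q - p₁ * p)) := by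
            rw [e3, hp₁p]
        _ = _ := by noncomm_ring
    rw [e1]
    have t1 : ‖q * (b' - p₁) * q‖ ≤ 1 * ε * 1 := by
      refine (norm_mul_le _ _).trans (mul_le_mul ((norm_mul_le _ _).trans
        (mul_le_mul hqn hn (norm_nonneg _) (by norm_num))) hqn (norm_nonneg _) (by linarith))
    have hqp' : ‖q - p‖ ≤ 9 * ε := by rw [norm_sub_rev]; exact hpq
    have t2 : ‖(q - p) * p₁ * q‖ ≤ 9 * ε * 1 * 1 := by
      refine (norm_mul_le _ _).trans (mul_le_mul ((norm_mul_le _ _).trans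
        (mul_le_mul hqp' (norm_pr h₁) (norm_nonneg _) (by linarith))) hqn (norm_nonneg _)
          (by linarith))
    have t3 : ‖p₁ * (q - p)‖ ≤ 1 * (9 * ε) := (norm_mul_le _ _).trans
      (mul_le_mul (norm_pr h₁) hqp' (norm_nonneg _) (by norm_num))
    calc _ ≤ ‖q * (b' - p₁) * q‖ + ‖(q - p) * p₁ * q + p₁ * (q - p)‖ := norm_add_le _ _
      _ ≤ ‖q * (b' - p₁) * q‖ + (‖(q - p) * p₁ * q‖ + ‖p₁ * (q - p)‖) :=
          add_le_add_right (norm_add_le _ _) _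
      _ ≤ 19 * ε := by linarith
  obtain ⟨q₁, hq₁, hq₁c, hcomm⟩ := near_proj c p₁ hcsa h₁ (19 * ε) (by linarith) hcn
  have hq₁N : q₁ ∈ N := mem_of_comm N q₁ fun y hy => hcomm y (hy c hcN).symm
  have hqc : q * c = c := by rw [hc, ← mul_assoc, ← mul_assoc, hqp.2]
  have hcq : c * q = c := by rw [hc, mul_assoc, hqp.2]
  have hqq₁ : q * q₁ = q₁ * q := hcomm q (by rw [hqc, hcq])
  have hz : (1 - q) * q₁ = 0 := by
    refine pr_zero ⟨?_, ?_⟩ ?_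
    · rw [star_mul, star_sub, star_one, hqp.1, hq₁.1, mul_sub, sub_mul, mul_one, one_mul, hqq₁]
    · calc (1 - q) * q₁ * ((1 - q) * q₁) = q₁ * q₁ - q₁ * (q * q₁) - q * (q₁ * q₁) +
            (q * q₁) * (q * q₁) := by noncomm_ring
        _ = q₁ - q * q₁ := by
            have e1 : q₁ * (q * q₁) = q * q₁ := by rw [hqq₁, ← mul_assoc, hq₁.2]
            have e2 : q * q₁ * (q * q₁) = q * q₁ := by
              calc q * q₁ * (q * q₁) = q * (q₁ * (q * q₁)) := by noncomm_ring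
                _ = q * (q * q₁) := by rw [e1]
                _ = q * q₁ := by rw [← mul_assoc, hqp.2]
            rw [e1, e2, hq₁.2]
            abel
        _ = (1 - q) * q₁ := by noncomm_ring
    · have e1 : (1 - q) * q₁ = (1 - q) * (q₁ - c) := by
        have : (1 - q) * c = 0 := by rw [sub_mul, one_mul, hqc, sub_self]
        rw [mul_sub, this, sub_zero]
      rw [e1]
      have := (norm_mul_le (1 - q) (q₁ - c)).trans
        (mul_le_mul (norm_pr (prCompl hqp)) hq₁c (norm_nonneg _) (by norm_num))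
      linarith
  have hqq₁' : q * q₁ = q₁ := by
    rw [sub_mul, one_mul] at hz
    exact (sub_eq_zero.1 hz).symm
  have hd₁ : ‖p₁ - q₁‖ ≤ 171 * ε := by
    calc ‖p₁ - q₁‖ = ‖(c - p₁) + (q₁ - c)‖ := by rw [norm_sub_rev]; congr 1; abel
      _ ≤ 19 * ε + 8 * (19 * ε) := (norm_add_le _ _).trans (add_le_add hcn hq₁c)
      _ = 171 * ε := by ring
  refine ⟨q₁, hq₁N, q - q₁, sub_mem hq hq₁N, hq₁, prSub hqp hq₁ hqq₁', ?_, by abel, ?_, ?_⟩
  · rw [mul_sub, hq₁.2, ← hqq₁, hqq₁', sub_self]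
  · linarith
  · have e1 : p₂ - (q - q₁) = (p - q) - (p₁ - q₁) := by rw [hp]; abel
    rw [e1]
    refine (norm_sub_le _ _).trans ?_
    linarith

section two

variable {M N : VonNeumannAlgebra H} {ζ ζ' : ℕ → H}

theorem val_eq (hN : IsTr N ζ') (hni : NI (M : Set (H →L[ℂ] H)) N (1 / 100))
    (v q₁ q₂ : H →L[ℂ] H) (hv : v ∈ M) (hv1 : IsPr (star v * v)) (hv2 : IsPr (v * star v))
    (hq₁ : q₁ ∈ N) (hq₂ : q₂ ∈ N) (h₁ : IsPr q₁) (h₂ : IsPr q₂)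
    (hn₁ : ‖star v * v - q₁‖ ≤ 1 / 100) (hn₂ : ‖v * star v - q₂‖ ≤ 1 / 100) :
    nt ζ' q₁ = nt ζ' q₂ := by
  obtain ⟨x, hx, hxv⟩ := hni v hv (norm_of_PI hv1)
  obtain ⟨u, hu, hu1, hu2⟩ := near_equiv N q₁ q₂ v x hq₁ hq₂ h₁ h₂ hv1 hv2 hx (1 / 100) le_rfl
    (by rw [norm_sub_rev]; exact hxv) hn₁ hn₂
  rw [← hu1, ← hu2]
  exact hN.comm _ (star_mem hu) _ hu

open Classical in
/-- The dimension function of `M` from the trace of `N`. -/
def Fd (N : VonNeumannAlgebra H) (ζ' : ℕ → H) (p : H →L[ℂ] H) : ℝ :=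
  if h : ∃ q ∈ N, IsPr q ∧ ‖p - q‖ ≤ 1 / 100 then (nt ζ' (Classical.choose h)).re else 0

theorem Fd_eq (hN : IsTr N ζ') (hni : NI (M : Set (H →L[ℂ] H)) N (1 / 100)) {p q : H →L[ℂ] H}
    (hp : p ∈ M) (hpp : IsPr p) (hq : q ∈ N) (hqp : IsPr q) (hn : ‖p - q‖ ≤ 1 / 100) :
    Fd N ζ' p = (nt ζ' q).re := by
  have h : ∃ q ∈ N, IsPr q ∧ ‖p - q‖ ≤ 1 / 100 := ⟨q, hq, hqp, hn⟩
  unfold Fd
  rw [dif_pos h]
  obtain ⟨h1, h2, h3⟩ := Classical.choose_spec h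
  have e1 : star p * p = p := by rw [hpp.1, hpp.2]
  have e2 : p * star p = p := by rw [hpp.1, hpp.2]
  rw [val_eq hN hni p _ q hp (by rw [e1]; exact hpp) (by rw [e2]; exact hpp) h1 hq h2 hqp
    (by rw [e1]; exact h3) (by rw [e2]; exact hn)]

theorem Fd_dim (hN : IsTr N ζ') (ε : ℝ) (hε : ε ≤ 1 / 18000)
    (hni : NI (M : Set (H →L[ℂ] H)) N ε) : DimF M (Fd N ζ') := by
  have hni' : NI (M : Set (H →L[ℂ] H)) N (1 / 100) := hni.mono (by linarith)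
  have hex : ∀ p ∈ M, IsPr p → ∃ q ∈ N, IsPr q ∧ ‖p - q‖ ≤ 9 * ε := by
    intro p hp hpp
    obtain ⟨b, hb, hbn⟩ := hni p hp (norm_pr hpp)
    exact near_pr_mem N p b hpp hb ε (by linarith) hbn
  refine ⟨?_, ?_, ?_, ?_⟩
  · intro p hp hpp
    obtain ⟨q, hq, hqp, hn⟩ := hex p hp hpp
    rw [Fd_eq hN hni' hp hpp hq hqp (by linarith)]
    exact hN.dimF.nn q hq hqp
  · rw [Fd_eq hN hni' (one_mem M) pr_one (one_mem N) pr_one (by rw [sub_self, norm_zero]; norm_num)]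
    exact hN.dimF.one
  · intro p₁ hp₁ p₂ hp₂ h₁ h₂ h₁₂
    have hp := prAdd h₁ h₂ h₁₂
    obtain ⟨q, hq, hqp, hn⟩ := hex _ (add_mem hp₁ hp₂) hp
    obtain ⟨b, hb, hbn⟩ := hni p₁ hp₁ (norm_pr h₁)
    obtain ⟨q₁, hq₁, q₂, hq₂, k₁, k₂, k₁₂, hs, n₁, n₂⟩ :=
      split_near N p₁ p₂ q b h₁ h₂ h₁₂ hq hqp hb ε hε hn hbn
    rw [Fd_eq hN hni' (add_mem hp₁ hp₂) hp hq hqp (by linarith), Fd_eq hN hni' hp₁ h₁ hq₁ k₁ n₁,
      Fd_eq hN hni' hp₂ h₂ hq₂ k₂ n₂, ← hs]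
    exact hN.dimF.add q₁ hq₁ q₂ hq₂ k₁ k₂ k₁₂
  · intro v hv h₁ h₂
    obtain ⟨q₁, hq₁, k₁, n₁⟩ := hex _ (mul_mem (star_mem hv) hv) h₁
    obtain ⟨q₂, hq₂, k₂, n₂⟩ := hex _ (mul_mem hv (star_mem hv)) h₂
    rw [Fd_eq hN hni' (mul_mem (star_mem hv) hv) h₁ hq₁ k₁ (by linarith),
      Fd_eq hN hni' (mul_mem hv (star_mem hv)) h₂ hq₂ k₂ (by linarith),
      val_eq hN hni' v q₁ q₂ hv h₁ h₂ hq₁ hq₂ k₁ k₂ (by linarith) (by linarith)]

/-- **Exactness on common projections.** -/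
theorem exact_pr (hM : Is21 M ζ) (hN : IsTr N ζ') (ε : ℝ) (hε : ε ≤ 1 / 18000)
    (hni : NI (M : Set (H →L[ℂ] H)) N ε) (p : H →L[ℂ] H) (hp : p ∈ M) (hp' : p ∈ N)
    (hpp : IsPr p) : nt ζ p = nt ζ' p := by
  have h1 := dim_unique hM _ _ (Fd_dim hN ε hε hni) hM.tr.dimF p hp hpp
  rw [Fd_eq hN (hni.mono (by linarith)) hp hpp hp' hpp (by rw [sub_self, norm_zero]; norm_num)]
    at h1
  rw [hM.tr.real hpp, hN.real hpp, h1]

/-- **Exactness on a common commutative algebra.** -/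
theorem exact_cmt (hM : Is21 M ζ) (hN : IsTr N ζ') (ε : ℝ) (hε : ε ≤ 1 / 18000)
    (hni : NI (M : Set (H →L[ℂ] H)) N ε) (A : VonNeumannAlgebra H) (hA : Cmt A)
    (hAM : ∀ a ∈ A, a ∈ M) (hAN : ∀ a ∈ A, a ∈ N) (x : H →L[ℂ] H) (hx : x ∈ A) :
    nt ζ x = nt ζ' x := by
  have hz : IsCen A x := ⟨hx, fun a ha => hA x hx a ha⟩
  have key : ∀ δ : ℝ, 0 < δ → ‖nt ζ x - nt ζ' x‖ ≤ 2 * δ := by
    intro δ hδ
    obtain ⟨n, c, p, hp, hn⟩ := dp_span fin_bin H A x hz δ hδ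
    have hlin : ∀ {ξ : ℕ → H}, Sm ξ → nt ξ (∑ k, c k • p k) = ∑ k, c k * nt ξ (p k) := by
      intro ξ hξ
      let L : (H →L[ℂ] H) →ₗ[ℂ] ℂ :=
        { toFun := nt ξ
          map_add' := nt_add hξ
          map_smul' := nt_smul hξ }
      have : nt ξ (∑ k, c k • p k) = L (∑ k, c k • p k) := rfl
      rw [this, map_sum]
      exact Finset.sum_congr rfl fun k _ => nt_smul hξ _ _
    have h1 : nt ζ (∑ k, c k • p k) = nt ζ' (∑ k, c k • p k) := by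
      rw [hlin hM.tr.s, hlin hN.s]
      refine Finset.sum_congr rfl fun k _ => ?_
      rw [exact_pr hM hN ε hε hni (p k) (hAM _ (hp k).2.1) (hAN _ (hp k).2.1) (hp k).1]
    have h2 : nt ζ x - nt ζ' x = nt ζ (x - ∑ k, c k • p k) - nt ζ' (x - ∑ k, c k • p k) := by
      rw [nt_sub hM.tr.s, nt_sub hN.s, h1]
      ring
    rw [h2]
    have h3 := nt_norm_le hM.tr.s (x - ∑ k, c k • p k)
    have h4 := nt_norm_le hN.s (x - ∑ k, c k • p k)
    rw [hM.tr.sm.tsum_eq, mul_one] at h3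
    rw [hN.sm.tsum_eq, mul_one] at h4
    calc _ ≤ ‖nt ζ (x - ∑ k, c k • p k)‖ + ‖nt ζ' (x - ∑ k, c k • p k)‖ := norm_sub_le _ _
      _ ≤ 2 * δ := by linarith
  have h0 : ‖nt ζ x - nt ζ' x‖ ≤ 0 := by
    refine le_of_forall_pos_le_add fun δ hδ => ?_
    have := key (δ / 2) (by linarith)
    linarith
  exact sub_eq_zero.1 (norm_le_zero_iff.1 h0)

end two

end Pool.Agent.Q171.KK
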