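import Mathlib
import Pool.Agent.Q171.KK.Ex2

/-!
# Cyclic subspaces
-/

set_option autoImplicit false
set_option linter.unusedSectionVars false
set_option linter.unusedVariables false

open Filter Topology
open scoped InnerProductSpace ComplexConjugate ComplexOrder

noncomputable section

namespace Pool.Agent.Q171.KK

open H759R2.Kad H710R2.DP

variable {H : Type} [NormedAddCommGroup H] [InnerProductSpace ℂ H] [CompleteSpace H]

theorem inner_star_left (T : H →L[ℂ] H) (v w : H) : ⟪star T v, w⟫_ℂ = ⟪v, T w⟫_ℂ :=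
  ContinuousLinearMap.adjoint_inner_left T w v

theorem inner_star_right (T : H →L[ℂ] H) (v w : H) : ⟪v, star T w⟫_ℂ = ⟪T v, w⟫_ℂ :=
  ContinuousLinearMap.adjoint_inner_right T v w

theorem pr_inner {p : H →L[ℂ] H} (hp : IsPr p) (v w : H) : ⟪p v, w⟫_ℂ = ⟪v, p w⟫_ℂ := by
  rw [← inner_star_right, hp.1]

theorem pr_app {p : H →L[ℂ] H} (hp : IsPr p) (v : H) : p (p v) = p v := by
  have := hp.2
  exact congrArg (fun T : H →L[ℂ] H => T v) this

/-- Evaluation. -/
def ev (ξ : H) : (H →L[ℂ] H) →ₗ[ℂ] H where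
  toFun T := T ξ
  map_add' _ _ := rfl
  map_smul' _ _ := rfl

/-- The subspace `M ξ`. -/
def orb (M : VonNeumannAlgebra H) (ξ : H) : Submodule ℂ H := (sub M).map (ev ξ)

theorem mem_orb {M : VonNeumannAlgebra H} {ξ v : H} : v ∈ orb M ξ ↔ ∃ x ∈ M, x ξ = v := by
  unfold orb
  rw [Submodule.mem_map]
  rfl

/-- Its closure. -/
def cyc (M : VonNeumannAlgebra H) (ξ : H) : Submodule ℂ H := (orb M ξ).topologicalClosure

instance cyc_complete (M : VonNeumannAlgebra H) (ξ : H) : CompleteSpace (cyc M ξ) :=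
  (Submodule.isClosed_topologicalClosure (orb M ξ)).completeSpace_coe

/-- The projection on it. -/
def cp (M : VonNeumannAlgebra H) (ξ : H) : H →L[ℂ] H := (cyc M ξ).starProjection

variable {M : VonNeumannAlgebra H} {ξ : H}

theorem cp_pr : IsPr (cp M ξ) := by
  have h := isStarProjection_starProjection (U := cyc M ξ)
  exact ⟨h.isSelfAdjoint, h.isIdempotentElem⟩

theorem orb_le : orb M ξ ≤ cyc M ξ := Submodule.le_topologicalClosure _

theorem cp_iff {v : H} : cp M ξ v = v ↔ v ∈ cyc M ξ := Submodule.starProjection_eq_self_iff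

theorem mem_cyc_self : ξ ∈ cyc M ξ := orb_le (mem_orb.2 ⟨1, one_mem M, rfl⟩)

theorem cp_self : cp M ξ ξ = ξ := cp_iff.2 mem_cyc_self

theorem cp_orb {x : H →L[ℂ] H} (hx : x ∈ M) : cp M ξ (x ξ) = x ξ :=
  cp_iff.2 (orb_le (mem_orb.2 ⟨x, hx, rfl⟩))

theorem cp_mem (v : H) : cp M ξ v ∈ cyc M ξ := Submodule.starProjection_apply_mem _ v

/-- Two operators which agree on the orbit agree on the cyclic space. -/
theorem eq_on_cyc (S T : H →L[ℂ] H) (h : ∀ x ∈ M, S (x ξ) = T (x ξ)) {v : H}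
    (hv : v ∈ cyc M ξ) : S v = T v := by
  have hv' : v ∈ closure (orb M ξ : Set H) := by
    rw [← Submodule.topologicalClosure_coe]; exact hv
  refine closure_minimal (s := (orb M ξ : Set H)) (t := {v | S v = T v}) ?_
    (isClosed_eq S.continuous T.continuous) hv'
  intro w hw
  obtain ⟨x, hx, rfl⟩ := mem_orb.1 hw
  exact h x hx

theorem eq_mul_cp (S T : H →L[ℂ] H) (h : ∀ x ∈ M, S (x ξ) = T (x ξ)) :
    S * cp M ξ = T * cp M ξ := by
  ext v
  exact eq_on_cyc S T h (cp_mem v)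

/-- Invariance. -/
theorem cyc_inv {a : H →L[ℂ] H} (ha : ∀ x ∈ M, a (x ξ) ∈ cyc M ξ) {v : H} (hv : v ∈ cyc M ξ) :
    a v ∈ cyc M ξ := by
  have hv' : v ∈ closure (orb M ξ : Set H) := by
    rw [← Submodule.topologicalClosure_coe]; exact hv
  refine closure_minimal (s := (orb M ξ : Set H)) (t := a ⁻¹' (cyc M ξ : Set H)) ?_
    ((Submodule.isClosed_topologicalClosure (orb M ξ)).preimage a.continuous) hv'
  intro w hw
  obtain ⟨x, hx, rfl⟩ := mem_orb.1 hw
  exact ha x hx

/-- Operators leaving the cyclic space invariant together with the adjoint. -/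
theorem comm_cp (a : H →L[ℂ] H) (h1 : ∀ x ∈ M, a (x ξ) ∈ cyc M ξ)
    (h2 : ∀ x ∈ M, star a (x ξ) ∈ cyc M ξ) : a * cp M ξ = cp M ξ * a := by
  have e1 : cp M ξ * a * cp M ξ = a * cp M ξ := by
    ext v
    exact cp_iff.2 (cyc_inv h1 (cp_mem v))
  have e2 : cp M ξ * star a * cp M ξ = star a * cp M ξ := by
    ext v
    exact cp_iff.2 (cyc_inv h2 (cp_mem v))
  have e3 := congrArg star e2
  rw [star_mul, star_mul, star_mul, star_star, cp_pr.1] at e3
  rw [← e3, ← mul_assoc, e1]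

theorem cp_cm : cp M ξ ∈ cm M := by
  refine mem_cm.2 fun a ha => comm_cp a ?_ ?_
  · intro x hx
    exact orb_le (mem_orb.2 ⟨a * x, mul_mem ha hx, rfl⟩)
  · intro x hx
    exact orb_le (mem_orb.2 ⟨star a * x, mul_mem (star_mem ha) hx, rfl⟩)

/-- An operator commuting with `M` and fixing the vector fixes the cyclic space. -/
theorem mul_cp {e : H →L[ℂ] H} (he : e ∈ cm M) (h : e ξ = ξ) : e * cp M ξ = cp M ξ := by
  have := eq_mul_cp (M := M) (ξ := ξ) e 1 fun x hx => by
    have h1 := mem_cm.1 he x hx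
    calc e (x ξ) = (e * x) ξ := rfl
      _ = (x * e) ξ := by rw [h1]
      _ = x ξ := by show x (e ξ) = x ξ; rw [h]
  rw [this, one_mul]

/-- Elements of the commutant are determined by the value at the vector. -/
theorem cm_ext {S T : H →L[ℂ] H} (hS : S ∈ cm M) (hT : T ∈ cm M) (h : S ξ = T ξ)
    (h1 : S * cp M ξ = S) (h2 : T * cp M ξ = T) : S = T := by
  rw [← h1, ← h2]
  refine eq_mul_cp S T fun x hx => ?_
  calc S (x ξ) = (S * x) ξ := rfl
    _ = x (S ξ) := by rw [← mem_cm.1 hS x hx]; rfl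
    _ = x (T ξ) := by rw [h]
    _ = (T * x) ξ := by rw [← mem_cm.1 hT x hx]; rfl

theorem cp_unique {P : H →L[ℂ] H} (hP : IsPr P) (hPM : P ∈ cm M) (h : P ξ = ξ)
    (hmax : ∀ v, P v = v → (∀ x ∈ M, ⟪x ξ, v⟫_ℂ = 0) → v = 0) : P = cp M ξ := by
  have e1 : P * cp M ξ = cp M ξ := mul_cp hPM h
  have e2 : cp M ξ * P = cp M ξ := by
    have := congrArg star e1
    rwa [star_mul, hP.1, cp_pr.1] at this
  ext w
  have hv : (P - cp M ξ) w = 0 := by
    refine hmax _ ?_ ?_
    · show P (P w - cp M ξ w) = P w - cp M ξ w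
      rw [map_sub, pr_app hP]
      have : P (cp M ξ w) = cp M ξ w := congrArg (fun T : H →L[ℂ] H => T w) e1
      rw [this]
    · intro x hx
      have h3 : cp M ξ (x ξ) = x ξ := cp_orb hx
      rw [← h3, pr_inner cp_pr]
      have h4 : cp M ξ ((P - cp M ξ) w) = 0 := by
        show cp M ξ (P w - cp M ξ w) = 0
        rw [map_sub, pr_app cp_pr]
        have : cp M ξ (P w) = cp M ξ w := congrArg (fun T : H →L[ℂ] H => T w) e2
        rw [this, sub_self]
      rw [h4, inner_zero_right]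
  exact sub_eq_zero.1 hv

theorem cp_zero_iff {v : H} : cp M ξ v = 0 ↔ ∀ x ∈ M, ⟪x ξ, v⟫_ℂ = 0 := by
  constructor
  · intro h x hx
    have h3 : cp M ξ (x ξ) = x ξ := cp_orb hx
    rw [← h3, pr_inner cp_pr, h, inner_zero_right]
  · intro h
    unfold cp
    rw [Submodule.starProjection_apply_eq_zero_iff, Submodule.mem_orthogonal]
    intro u hu
    have hu' : u ∈ closure (orb M ξ : Set H) := by
      rw [← Submodule.topologicalClosure_coe]; exact hu
    refine closure_minimal (s := (orb M ξ : Set H)) (t := {u | ⟪u, v⟫_ℂ = 0}) ?_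
      (isClosed_eq (by fun_prop) continuous_const) hu'
    intro w hw
    obtain ⟨x, hx, rfl⟩ := mem_orb.1 hw
    exact h x hx

/-- **Extension of intertwiners.** -/
theorem exists_cm (η : H) (C : ℝ) (hC : 0 ≤ C) (h : ∀ x ∈ M, ‖x η‖ ≤ C * ‖x ξ‖) :
    ∃ R ∈ cm M, R ξ = η ∧ ‖R‖ ≤ C ∧ R * cp M ξ = R := by
  let f : sub M →ₗ[ℂ] H := (ev η).comp (sub M).subtype
  let e : sub M →ₗ[ℂ] cyc M ξ :=
    { toFun := fun x => ⟨(x : H →L[ℂ] H) ξ, orb_le (mem_orb.2 ⟨x, x.2, rfl⟩)⟩
      map_add' := fun x y => Subtype.ext rfl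
      map_smul' := fun c x => Subtype.ext rfl }
  have hd : DenseRange e := by
    intro v
    rw [closure_subtype]
    have hv := v.2
    have hv' : (v : H) ∈ closure (orb M ξ : Set H) := by
      rw [← Submodule.topologicalClosure_coe]; exact hv
    refine closure_mono ?_ hv'
    intro w hw
    obtain ⟨x, hx, rfl⟩ := mem_orb.1 hw
    exact ⟨e ⟨x, hx⟩, ⟨⟨x, hx⟩, rfl⟩, rfl⟩
  have hn : ∀ x, ‖f x‖ ≤ C * ‖e x‖ := fun x => h x x.2
  let g : cyc M ξ →L[ℂ] H := f.extendOfNorm e
  have hg : ∀ x : sub M, g (e x) = f x := fun x => LinearMap.extendOfNorm_eq hd ⟨C, hn⟩ x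
  have hgn : ∀ v, ‖g v‖ ≤ C * ‖v‖ := fun v => LinearMap.norm_extendOfNorm_apply_le hd C hn v
  let P : H →L[ℂ] cyc M ξ := (cyc M ξ).orthogonalProjectionOnto
  let R : H →L[ℂ] H := g.comp P
  have hP : ∀ v : cyc M ξ, P v = v := fun v =>
    Submodule.orthogonalProjectionOnto_mem_subspace_eq_self v
  have hRx : ∀ x ∈ M, R (x ξ) = x η := by
    intro x hx
    show g (P (x ξ)) = x η
    have h1 := hP (e ⟨x, hx⟩)
    have h2 := hg ⟨x, hx⟩
    have h3 : ((e ⟨x, hx⟩ : cyc M ξ) : H) = x ξ := rfl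
    rw [h3] at h1
    rw [h1, h2]
    rfl
  have hRcp : R * cp M ξ = R := by
    ext v
    show g (P ((P v : cyc M ξ) : H)) = g (P v)
    rw [hP]
  refine ⟨R, ?_, ?_, ?_, hRcp⟩
  · refine mem_cm.2 fun a ha => ?_
    have h1 : (a * R) * cp M ξ = (R * a) * cp M ξ := by
      refine eq_mul_cp _ _ fun x hx => ?_
      show a (R (x ξ)) = R (a (x ξ))
      rw [hRx x hx]
      exact (hRx (a * x) (mul_mem ha hx)).symm
    have h2 := mem_cm.1 (cp_cm (M := M) (ξ := ξ)) a ha
    calc a * R = (a * R) * cp M ξ := by rw [mul_assoc, hRcp]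
      _ = (R * a) * cp M ξ := h1
      _ = R * (a * cp M ξ) := by rw [mul_assoc]
      _ = (R * cp M ξ) * a := by rw [h2, mul_assoc]
      _ = R * a := by rw [hRcp]
  · have := hRx 1 (one_mem M)
    exact this
  · refine ContinuousLinearMap.opNorm_le_bound _ hC fun v => ?_
    refine (hgn (P v)).trans ?_
    refine mul_le_mul_of_nonneg_left ?_ hC
    exact Submodule.norm_orthogonalProjectionOnto_apply_le _ v

/-! ### Conjugation -/

/-- The algebra `u* N u`. -/
def conjN (N : VonNeumannAlgebra H) (u : H →L[ℂ] H) : VonNeumannAlgebra H :=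
  vnC {x | ∃ z ∈ cm N, x = star u * z * u}

theorem un_cancel {u : H →L[ℂ] H} (hu : IsUn u) {a b : H →L[ℂ] H}
    (h : u * a * star u = u * b * star u) : a = b := by
  calc a = (star u * u) * a * (star u * u) := by rw [hu.1, one_mul, mul_one]
    _ = star u * (u * a * star u) * u := by noncomm_ring
    _ = (star u * u) * b * (star u * u) := by rw [h]; noncomm_ring
    _ = b := by rw [hu.1, one_mul, mul_one]

theorem conj_back {u : H →L[ℂ] H} (hu : IsUn u) (z : H →L[ℂ] H) :
    u * (star u * z * u) * star u = z := by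
  calc u * (star u * z * u) * star u = (u * star u) * z * (u * star u) := by noncomm_ring
    _ = z := by rw [hu.2, one_mul, mul_one]

theorem conj_mul {u : H →L[ℂ] H} (hu : IsUn u) (a b : H →L[ℂ] H) :
    u * (a * b) * star u = (u * a * star u) * (u * b * star u) := by
  calc u * (a * b) * star u = u * a * 1 * b * star u := by noncomm_ring
    _ = _ := by rw [← hu.1]; noncomm_ring

theorem mem_conjN {N : VonNeumannAlgebra H} {u : H →L[ℂ] H} (hu : IsUn u) {y : H →L[ℂ] H} :
    y ∈ conjN N u ↔ u * y * star u ∈ N := by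
  unfold conjN
  rw [mem_vnC']
  · constructor
    · intro h
      refine mem_iff_cm.2 fun z hz => ?_
      have h1 := h _ ⟨z, hz, rfl⟩
      have h2 := congrArg (fun T => u * T * star u) h1
      rw [conj_mul hu _ y, conj_mul hu y, conj_back hu] at h2
      exact h2
    · rintro h x ⟨z, hz, rfl⟩
      refine un_cancel hu ?_
      rw [conj_mul hu _ y, conj_mul hu y, conj_back hu]
      exact mem_iff_cm.1 h z hz
  · rintro x ⟨z, hz, rfl⟩
    refine ⟨star z, star_mem hz, ?_⟩
    rw [star_mul, star_mul, star_star]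
    noncomm_ring

theorem mem_cm_conjN {N : VonNeumannAlgebra H} {u : H →L[ℂ] H} (hu : IsUn u) {y : H →L[ℂ] H} :
    y ∈ cm (conjN N u) ↔ u * y * star u ∈ cm N := by
  rw [mem_cm, mem_cm]
  constructor
  · intro h b hb
    have h1 := h (star u * b * u) ((mem_conjN hu).2 (by rw [conj_back hu]; exact hb))
    have h2 := congrArg (fun T => u * T * star u) h1
    rw [conj_mul hu _ y, conj_mul hu y, conj_back hu] at h2
    exact h2
  · intro h x hx
    refine un_cancel hu ?_
    rw [conj_mul hu, conj_mul hu]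
    exact h _ ((mem_conjN hu).1 hx)

theorem nt_conj (ζ : ℕ → H) (u y : H →L[ℂ] H) :
    nt (fun n => star u (ζ n)) y = nt ζ (u * y * star u) := by
  unfold nt
  refine tsum_congr fun n => ?_
  rw [inner_star_left]
  rfl

theorem un_norm {u : H →L[ℂ] H} (hu : IsUn u) (v : H) : ‖u v‖ = ‖v‖ := by
  have h1 : ⟪u v, u v⟫_ℂ = ⟪v, v⟫_ℂ := by
    rw [← inner_star_left]
    have h2 : star u (u v) = v := by
      show (star u * u) v = v
      rw [hu.1]; rfl
    rw [h2]
  rw [inner_self_eq_norm_sq_to_K, inner_self_eq_norm_sq_to_K] at h1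
  have h2 : ‖u v‖ ^ 2 = ‖v‖ ^ 2 := by exact_mod_cast h1
  exact (sq_eq_sq₀ (norm_nonneg _) (norm_nonneg _)).1 h2

theorem IsTr.conj {N : VonNeumannAlgebra H} {ζ : ℕ → H} (h : IsTr N ζ) {u : H →L[ℂ] H}
    (hu : IsUn u) : IsTr (conjN N u) (fun n => star u (ζ n)) where
  sm := by
    have : (fun n => ‖star u (ζ n)‖ ^ 2) = fun n => ‖ζ n‖ ^ 2 := by
      funext n
      rw [un_norm hu.star]
    rw [this]
    exact h.sm
  comm := fun a ha b hb => by
    rw [nt_conj, nt_conj, conj_mul hu, conj_mul hu]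
    exact h.comm _ ((mem_conjN hu).1 ha) _ ((mem_conjN hu).1 hb)
  faithful := fun a ha h0 => by
    rw [nt_conj, conj_mul hu] at h0
    have h1 := h.faithful (u * a * star u) ((mem_conjN hu).1 ha) (by
      rw [← h0]
      congr 1
      rw [star_mul, star_mul, star_star]
      noncomm_ring)
    refine un_cancel hu ?_
    rw [h1, mul_zero, zero_mul]

theorem near_conj {u : H →L[ℂ] H} (hu : IsUn u) {r : ℝ} (hr : ‖u - 1‖ ≤ r) (x : H →L[ℂ] H)
    (hx : ‖x‖ ≤ 1) : ‖x - u * x * star u‖ ≤ 2 * r := by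
  have hr0 : 0 ≤ r := (norm_nonneg _).trans hr
  have e1 : x - u * x * star u = (x * (u - 1) - (u - 1) * x) * star u := by
    calc x - u * x * star u = x * 1 - u * x * star u := by rw [mul_one]
      _ = x * (u * star u) - u * x * star u := by rw [hu.2]
      _ = _ := by noncomm_ring
  rw [e1]
  have h1 : ‖x * (u - 1)‖ ≤ 1 * r := (norm_mul_le _ _).trans
    (mul_le_mul hx hr (norm_nonneg _) (by norm_num))
  have h2 : ‖(u - 1) * x‖ ≤ r * 1 := (norm_mul_le _ _).trans
    (mul_le_mul hr hx (norm_nonneg _) hr0)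
  have h3 : ‖x * (u - 1) - (u - 1) * x‖ ≤ 2 * r := (norm_sub_le _ _).trans (by linarith)
  calc _ ≤ ‖x * (u - 1) - (u - 1) * x‖ * ‖star u‖ := norm_mul_le _ _
    _ ≤ 2 * r * 1 := mul_le_mul h3 hu.star.norm_le (norm_nonneg _) (by linarith)
    _ = 2 * r := by ring

theorem conj_norm_le {u : H →L[ℂ] H} (hu : IsUn u) (x : H →L[ℂ] H) :
    ‖u * x * star u‖ ≤ ‖x‖ := by
  calc _ ≤ ‖u‖ * ‖x‖ * ‖star u‖ := (norm_mul_le _ _).trans
        (mul_le_mul_of_nonneg_right (norm_mul_le _ _) (norm_nonneg _))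
    _ ≤ 1 * ‖x‖ * 1 := by
        have h1 := hu.norm_le
        have h2 := hu.star.norm_le
        gcongr
    _ = ‖x‖ := by ring

theorem un_star_near {u : H →L[ℂ] H} {r : ℝ} (hr : ‖u - 1‖ ≤ r) : ‖star u - 1‖ ≤ r := by
  have : star u - 1 = star (u - 1) := by rw [star_sub, star_one]
  rw [this, norm_star]
  exact hr

/-- Near inclusions and conjugation. -/
theorem NI.conj_right {A B B' : Set (H →L[ℂ] H)} {ε r : ℝ} {u : H →L[ℂ] H} (h : NI A B ε)
    (hu : IsUn u) (hr : ‖u - 1‖ ≤ r) (hB : ∀ y, y ∈ B' ↔ u * y * star u ∈ B) :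
    NI A B' (ε + 2 * r) := by
  intro x hx hx1
  obtain ⟨y, hy, hxy⟩ := h x hx hx1
  refine ⟨star u * y * u, (hB _).2 (by rw [conj_back hu]; exact hy), ?_⟩
  have h1 := near_conj hu.star (un_star_near hr) x hx1
  rw [star_star] at h1
  have h2 := conj_norm_le hu.star (x - y)
  rw [star_star] at h2
  have e1 : x - star u * y * u = (x - star u * x * u) + star u * (x - y) * u := by noncomm_ring
  rw [e1]
  refine (norm_add_le _ _).trans ?_
  linarith

theorem NI.conj_left {A B B' : Set (H →L[ℂ] H)} {ε r : ℝ} {u : H →L[ℂ] H} (h : NI B A ε)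
    (hu : IsUn u) (hr : ‖u - 1‖ ≤ r) (hB : ∀ y, y ∈ B' ↔ u * y * star u ∈ B) :
    NI B' A (ε + 2 * r) := by
  intro x hx hx1
  obtain ⟨y, hy, hxy⟩ := h _ ((hB x).1 hx) ((conj_norm_le hu x).trans hx1)
  refine ⟨y, hy, ?_⟩
  have h1 := near_conj hu hr x hx1
  have e1 : x - y = (x - u * x * star u) + (u * x * star u - y) := by abel
  rw [e1]
  refine (norm_add_le _ _).trans ?_
  linarith

/-- The cyclic projection of the conjugate. -/
theorem cp_conj {N : VonNeumannAlgebra H} {u : H →L[ℂ] H} (hu : IsUn u) (ξ : H) :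
    cp N (u ξ) = u * cp (conjN N u) ξ * star u := by
  symm
  refine cp_unique ⟨?_, ?_⟩ ?_ ?_ ?_
  · rw [star_mul, star_mul, star_star, cp_pr.1, mul_assoc]
  · rw [← conj_mul hu, cp_pr.2]
  · exact (mem_cm_conjN hu).1 cp_cm
  · show u (cp (conjN N u) ξ ((star u * u) ξ)) = u ξ
    rw [hu.1]
    show u (cp (conjN N u) ξ ξ) = u ξ
    rw [cp_self]
  · intro v hv h
    have hv' : cp (conjN N u) ξ (star u v) = star u v := by
      have := congrArg (fun w => star u w) hv
      have h2 : star u (u (cp (conjN N u) ξ (star u v))) = cp (conjN N u) ξ (star u v) := by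
        show (star u * u) _ = _
        rw [hu.1]; rfl
      rw [← h2]
      exact this
    have h0 : cp (conjN N u) ξ (star u v) = 0 := by
      refine cp_zero_iff.2 fun x hx => ?_
      have h3 := h _ ((mem_conjN hu).1 hx)
      have h4 : (u * x * star u) (u ξ) = u (x ξ) := by
        show u (x ((star u * u) ξ)) = _
        rw [hu.1]; rfl
      rw [h4] at h3
      rw [inner_star_right]
      exact h3
    rw [hv'] at h0
    have h5 : u (star u v) = v := by
      show (u * star u) v = v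
      rw [hu.2]; rfl
    rw [← h5, h0, map_zero]

/-! ### Means -/

theorem nt_mean {G : Type} [CommGroup G] {ζ : ℕ → H} (h : Sm ζ) {f : G → (H →L[ℂ] H)} (hf : Bd f)
    (c : ℂ) (hc : ∀ g, nt ζ (f g) = c) : nt ζ (mean f) = c := by
  obtain ⟨C, hC⟩ := hf
  have h1 : Tendsto (fun i => ∑' n, ⟪ζ n, avg i f (ζ n)⟫_ℂ) (UF G)
      (𝓝 (∑' n, ⟪ζ n, mean f (ζ n)⟫_ℂ)) := by
    refine tendsto_tsum_of_dominated_convergence (bound := fun n => C * ‖ζ n‖ ^ 2)
      (h.mul_left C) (fun n => mean_spec ⟨C, hC⟩ (ζ n) (ζ n)) (Eventually.of_forall fun i n => ?_)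
    refine (term_le ζ (avg i f) n).trans ?_
    exact mul_le_mul_of_nonneg_right (avg_norm i f C hC) (by positivity)
  have h2 : ∀ i, ∑' n, ⟪ζ n, avg i f (ζ n)⟫_ℂ = c := by
    intro i
    let L : (H →L[ℂ] H) →ₗ[ℂ] ℂ :=
      { toFun := nt ζ
        map_add' := nt_add h
        map_smul' := nt_smul h }
    have h3 : avg i (fun g => L (f g)) = L (avg i f) := avg_map L i f
    have h4 : (fun g => L (f g)) = fun _ => c := funext hc
    rw [h4, avg_const] at h3
    exact h3.symm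
  simp only [h2] at h1
  exact (tendsto_nhds_unique h1 tendsto_const_nhds)

end Pool.Agent.Q171.KK
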