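import Mathlib
import Pool.Agent.Q171.KK.Orb

/-!
# The local lemma
-/

set_option autoImplicit false
set_option linter.unusedSectionVars false
set_option linter.unusedVariables false
set_option linter.style.haveILetI false

open Filter Topology
open scoped InnerProductSpace ComplexConjugate ComplexOrder

noncomputable section

namespace Pool.Agent.Q171.KK

open H759R2.Kad H710R2.DP

variable {H : Type} [NormedAddCommGroup H] [InnerProductSpace ℂ H] [CompleteSpace H]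

/-- The vector functional of `ξ` on `M` is `τ(· p)`. -/
def Vec (M : VonNeumannAlgebra H) (ζ : ℕ → H) (p : H →L[ℂ] H) (ξ : H) : Prop :=
  p ∈ M ∧ IsPr p ∧ ∀ x ∈ M, ⟪ξ, x ξ⟫_ℂ = nt ζ (x * p)

variable {M N : VonNeumannAlgebra H} {ζ ζ' : ℕ → H} {p : H →L[ℂ] H} {ξ : H}

theorem norm_sq_inner (x : H →L[ℂ] H) (ξ : H) :
    ((‖x ξ‖ ^ 2 : ℝ) : ℂ) = ⟪ξ, (star x * x) ξ⟫_ℂ := by
  have h1 : (star x * x) ξ = star x (x ξ) := rfl
  rw [h1, inner_star_right, inner_self_eq_norm_sq_to_K]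
  norm_cast

theorem norm_right (hM : IsTr M ζ) (h : Vec M ζ p ξ) {u : H →L[ℂ] H} (hu : u ∈ M)
    (hun : IsUn u) (hup : u * p = p * u) (x : H →L[ℂ] H) (hx : x ∈ M) :
    ‖x (u ξ)‖ = ‖x ξ‖ := by
  obtain ⟨hpM, hpp, hv⟩ := h
  have h1 : ((‖(x * u) ξ‖ ^ 2 : ℝ) : ℂ) = ((‖x ξ‖ ^ 2 : ℝ) : ℂ) := by
    rw [norm_sq_inner, norm_sq_inner, hv _ (mul_mem (star_mem (mul_mem hx hu)) (mul_mem hx hu)),
      hv _ (mul_mem (star_mem hx) hx)]
    have e1 : star (x * u) * (x * u) * p = star u * (star x * x * p * u) := by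
      calc star (x * u) * (x * u) * p = star u * star x * x * (u * p) := by
            rw [star_mul]; noncomm_ring
        _ = _ := by rw [hup]; noncomm_ring
    have e2 : (star x * x * p * u) * star u = star x * x * p := by
      rw [mul_assoc (star x * x * p), hun.2, mul_one]
    rw [e1, hM.comm _ (star_mem hu) _ (mul_mem (mul_mem (mul_mem (star_mem hx) hx) hpM) hu), e2]
  have h2 : ‖(x * u) ξ‖ ^ 2 = ‖x ξ‖ ^ 2 := by exact_mod_cast h1
  exact (sq_eq_sq₀ (norm_nonneg _) (norm_nonneg _)).1 h2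

theorem exists_right (hM : IsTr M ζ) (h : Vec M ζ p ξ) {u : H →L[ℂ] H} (hu : u ∈ M)
    (hun : IsUn u) (hup : u * p = p * u) :
    ∃ R ∈ cm M, R ξ = u ξ ∧ ‖R‖ ≤ 1 ∧ R * cp M ξ = R :=
  exists_cm (u ξ) 1 zero_le_one fun x hx => by
    rw [norm_right hM h hu hun hup x hx, one_mul]

theorem cm_app {R : H →L[ℂ] H} (hR : R ∈ cm M) {x : H →L[ℂ] H} (hx : x ∈ M) (v : H) :
    R (x v) = x (R v) :=
  congrArg (fun T : H →L[ℂ] H => T v) (mem_cm.1 hR x hx).symm

theorem right_star (hM : IsTr M ζ) (h : Vec M ζ p ξ) {u : H →L[ℂ] H} (hu : u ∈ M)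
    (hup : u * p = p * u) {R : H →L[ℂ] H} (hR : R ∈ cm M) (hRξ : R ξ = u ξ)
    (hRc : R * cp M ξ = R) : star R * cp M ξ = star R ∧ star R ξ = star u ξ := by
  obtain ⟨hpM, hpp, hv⟩ := h
  have h1 : cp M ξ * R = R := by
    refine cm_ext (M := M) (ξ := ξ) (mul_mem cp_cm hR) hR ?_ ?_ hRc
    · show cp M ξ (R ξ) = R ξ
      rw [hRξ]
      exact cp_orb hu
    · rw [mul_assoc, hRc]
  have h2 : star R * cp M ξ = star R := by
    have := congrArg star h1
    rwa [star_mul, cp_pr.1] at this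
  have h2' : cp M ξ * star R = star R := by
    have := congrArg star hRc
    rwa [star_mul, cp_pr.1] at this
  refine ⟨h2, ?_⟩
  have h3 : cp M ξ (star R ξ - star u ξ) = star R ξ - star u ξ := by
    rw [map_sub, cp_orb (star_mem hu)]
    congr 1
    exact congrArg (fun T : H →L[ℂ] H => T ξ) h2'
  have h4 : cp M ξ (star R ξ - star u ξ) = 0 := by
    refine cp_zero_iff.2 fun x hx => ?_
    rw [inner_sub_right, inner_star_right, inner_star_right, cm_app hR hx, hRξ]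
    have h5 : ⟪ξ, x (u ξ)⟫_ℂ = ⟪ξ, u (x ξ)⟫_ℂ := by
      have e1 := hv _ (mul_mem hx hu)
      have e2 := hv _ (mul_mem hu hx)
      have e3 : nt ζ (x * u * p) = nt ζ (u * x * p) := by
        rw [mul_assoc u x p, hM.comm u hu (x * p) (mul_mem hx hpM), mul_assoc, hup, mul_assoc]
      rw [e3, ← e2] at e1
      exact e1
    have h6 := congrArg (starRingEnd ℂ) h5
    rw [inner_conj_symm, inner_conj_symm] at h6
    rw [h6, sub_self]
  rw [h3] at h4
  exact sub_eq_zero.1 h4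

theorem norm_mean_apply {G : Type} [CommGroup G] {f : G → (H →L[ℂ] H)} (hf : Bd f) (v : H)
    (c : ℝ) (hc : ∀ g, ‖f g v‖ ≤ c) : ‖mean f v‖ ≤ c := by
  have hc0 : 0 ≤ c := (norm_nonneg _).trans (hc 1)
  by_cases h0 : mean f v = 0
  · rw [h0, norm_zero]; exact hc0
  have h1 : ‖⟪mean f v, mean f v⟫_ℂ‖ ≤ c * ‖mean f v‖ :=
    norm_inner_mean_le hf _ _ _ fun g => by
      refine (norm_inner_le_norm _ _).trans ?_
      rw [mul_comm]
      exact mul_le_mul_of_nonneg_right (hc g) (norm_nonneg _)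
  have h2 : ‖⟪mean f v, mean f v⟫_ℂ‖ = ‖mean f v‖ * ‖mean f v‖ := by
    rw [inner_self_eq_norm_sq_to_K]; simp [sq]
  rw [h2] at h1
  exact le_of_mul_le_mul_right h1 (norm_pos_iff.2 h0)

/-- The right multiplications. -/
theorem right_data (hM : IsTr M ζ) (h : Vec M ζ p ξ) (A : VonNeumannAlgebra H) (hA : IsMasa A M)
    (hp : p ∈ A) : ∃ W : VonNeumannAlgebra H, IsMasa W (cm M) ∧ cp M ξ ∈ W ∧
      (∀ u ∈ A, IsUn u → ∃ R ∈ W, R ξ = u ξ ∧ star R (R ξ) = ξ) ∧ ∀ b ∈ W, b ξ ∈ cyc A ξ := by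
  set S₀ : Set (H →L[ℂ] H) := {R | R ∈ cm M ∧ R * cp M ξ = R ∧ ∃ u ∈ A, IsUn u ∧ R ξ = u ξ}
    with hS₀
  have hup : ∀ u ∈ A, u * p = p * u := fun u hu => hA.cmt u hu p hp
  obtain ⟨W, hW, hSW⟩ := exists_masa (cm M) S₀ (fun s hs => hs.1) (by
    rintro R ⟨hR, hRc, u, hu, hun, hRξ⟩
    obtain ⟨h1, h2⟩ := right_star hM h (hA.le u hu) (hup u hu) hR hRξ hRc
    exact ⟨star_mem hR, h1, star u, star_mem hu, hun.star, h2⟩) (by
    rintro R ⟨hR, hRc, u, hu, hun, hRξ⟩ S ⟨hS, hSc, v, hv, hvn, hSξ⟩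
    refine cm_ext (M := M) (ξ := ξ) (mul_mem hR hS) (mul_mem hS hR) ?_ ?_ ?_
    · show R (S ξ) = S (R ξ)
      rw [hRξ, hSξ, cm_app hR (hA.le v hv), cm_app hS (hA.le u hu), hRξ, hSξ]
      exact congrArg (fun T : H →L[ℂ] H => T ξ) (hA.cmt v hv u hu)
    · rw [mul_assoc, hSc]
    · rw [mul_assoc, hRc])
  have hone : IsUn (1 : H →L[ℂ] H) := by
    constructor <;> rw [star_one, one_mul]
  have hex : ∀ u ∈ A, IsUn u → ∃ R ∈ W, R ∈ cm M ∧ R ξ = u ξ ∧ ‖R‖ ≤ 1 ∧ star R (R ξ) = ξ := by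
    intro u hu hun
    obtain ⟨R, hR, hRξ, hRn, hRc⟩ := exists_right hM h (hA.le u hu) hun (hup u hu)
    have h1 := right_star hM h (hA.le u hu) (hup u hu) hR hRξ hRc
    refine ⟨R, hSW R ⟨hR, hRc, u, hu, hun, hRξ⟩, hR, hRξ, hRn, ?_⟩
    rw [hRξ, cm_app (star_mem hR) (hA.le u hu), h1.2]
    show (u * star u) ξ = ξ
    rw [hun.2]
    rfl
  refine ⟨W, hW, hSW _ ⟨cp_cm, cp_pr.2, 1, one_mem A, hone, cp_self⟩, ?_, ?_⟩
  · intro u hu hun
    obtain ⟨R, hR, -, h1, -, h2⟩ := hex u hu hun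
    exact ⟨R, hR, h1, h2⟩
  · intro b hb
    have hcpW : cp M ξ ∈ W := hSW _ ⟨cp_cm, cp_pr.2, 1, one_mem A, hone, cp_self⟩
    have hbc : b ξ ∈ cyc M ξ := by
      rw [← cp_iff]
      have h1 := congrArg (fun T : H →L[ℂ] H => T ξ) (hW.cmt _ hcpW b hb)
      calc cp M ξ (b ξ) = b (cp M ξ ξ) := h1
        _ = b ξ := by rw [cp_self]
    have hb' : b ξ ∈ closure (orb M ξ : Set H) := by
      rw [← Submodule.topologicalClosure_coe]; exact hbc
    have goal : b ξ ∈ closure (orb A ξ : Set H) := by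
      rw [Metric.mem_closure_iff] at hb' ⊢
      intro δ hδ
      obtain ⟨v, hv, hd⟩ := hb' δ hδ
      obtain ⟨x, hx, rfl⟩ := mem_orb.1 hv
      refine ⟨EA A hA.cmt x ξ, mem_orb.2 ⟨_, ?_, rfl⟩, ?_⟩
      · exact hA.max _ (EA_mem A hA.cmt M hA.le x hx) (EA_comm A hA.cmt x)
      · rw [dist_eq_norm] at hd ⊢
        refine lt_of_le_of_lt ?_ hd
        letI := ugComm A hA.cmt
        have hbb : ∀ u : UG A, u.op * b * star u.op = b := fun u => by
          have h1 := mem_cm.1 (hW.le b hb) u.op (hA.le _ u.mem)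
          rw [h1, mul_assoc, u.un.2, mul_one]
        have e1 : EA A hA.cmt x - b = mean fun u : UG A => u.op * (x - b) * star u.op := by
          have h2 : (fun u : UG A => u.op * (x - b) * star u.op) =
              fun u => u.op * x * star u.op - b := by
            funext u
            rw [mul_sub, sub_mul, hbb]
          rw [h2, mean_sub (EA_bd A x) (Bd.const b), mean_const]
          rfl
        have e2 : ‖b ξ - EA A hA.cmt x ξ‖ = ‖(EA A hA.cmt x - b) ξ‖ := by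
          rw [norm_sub_rev]; rfl
        rw [e2, e1]
        refine norm_mean_apply (EA_bd A (x - b)) ξ _ fun u => ?_
        obtain ⟨R, hR, hRM, hRξ, hRn, -⟩ := hex (star u.op) (star_mem u.mem) u.un.star
        have e3 : (u.op * (x - b) * star u.op) ξ = u.op (R ((x - b) ξ)) := by
          show u.op ((x - b) (star u.op ξ)) = _
          rw [← hRξ]
          congr 1
          show x (R ξ) - b (R ξ) = R (x ξ - b ξ)
          rw [map_sub, cm_app hRM hx]
          congr 1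
          exact congrArg (fun T : H →L[ℂ] H => T ξ) (hW.cmt b hb R hR)
        rw [e3]
        calc ‖u.op (R ((x - b) ξ))‖ ≤ 1 * ‖R ((x - b) ξ)‖ := by
              refine (u.op.le_opNorm _).trans ?_
              exact mul_le_mul_of_nonneg_right u.un.norm_le (norm_nonneg _)
          _ ≤ 1 * (1 * ‖(x - b) ξ‖) := by
              refine mul_le_mul_of_nonneg_left ?_ zero_le_one
              refine (R.le_opNorm _).trans ?_
              exact mul_le_mul_of_nonneg_right hRn (norm_nonneg _)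
          _ = ‖b ξ - x ξ‖ := by
              rw [one_mul, one_mul, norm_sub_rev]; rfl
    show b ξ ∈ (orb A ξ).topologicalClosure
    rw [← SetLike.mem_coe, Submodule.topologicalClosure_coe]
    exact goal

theorem cyc_mono {A N : VonNeumannAlgebra H} (h : ∀ a ∈ A, a ∈ N) (ξ : H) :
    cyc A ξ ≤ cyc N ξ := by
  refine Submodule.topologicalClosure_mono ?_
  intro v hv
  obtain ⟨a, ha, rfl⟩ := mem_orb.1 hv
  exact mem_orb.2 ⟨a, h a ha, rfl⟩

/-- Compression to the relative commutant of a projection. -/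
theorem comp_near (W N₁ : VonNeumannAlgebra H) (e : H →L[ℂ] H) (he : IsPr e) (heN : e ∈ cm N₁)
    (heW : ∀ b ∈ W, e * b = b * e) (δ : ℝ) (h : NI (W : Set (H →L[ℂ] H)) (cm N₁) δ) :
    NI (W : Set (H →L[ℂ] H)) (vnC ((N₁ : Set (H →L[ℂ] H)) ∪ {e})) (2 * δ) := by
  intro b hb hb1
  obtain ⟨y, hy, hby⟩ := h b hb hb1
  have hy' := mem_cm.1 hy
  have he' := mem_cm.1 heN
  refine ⟨e * y * e + (1 - e) * y * (1 - e), ?_, ?_⟩
  · refine (mem_vnC' ?_).2 ?_
    · rintro x (hx | hx)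
      · exact Or.inl (star_mem (S := VonNeumannAlgebra H) (s := N₁) hx)
      · right
        rw [Set.mem_singleton_iff] at hx ⊢
        rw [hx, he.1]
    · rintro x (hx | hx)
      · have h1 : x ∈ N₁ := hx
        have e1 := hy' x h1
        have e2 := he' x h1
        have e3 : x * (1 - e) = (1 - e) * x := by rw [mul_sub, sub_mul, e2, mul_one, one_mul]
        calc x * (e * y * e + (1 - e) * y * (1 - e)) =
              (x * e) * y * e + (x * (1 - e)) * y * (1 - e) := by noncomm_ring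
          _ = e * (x * y) * e + (1 - e) * (x * y) * (1 - e) := by rw [e2, e3]; noncomm_ring
          _ = e * y * (x * e) + (1 - e) * y * (x * (1 - e)) := by rw [e1]; noncomm_ring
          _ = (e * y * e + (1 - e) * y * (1 - e)) * x := by rw [e2, e3]; noncomm_ring
      · rw [Set.mem_singleton_iff] at hx
        rw [hx]
        have e1 : e * (1 - e) = 0 := by rw [mul_sub, mul_one, he.2, sub_self]
        have e2 : (1 - e) * e = 0 := by rw [sub_mul, one_mul, he.2, sub_self]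
        calc e * (e * y * e + (1 - e) * y * (1 - e)) =
              (e * e) * y * e + (e * (1 - e)) * y * (1 - e) := by noncomm_ring
          _ = e * y * e := by rw [he.2, e1]; noncomm_ring
          _ = e * y * (e * e) + (1 - e) * y * ((1 - e) * e) := by rw [he.2, e2]; noncomm_ring
          _ = _ := by noncomm_ring
  · have e1 : b - (e * y * e + (1 - e) * y * (1 - e)) =
        e * (b - y) * e + (1 - e) * (b - y) * (1 - e) := by
      have h1 := heW b hb
      have h2 : e * b * e = b * e := by rw [h1, mul_assoc, he.2]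
      have h3 : e * (b - y) * e + (1 - e) * (b - y) * (1 - e) =
          b - (e * y * e + (1 - e) * y * (1 - e)) + (e * b * e - b * e) + (e * b * e - e * b) := by
        noncomm_ring
      rw [h3, h2, h1, sub_self, add_zero, add_zero]
    rw [e1]
    have hδ : 0 ≤ δ := (norm_nonneg _).trans hby
    have t1 : ‖e * (b - y) * e‖ ≤ 1 * δ * 1 := by
      refine (norm_mul_le _ _).trans (mul_le_mul ((norm_mul_le _ _).trans
        (mul_le_mul (norm_pr he) hby (norm_nonneg _) (by norm_num))) (norm_pr he)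
          (norm_nonneg _) (by linarith))
    have t2 : ‖(1 - e) * (b - y) * (1 - e)‖ ≤ 1 * δ * 1 := by
      refine (norm_mul_le _ _).trans (mul_le_mul ((norm_mul_le _ _).trans
        (mul_le_mul (norm_pr (prCompl he)) hby (norm_nonneg _) (by norm_num)))
          (norm_pr (prCompl he)) (norm_nonneg _) (by linarith))
    refine (norm_add_le _ _).trans ?_
    linarith

theorem un_mul_near {a b : H →L[ℂ] H} (ha : IsUn a) {r s : ℝ} (h1 : ‖a - 1‖ ≤ r)
    (h2 : ‖b - 1‖ ≤ s) : ‖a * b - 1‖ ≤ r + s := by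
  have e1 : a * b - 1 = a * (b - 1) + (a - 1) := by noncomm_ring
  rw [e1]
  have t1 : ‖a * (b - 1)‖ ≤ 1 * s := (norm_mul_le _ _).trans
    (mul_le_mul ha.norm_le h2 (norm_nonneg _) (by norm_num))
  refine (norm_add_le _ _).trans ?_
  linarith

theorem pr_conj {u p : H →L[ℂ] H} (hu : IsUn u) (hp : IsPr p) : IsPr (u * p * star u) := by
  refine ⟨?_, ?_⟩
  · rw [star_mul, star_mul, star_star, hp.1, mul_assoc]
  · rw [← conj_mul hu, hp.2]

/-- **The local lemma.** -/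
theorem local_lemma (hM : Is21 M ζ) (hN : IsTr N ζ') (h : Vec M ζ p ξ)
    (he : cp M ξ ∈ cm N) (ε : ℝ) (hε : ε ≤ 1 / 10 ^ 10)
    (h1 : NI (M : Set (H →L[ℂ] H)) N ε) (h2 : NI (N : Set (H →L[ℂ] H)) M ε)
    (h3 : NI (cm M : Set (H →L[ℂ] H)) (cm N) ε) (h4 : NI (cm N : Set (H →L[ℂ] H)) (cm M) ε) :
    ∃ q : H →L[ℂ] H, ∃ η : H, Vec N ζ' q η ∧ cp N η = cp M ξ ∧ nt ζ' q = nt ζ p := by
  obtain ⟨hpM, hpp, hv⟩ := id h
  have hε0 : 0 ≤ ε := by
    obtain ⟨y, hy, hxy⟩ := h1 1 (one_mem M) norm_one_le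
    exact (norm_nonneg _).trans hxy
  -- the masa of `M`
  obtain ⟨A, hA, hpA'⟩ := exists_masa M {p} (fun s hs => by
    rw [Set.mem_singleton_iff] at hs; rw [hs]; exact hpM) (fun s hs => by
    rw [Set.mem_singleton_iff] at hs ⊢; rw [hs, hpp.1]) (fun s hs t ht => by
    rw [Set.mem_singleton_iff] at hs ht; rw [hs, ht])
  have hpA : p ∈ A := hpA' p rfl
  obtain ⟨W, hW, heW, hWR, hWcyc⟩ := right_data hM.tr h A hA hpA
  set e := cp M ξ with hedef
  have hee : IsPr e := cp_pr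
  -- first perturbation
  obtain ⟨w, hw, hw1, hwA, hwc⟩ := perturbVN A N hA.cmt ε (by linarith)
    (fun x hx hx1 => h1 x (hA.le x hx) hx1)
  have hew : e * w = w * e := hwc e
    (fun a ha => (mem_cm.1 cp_cm a (hA.le a ha)).symm) (fun t ht => (mem_cm.1 he t ht).symm)
  set N₁ := conjN N w with hN₁
  have hAN₁ : ∀ a ∈ A, a ∈ N₁ := fun a ha => (mem_conjN hw).2 (hwA a ha)
  have heN₁ : e ∈ cm N₁ := by
    refine (mem_cm_conjN hw).2 ?_
    rw [← hew, mul_assoc, hw.2, mul_one]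
    exact he
  have h31 : NI (cm M : Set (H →L[ℂ] H)) (cm N₁) (ε + 2 * (160 * ε)) :=
    h3.conj_right hw hw1 (fun y => mem_cm_conjN hw)
  set T := vnC ((N₁ : Set (H →L[ℂ] H)) ∪ {e}) with hT
  have hTs : ∀ x ∈ (N₁ : Set (H →L[ℂ] H)) ∪ {e}, star x ∈ (N₁ : Set (H →L[ℂ] H)) ∪ {e} := by
    rintro x (hx | hx)
    · exact Or.inl (star_mem (S := VonNeumannAlgebra H) (s := N₁) hx)
    · right
      rw [Set.mem_singleton_iff] at hx ⊢
      rw [hx, hee.1]
  have hT1 : ∀ t ∈ T, t ∈ cm N₁ := fun t ht =>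
    mem_cm.2 fun x hx => (mem_vnC' hTs).1 ht x (Or.inl hx)
  have hTe : ∀ t ∈ T, e * t = t * e := fun t ht => (mem_vnC' hTs).1 ht e (Or.inr rfl)
  have hWT : NI (W : Set (H →L[ℂ] H)) T (2 * (ε + 2 * (160 * ε))) :=
    comp_near W N₁ e hee heN₁ (fun b hb => hW.cmt e heW b hb) _
      (fun x hx hx1 => h31 x (hW.le x hx) hx1)
  -- second perturbation
  obtain ⟨w₂, hw₂, hw₂1, hw₂W, hw₂c⟩ := perturbVN W T hW.cmt (2 * (ε + 2 * (160 * ε)))
    (by linarith) hWT
  have hAw₂ : ∀ a ∈ A, a * w₂ = w₂ * a := fun a ha => hw₂c a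
    (fun b hb => mem_cm.1 (hW.le b hb) a (hA.le a ha))
    (fun t ht => mem_cm.1 (hT1 t ht) a (hAN₁ a ha))
  have hew₂ : e * w₂ = w₂ * e := hw₂c e (fun b hb => hW.cmt e heW b hb) hTe
  set U := w * w₂ with hU
  have hUu : IsUn U := hw.mul hw₂
  have hU1 : ‖U - 1‖ ≤ 102880 * ε := by
    have := un_mul_near hw hw1 hw₂1
    linarith
  have heU : e * U = U * e := by
    rw [hU, ← mul_assoc, hew, mul_assoc, hew₂, mul_assoc]
  set N₂ := conjN N U with hN₂
  have hUs : ∀ a : H →L[ℂ] H, U * a * star U = w * (w₂ * a * star w₂) * star w := by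
    intro a
    rw [hU, star_mul]
    noncomm_ring
  have hAN₂ : ∀ a ∈ A, a ∈ N₂ := by
    intro a ha
    refine (mem_conjN hUu).2 ?_
    rw [hUs, ← hAw₂ a ha, mul_assoc a, hw₂.2, mul_one]
    exact hwA a ha
  have hWN₂ : ∀ b ∈ W, b ∈ cm N₂ := by
    intro b hb
    refine (mem_cm_conjN hUu).2 ?_
    rw [hUs]
    exact (mem_cm_conjN hw).1 (hT1 _ (hw₂W b hb))
  have n1 : NI (M : Set (H →L[ℂ] H)) N₂ (205761 * ε) :=
    (h1.conj_right hUu hU1 (fun y => mem_conjN hUu)).mono (by linarith)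
  have n2 : NI (N₂ : Set (H →L[ℂ] H)) M (205761 * ε) :=
    (h2.conj_left hUu hU1 (fun y => mem_conjN hUu)).mono (by linarith)
  have n4 : NI (cm N₂ : Set (H →L[ℂ] H)) (cm M) (205761 * ε) :=
    (h4.conj_left hUu hU1 (fun y => mem_cm_conjN hUu)).mono (by linarith)
  have hsmall : 205761 * ε ≤ 1 / 18000 := by
    have : ε ≤ 1 / 10 ^ 10 := hε
    norm_num at this ⊢
    linarith
  have hAm : IsMasa A N₂ := hA.transfer hAN₂ _ (by linarith) n2
  have hWm : IsMasa W (cm N₂) := hW.transfer hWN₂ _ (by linarith) n4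
  -- the cyclic projection
  have hcomm : ∀ b ∈ W, b * cp N₂ ξ = cp N₂ ξ * b := by
    have key : ∀ b ∈ W, ∀ x ∈ N₂, b (x ξ) ∈ cyc N₂ ξ := by
      intro b hb x hx
      rw [cm_app (hWN₂ b hb) hx]
      refine cyc_inv (M := N₂) (ξ := ξ) (fun y hy => ?_) (cyc_mono hAN₂ ξ (hWcyc b hb))
      exact orb_le (mem_orb.2 ⟨x * y, mul_mem hx hy, rfl⟩)
    intro b hb
    exact comm_cp b (key b hb) (key (star b) (star_mem hb))
  have hcpW : cp N₂ ξ ∈ W := hWm.max _ cp_cm fun b hb => (hcomm b hb).symm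
  have hcpe : cp N₂ ξ = e := by
    have e1 : cp N₂ ξ * e = e := mul_cp (hW.le _ hcpW) cp_self
    have e2 : e * cp N₂ ξ = cp N₂ ξ := mul_cp (hWN₂ e heW) cp_self
    have e3 := congrArg star e2
    rw [star_mul, cp_pr.1, hee.1] at e3
    rw [← e3, e1]
  -- the trace
  set ζ₂ : ℕ → H := fun n => star U (ζ' n) with hζ₂
  have hN₂t : IsTr N₂ ζ₂ := hN.conj hUu
  have htr : ∀ z ∈ N₂, ⟪ξ, z ξ⟫_ℂ = nt ζ₂ (z * p) := by
    intro z hz
    letI := ugComm A hA.cmt
    have hEA : EA A hA.cmt z ∈ A :=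
      hAm.max _ (EA_mem A hA.cmt N₂ hAN₂ z hz) (EA_comm A hA.cmt z)
    have t1 : ⟪ξ, EA A hA.cmt z ξ⟫_ℂ = ⟪ξ, z ξ⟫_ℂ := by
      refine inner_mean_const (EA_bd A z) ξ ξ _ fun u => ?_
      obtain ⟨R, hR, hRξ, hRR⟩ := hWR (star u.op) (star_mem u.mem) u.un.star
      show ⟪ξ, u.op (z (star u.op ξ))⟫_ℂ = _
      rw [← inner_star_left, ← hRξ, ← inner_star_right, cm_app (hWN₂ _ (star_mem hR)) hz, hRR]
    have t2 : ⟪ξ, EA A hA.cmt z ξ⟫_ℂ = nt ζ (EA A hA.cmt z * p) := hv _ (hA.le _ hEA)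
    have t3 : nt ζ (EA A hA.cmt z * p) = nt ζ₂ (EA A hA.cmt z * p) :=
      exact_cmt hM hN₂t (205761 * ε) hsmall n1 A hA.cmt hA.le hAN₂ _ (mul_mem hEA hpA)
    have t4 : EA A hA.cmt z * p = mean fun u : UG A => u.op * (z * p) * star u.op := by
      show mean (fun u : UG A => u.op * z * star u.op) * p = _
      rw [← mean_mul_right (EA_bd A z)]
      congr 1
      funext u
      rw [mul_assoc _ (star u.op) p, hA.cmt _ (star_mem u.mem) p hpA]
      noncomm_ring
    have t5 : nt ζ₂ (EA A hA.cmt z * p) = nt ζ₂ (z * p) := by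
      rw [t4]
      refine nt_mean hN₂t.s (EA_bd A (z * p)) _ fun u => ?_
      have hpN₂ := hAN₂ p hpA
      have huN₂ := hAN₂ _ u.mem
      rw [mul_assoc, hN₂t.comm _ huN₂ _ (mul_mem (mul_mem hz hpN₂) (star_mem huN₂)), mul_assoc,
        u.un.1, mul_one]
    rw [← t1, t2, t3, t5]
  have hpN₂ : p ∈ N₂ := hAN₂ p hpA
  refine ⟨U * p * star U, U ξ, ⟨(mem_conjN hUu).1 hpN₂, pr_conj hUu hpp, ?_⟩, ?_, ?_⟩
  · intro y hy
    have hz : star U * y * U ∈ N₂ := (mem_conjN hUu).2 (by rw [conj_back hUu]; exact hy)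
    have t1 := htr _ hz
    rw [nt_conj] at t1
    have t2 : U * (star U * y * U * p) * star U = y * (U * p * star U) := by
      calc U * (star U * y * U * p) * star U = (U * star U) * y * U * p * star U := by
            noncomm_ring
        _ = _ := by rw [hUu.2]; noncomm_ring
    rw [t2] at t1
    rw [← t1, ← inner_star_left]
    have t3 : star U (U ξ) = ξ := by
      show (star U * U) ξ = ξ
      rw [hUu.1]; rfl
    have t4 : (star U * y * U) ξ = star U (y (U ξ)) := rfl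
    rw [t4, inner_star_right, inner_star_left]
  · rw [cp_conj hUu, hcpe, ← heU, mul_assoc, hUu.2, mul_one]
  · rw [← nt_conj]
    exact (exact_pr hM hN₂t (205761 * ε) hsmall n1 p hpM hpN₂ hpp).symm

end Pool.Agent.Q171.KK
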