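import Mathlib
import Pool.Agent.Q171.KK.Loc
import Pool.Agent.Q171.KK.Comm

/-!
# Transfer of decompositions
-/

set_option autoImplicit false
set_option linter.unusedSectionVars false
set_option linter.unusedVariables false

open Filter Topology
open scoped InnerProductSpace ComplexConjugate ComplexOrder

noncomputable section

namespace Pool.Agent.Q171.KK

open H759R2.Kad H710R2.DP

variable {H : Type} [NormedAddCommGroup H] [InnerProductSpace ℂ H] [CompleteSpace H]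

/-- Decomposition of `H` into the mutually orthogonal cyclic pieces `[M ξ i] ≅ L²(M, τ) p i`. -/
structure Dec (M : VonNeumannAlgebra H) (ζ : ℕ → H) (I : Type) (p : I → (H →L[ℂ] H))
    (ξ : I → H) : Prop where
  vec : ∀ i, Vec M ζ (p i) (ξ i)
  orth : ∀ i j, i ≠ j → ∀ x ∈ M, ∀ y ∈ M, ⟪x (ξ i), y (ξ j)⟫_ℂ = 0
  total : ∀ v, (∀ i, ∀ x ∈ M, ⟪x (ξ i), v⟫_ℂ = 0) → v = 0

variable {M N : VonNeumannAlgebra H} {ζ ζ' : ℕ → H} {I : Type} {p : I → (H →L[ℂ] H)} {ξ : I → H}

theorem cp_mul_zero {a b : H} (h : ∀ x ∈ M, ∀ y ∈ M, ⟪x a, y b⟫_ℂ = 0) :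
    cp M a * cp M b = 0 := by
  ext v
  show cp M a (cp M b v) = 0
  refine cp_zero_iff.2 fun x hx => ?_
  rw [← pr_inner cp_pr]
  have h1 : cp M b (x a) = 0 := by
    refine cp_zero_iff.2 fun y hy => ?_
    have := congrArg (starRingEnd ℂ) (h x hx y hy)
    rwa [inner_conj_symm, map_zero] at this
  rw [h1, inner_zero_left]

theorem Dec.conj {u : H →L[ℂ] H} (hu : IsUn u)
    (h : Dec (conjN N u) (fun n => star u (ζ' n)) I p ξ) :
    Dec N ζ' I (fun i => u * p i * star u) (fun i => u (ξ i)) := by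
  have hcan : ∀ y : H →L[ℂ] H, ∀ v : H, y (u v) = u ((star u * y * u) v) := by
    intro y v
    show y (u v) = (u * star u) (y (u v))
    rw [hu.2]; rfl
  have hmem : ∀ y ∈ N, star u * y * u ∈ conjN N u := fun y hy =>
    (mem_conjN hu).2 (by rw [conj_back hu]; exact hy)
  have hinn : ∀ a b : H, ⟪u a, u b⟫_ℂ = ⟪a, b⟫_ℂ := by
    intro a b
    rw [← inner_star_left]
    have : star u (u a) = a := by
      show (star u * u) a = a
      rw [hu.1]; rfl
    rw [this]
  refine ⟨?_, ?_, ?_⟩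
  · intro i
    obtain ⟨h1, h2, h3⟩ := h.vec i
    refine ⟨(mem_conjN hu).1 h1, pr_conj hu h2, fun y hy => ?_⟩
    have h4 := h3 _ (hmem y hy)
    rw [nt_conj] at h4
    have e1 : u * (star u * y * u * p i) * star u = y * (u * p i * star u) := by
      calc u * (star u * y * u * p i) * star u = (u * star u) * y * u * p i * star u := by
            noncomm_ring
        _ = _ := by rw [hu.2]; noncomm_ring
    rw [e1] at h4
    rw [← h4, hcan y, hinn]
  · intro i j hij x hx y hy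
    rw [hcan x, hcan y, hinn]
    exact h.orth i j hij _ (hmem x hx) _ (hmem y hy)
  · intro v hv
    have h1 : star u v = 0 := by
      refine h.total _ fun i x hx => ?_
      have h2 := hv i _ ((mem_conjN hu).1 hx)
      rw [hcan] at h2
      have e1 : star u * (u * x * star u) * u = x := by
        calc star u * (u * x * star u) * u = (star u * u) * x * (star u * u) := by noncomm_ring
          _ = x := by rw [hu.1]; simp
      rw [e1] at h2
      rw [inner_star_right]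
      exact h2
    have h3 : u (star u v) = v := by
      show (u * star u) v = v
      rw [hu.2]; rfl
    rw [← h3, h1, map_zero]

theorem transfer_of_near (hM : Is21 M ζ) (hN : IsTr N ζ') (ε : ℝ) (hε : ε ≤ 1 / 10 ^ 13)
    (h1 : NI (M : Set (H →L[ℂ] H)) N ε) (h2 : NI (N : Set (H →L[ℂ] H)) M ε)
    (h3 : NI (cm M : Set (H →L[ℂ] H)) (cm N) ε) (h4 : NI (cm N : Set (H →L[ℂ] H)) (cm M) ε)
    (hd : Dec M ζ I p ξ) :
    ∃ (q : I → (H →L[ℂ] H)) (η : I → H), Dec N ζ' I q η ∧ ∀ i, nt ζ' (q i) = nt ζ (p i) := by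
  have hε0 : 0 ≤ ε := by
    obtain ⟨y, hy, hxy⟩ := h1 1 (one_mem M) norm_one_le
    exact (norm_nonneg _).trans hxy
  have hz : ∀ i j, i ≠ j → cp M (ξ i) * cp M (ξ j) = 0 := fun i j hij =>
    cp_mul_zero fun x hx y hy => hd.orth i j hij x hx y hy
  obtain ⟨A₀, hA₀, hcA₀⟩ := exists_masa (cm M) (Set.range fun i => cp M (ξ i))
    (by rintro s ⟨i, rfl⟩; exact cp_cm) (by rintro s ⟨i, rfl⟩; exact ⟨i, cp_pr.1.symm⟩) (by
      rintro s ⟨i, rfl⟩ t ⟨j, rfl⟩
      by_cases hij : i = j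
      · rw [hij]
      · show cp M (ξ i) * cp M (ξ j) = cp M (ξ j) * cp M (ξ i)
        rw [hz i j hij, hz j i fun h => hij h.symm])
  obtain ⟨w, hw, hw1, hwA, -⟩ := perturbVN A₀ (cm N) hA₀.cmt ε (by norm_num at hε; linarith)
    (fun x hx hx1 => h3 x (hA₀.le x hx) hx1)
  have hcN : ∀ i, cp M (ξ i) ∈ cm (conjN N w) := fun i =>
    (mem_cm_conjN hw).2 (hwA _ (hcA₀ _ ⟨i, rfl⟩))
  have n1 : NI (M : Set (H →L[ℂ] H)) (conjN N w) (321 * ε) :=
    (h1.conj_right hw hw1 (fun y => mem_conjN hw)).mono (by linarith)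
  have n2 : NI (conjN N w : Set (H →L[ℂ] H)) M (321 * ε) :=
    (h2.conj_left hw hw1 (fun y => mem_conjN hw)).mono (by linarith)
  have n3 : NI (cm M : Set (H →L[ℂ] H)) (cm (conjN N w)) (321 * ε) :=
    (h3.conj_right hw hw1 (fun y => mem_cm_conjN hw)).mono (by linarith)
  have n4 : NI (cm (conjN N w) : Set (H →L[ℂ] H)) (cm M) (321 * ε) :=
    (h4.conj_left hw hw1 (fun y => mem_cm_conjN hw)).mono (by linarith)
  choose q η hq hcp htr using fun i => local_lemma hM (hN.conj hw) (hd.vec i) (hcN i) (321 * ε)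
    (by norm_num at hε ⊢; linarith) n1 n2 n3 n4
  have hdN : Dec (conjN N w) (fun n => star w (ζ' n)) I q η := by
    refine ⟨hq, ?_, ?_⟩
    · intro i j hij x hx y hy
      have e1 : cp (conjN N w) (η i) * cp (conjN N w) (η j) = 0 := by
        rw [hcp, hcp]; exact hz i j hij
      rw [← cp_orb hx, ← cp_orb hy, pr_inner cp_pr]
      have e2 : cp (conjN N w) (η i) (cp (conjN N w) (η j) (y (η j))) = 0 :=
        congrArg (fun T : H →L[ℂ] H => T (y (η j))) e1
      rw [e2, inner_zero_right]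
    · intro v hv
      refine hd.total v fun i x hx => ?_
      have h5 : cp (conjN N w) (η i) v = 0 := cp_zero_iff.2 (hv i)
      rw [hcp] at h5
      exact cp_zero_iff.1 h5 x hx
  refine ⟨_, _, hdN.conj hw, fun i => ?_⟩
  rw [← nt_conj, htr]

/-- **Main theorem.** -/
theorem main_transfer : ∃ δ : ℝ, 0 < δ ∧ ∀ (H : Type) [NormedAddCommGroup H]
    [InnerProductSpace ℂ H] [CompleteSpace H] (M N : VonNeumannAlgebra H) (ζ ζ' : ℕ → H),
    Is21 M ζ → IsTr N ζ' → NI (M : Set (H →L[ℂ] H)) N δ → NI (N : Set (H →L[ℂ] H)) M δ →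
    ∀ (I : Type) (p : I → (H →L[ℂ] H)) (ξ : I → H), Dec M ζ I p ξ →
    ∃ (q : I → (H →L[ℂ] H)) (η : I → H), Dec N ζ' I q η ∧ ∀ i, nt ζ' (q i) = nt ζ (p i) := by
  obtain ⟨K, hK, hKc⟩ := exists_const
  refine ⟨min (1 / 10 ^ 13) (1 / 10 ^ 13 / (2 * K)), by positivity, ?_⟩
  intro H _ _ _ M N ζ ζ' hM hN h1 h2 I p ξ hd
  have h0 : (0 : ℝ) ≤ min (1 / 10 ^ 13) (1 / 10 ^ 13 / (2 * K)) := by positivity
  have h3 := ni_cm K hK (hKc H) h0 h2
  have h4 := ni_cm K hK (hKc H) h0 h1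
  have hle : 2 * K * min (1 / 10 ^ 13) (1 / 10 ^ 13 / (2 * K)) ≤ 1 / 10 ^ 13 := by
    calc 2 * K * min (1 / 10 ^ 13) (1 / 10 ^ 13 / (2 * K)) ≤
          2 * K * (1 / 10 ^ 13 / (2 * K)) := by
            have := min_le_right (1 / 10 ^ 13 : ℝ) (1 / 10 ^ 13 / (2 * K))
            gcongr
      _ = 1 / 10 ^ 13 := by field_simp
  exact transfer_of_near hM hN (1 / 10 ^ 13) le_rfl (h1.mono (min_le_left _ _))
    (h2.mono (min_le_left _ _)) (h3.mono hle) (h4.mono hle) hd

end Pool.Agent.Q171.KK
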