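import Mathlib
import Pool.Agent.Q171.KK.Main

/-!
# Uniqueness of the trace and of the coupling constant
-/

set_option autoImplicit false
set_option linter.unusedSectionVars false
set_option linter.unusedVariables false

open Filter Topology
open scoped InnerProductSpace ComplexConjugate ComplexOrder ENNReal

noncomputable section

namespace Pool.Agent.Q171.KK

open H759R2.Kad H710R2.DP

variable {H : Type} [NormedAddCommGroup H] [InnerProductSpace ℂ H] [CompleteSpace H]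
variable {M : VonNeumannAlgebra H} {ζ ζ' : ℕ → H}

theorem tr_unique (hM : Is21 M ζ) (hN : IsTr M ζ') (x : H →L[ℂ] H) (hx : x ∈ M) :
    nt ζ x = nt ζ' x := by
  have hsa : ∀ y ∈ M, star y = y → nt ζ y = nt ζ' y := by
    intro y hy hys
    obtain ⟨A, hA, hyA⟩ := exists_masa M {y} (fun s hs => by
      rw [Set.mem_singleton_iff] at hs; rw [hs]; exact hy) (fun s hs => by
      rw [Set.mem_singleton_iff] at hs ⊢; rw [hs, hys]) (fun s hs t ht => by
      rw [Set.mem_singleton_iff] at hs ht; rw [hs, ht])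
    exact exact_cmt hM hN 0 (by norm_num) (fun z hz _ => ⟨z, hz, by rw [sub_self, norm_zero]⟩)
      A hA.cmt hA.le hA.le y (hyA y rfl)
  have h1 := hsa (x + star x) (add_mem hx (star_mem hx)) (by rw [star_add, star_star, add_comm])
  have h2 := hsa (Complex.I • (x - star x)) (vn_smul _ (sub_mem hx (star_mem hx))) (by
    rw [star_smul, star_sub, star_star]
    have : star Complex.I = -Complex.I := Complex.conj_I
    rw [this, neg_smul, ← smul_neg, neg_sub])
  rw [nt_add hM.tr.s, nt_add hN.s] at h1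
  rw [nt_smul hM.tr.s, nt_smul hN.s, nt_sub hM.tr.s, nt_sub hN.s] at h2
  have h3 := mul_left_cancel₀ Complex.I_ne_zero h2
  have h4 : (2 : ℂ) * nt ζ x = 2 * nt ζ' x := by linear_combination h1 + h3
  exact mul_left_cancel₀ two_ne_zero h4

variable {p q : H →L[ℂ] H} {ξ η : H}

theorem Vec.fix (hM : IsTr M ζ) (h : Vec M ζ p ξ) : p ξ = ξ := by
  obtain ⟨hp, hpp, hv⟩ := h
  have hc := prCompl hpp
  have h1 : ((‖(1 - p) ξ‖ ^ 2 : ℝ) : ℂ) = 0 := by
    rw [norm_sq_inner, hc.1, hc.2, hv _ (sub_mem (one_mem M) hp), sub_mul, one_mul, hpp.2, sub_self]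
    unfold nt
    simp
  have h2 : ‖(1 - p) ξ‖ ^ 2 = 0 := by exact_mod_cast h1
  have h3 : (1 - p) ξ = 0 := norm_eq_zero.1 (pow_eq_zero_iff (two_ne_zero) |>.1 h2)
  have h4 : ξ - p ξ = 0 := h3
  exact (sub_eq_zero.1 h4).symm

theorem half_le (hM : IsTr M ζ) (hp : Vec M ζ p ξ) (hq : Vec M ζ q η) {T : H →L[ℂ] H}
    (hT : T ∈ cm M) (h1 : cp M η (T ξ) = T ξ) (h2 : cp M ξ (star T η) = star T η) :
    ‖star T η‖ = ‖T ξ‖ := by
  obtain ⟨hpM, hpp, hpv⟩ := id hp
  obtain ⟨hqM, hqp, hqv⟩ := id hq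
  have hpξ := hp.fix hM
  have hqη := hq.fix hM
  have h1' : T ξ ∈ closure (orb M η : Set H) := by
    rw [← Submodule.topologicalClosure_coe]; exact cp_iff.1 h1
  obtain ⟨u, hu, hlim⟩ := mem_closure_iff_seq_limit.1 h1'
  choose x₀ hx₀ hx₀u using fun n => mem_orb.1 (hu n)
  set x : ℕ → (H →L[ℂ] H) := fun n => p * x₀ n * q with hxdef
  have hx : ∀ n, x n ∈ M := fun n => mul_mem (mul_mem hpM (hx₀ n)) hqM
  have hxη : ∀ n, x n η = p (u n) := fun n => by
    show p (x₀ n (q η)) = p (u n)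
    rw [hqη, hx₀u]
  have hpx : ∀ n, p * x n = x n := fun n => by rw [hxdef]; simp only; rw [← mul_assoc, ← mul_assoc, hpp.2]
  have hxq : ∀ n, x n * q = x n := fun n => by rw [hxdef]; simp only; rw [mul_assoc, hqp.2]
  have hlim1 : Tendsto (fun n => x n η) atTop (𝓝 (T ξ)) := by
    have h3 : Tendsto (fun n => p (u n)) atTop (𝓝 (p (T ξ))) := (p.continuous.tendsto _).comp hlim
    have h4 : p (T ξ) = T ξ := by rw [← cm_app hT hpM, hpξ]
    rw [h4] at h3
    simpa only [hxη] using h3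
  -- the adjoints
  have key : ∀ z ∈ M, p * z = z → z * q = z → ‖star z ξ‖ = ‖z η‖ := by
    intro z hz hpz hzq
    have h5 : ((‖star z ξ‖ ^ 2 : ℝ) : ℂ) = ((‖z η‖ ^ 2 : ℝ) : ℂ) := by
      rw [norm_sq_inner, norm_sq_inner, star_star, hpv _ (mul_mem hz (star_mem hz)),
        hqv _ (mul_mem (star_mem hz) hz)]
      have e1 : star z * p = star z := by
        have := congrArg star hpz
        rwa [star_mul, hpp.1] at this
      rw [mul_assoc, e1, mul_assoc, hzq, hM.comm _ hz _ (star_mem hz)]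
    have h6 : ‖star z ξ‖ ^ 2 = ‖z η‖ ^ 2 := by exact_mod_cast h5
    exact (sq_eq_sq₀ (norm_nonneg _) (norm_nonneg _)).1 h6
  have hcau : CauchySeq fun n => star (x n) ξ := by
    rw [Metric.cauchySeq_iff]
    intro δ hδ
    obtain ⟨n₀, hn₀⟩ := (Metric.cauchySeq_iff.1 hlim1.cauchySeq) δ hδ
    refine ⟨n₀, fun m hm n hn => ?_⟩
    have h7 := hn₀ m hm n hn
    rw [dist_eq_norm] at h7 ⊢
    have h8 := key (x m - x n) (sub_mem (hx m) (hx n)) (by rw [mul_sub, hpx, hpx])
      (by rw [sub_mul, hxq, hxq])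
    have h9 : star (x m - x n) ξ = star (x m) ξ - star (x n) ξ := by rw [star_sub]; rfl
    rw [h9] at h8
    rw [h8]
    exact h7
  obtain ⟨w, hw⟩ := cauchySeq_tendsto_of_complete hcau
  have hwc : cp M ξ w = w := by
    have h3 := ((cp M ξ).continuous.tendsto w).comp hw
    have h4 : (fun n => cp M ξ (star (x n) ξ)) = fun n => star (x n) ξ := by
      funext n
      exact cp_orb (star_mem (hx n))
    exact tendsto_nhds_unique (h3.congr fun n => congrFun h4 n) hw
  have hwT : w = star T η := by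
    have h3 : cp M ξ (w - star T η) = w - star T η := by rw [map_sub, hwc, h2]
    have h4 : cp M ξ (w - star T η) = 0 := by
      refine cp_zero_iff.2 fun y hy => ?_
      rw [inner_sub_right, sub_eq_zero]
      have l1 : Tendsto (fun n => ⟪y ξ, star (x n) ξ⟫_ℂ) atTop (𝓝 ⟪y ξ, w⟫_ℂ) :=
        tendsto_const_nhds.inner hw
      have l2 : Tendsto (fun n => ⟪y (x n η), η⟫_ℂ) atTop (𝓝 ⟪y (T ξ), η⟫_ℂ) :=
        ((y.continuous.tendsto _).comp hlim1).inner tendsto_const_nhds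
      have l3 : ∀ n, ⟪y ξ, star (x n) ξ⟫_ℂ = ⟪y (x n η), η⟫_ℂ := by
        intro n
        have e1 : ⟪y ξ, star (x n) ξ⟫_ℂ = nt ζ (star y * star (x n)) := by
          have h5 := hpv _ (mul_mem (star_mem hy) (star_mem (hx n)))
          have h6 : star (x n) * p = star (x n) := by
            have := congrArg star (hpx n)
            rwa [star_mul, hpp.1] at this
          rw [mul_assoc, h6] at h5
          rw [← h5]
          exact (inner_star_right y ξ _).symm
        have e2 : ⟪y (x n η), η⟫_ℂ = nt ζ (star (x n) * star y) := by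
          have h5 := hqv _ (mul_mem (star_mem (hx n)) (star_mem hy))
          have h6 : q * star (x n) = star (x n) := by
            have := congrArg star (hxq n)
            rwa [star_mul, hqp.1] at this
          rw [← hM.comm q hqM _ (mul_mem (star_mem (hx n)) (star_mem hy)), ← mul_assoc, h6] at h5
          rw [← h5]
          show _ = ⟪η, star (x n) (star y η)⟫_ℂ
          rw [inner_star_right, inner_star_right]
        rw [e1, e2, hM.comm _ (star_mem hy) _ (star_mem (hx n))]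
      have l4 := tendsto_nhds_unique (l1.congr l3) l2
      rw [l4, inner_star_right]
      rw [cm_app hT hy]
    rw [h3] at h4
    exact sub_eq_zero.1 h4
  rw [← hwT]
  have m1 := hw.norm
  have m2 := hlim1.norm
  have m3 : ∀ n, ‖star (x n) ξ‖ = ‖x n η‖ := fun n => key (x n) (hx n) (hpx n) (hxq n)
  exact tendsto_nhds_unique (m1.congr m3) m2

/-! ### Parseval -/

variable {I J : Type} {P : I → (H →L[ℂ] H)} {X : I → H} {Q : J → (H →L[ℂ] H)} {Y : J → H}

theorem Dec.parseval (h : Dec M ζ I P X) (v : H) :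
    HasSum (fun i => ‖cp M (X i) v‖ ^ 2) (‖v‖ ^ 2) := by
  classical
  have hmz : ∀ i j, i ≠ j → cp M (X i) * cp M (X j) = 0 := fun i j hij =>
    cp_mul_zero fun x hx y hy => h.orth i j hij x hx y hy
  have hOF : OrthogonalFamily ℂ (fun i => cyc M (X i)) fun i => (cyc M (X i)).subtypeₗᵢ := by
    intro i j hij a b
    show ⟪(a : H), (b : H)⟫_ℂ = 0
    have e1 : (a : H) = cp M (X i) a := (cp_iff.2 a.2).symm
    have e2 : (b : H) = cp M (X j) b := (cp_iff.2 b.2).symm
    rw [e1, e2, pr_inner cp_pr]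
    have e3 : cp M (X i) (cp M (X j) (b : H)) = 0 :=
      congrArg (fun T : H →L[ℂ] H => T (b : H)) (hmz i j hij)
    rw [e3, inner_zero_right]
  set a : ∀ i, cyc M (X i) := fun i => ⟨cp M (X i) v, cp_mem v⟩ with ha
  have hinn : ∀ i, ⟪v, cp M (X i) v⟫_ℂ = ((‖cp M (X i) v‖ ^ 2 : ℝ) : ℂ) := by
    intro i
    rw [norm_sq_inner]
    rw [cp_pr.1, cp_pr.2]
  have hbes : ∀ s : Finset I, ∑ i ∈ s, ‖a i‖ ^ 2 ≤ ‖v‖ ^ 2 := by
    intro s
    have e1 := hOF.norm_sum a s
    have e2 : ⟪v, ∑ i ∈ s, cp M (X i) v⟫_ℂ = ((∑ i ∈ s, ‖a i‖ ^ 2 : ℝ) : ℂ) := by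
      rw [inner_sum, Complex.ofReal_sum]
      exact Finset.sum_congr rfl fun i _ => hinn i
    have e3 : ‖∑ i ∈ s, cp M (X i) v‖ ^ 2 = ∑ i ∈ s, ‖a i‖ ^ 2 := e1
    have hnn : 0 ≤ ∑ i ∈ s, ‖a i‖ ^ 2 := Finset.sum_nonneg fun i _ => by positivity
    have e4 : ∑ i ∈ s, ‖a i‖ ^ 2 ≤ ‖v‖ * ‖∑ i ∈ s, cp M (X i) v‖ := by
      have := norm_inner_le_norm (𝕜 := ℂ) v (∑ i ∈ s, cp M (X i) v)
      rw [e2, Complex.norm_real, Real.norm_eq_abs, abs_of_nonneg hnn] at this
      exact this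
    set S := ‖∑ i ∈ s, cp M (X i) v‖ with hS
    have hS0 : 0 ≤ S := norm_nonneg _
    rw [← e3] at e4 ⊢
    rcases hS0.eq_or_lt with h0 | h0
    · rw [← h0, zero_pow two_ne_zero]; positivity
    · have : S ≤ ‖v‖ := by
        have h5 : S * S ≤ ‖v‖ * S := by rw [← sq]; exact e4
        exact le_of_mul_le_mul_right h5 h0
      exact pow_le_pow_left₀ hS0 this 2
  have hsum : Summable fun i => ‖a i‖ ^ 2 :=
    summable_of_sum_le (fun i => by positivity) hbes
  have hsum' : Summable fun i => cp M (X i) v := (hOF.summable_iff_norm_sq_summable a).2 hsum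
  obtain ⟨w, hw⟩ := hsum'
  have hwv : w = v := by
    have h1 : w - v = 0 := by
      refine h.total _ fun j x hx => ?_
      have h2 : cp M (X j) (w - v) = 0 := by
        rw [map_sub, sub_eq_zero]
        have h3 : HasSum (fun i => cp M (X j) (cp M (X i) v)) (cp M (X j) w) :=
          (cp M (X j)).hasSum hw
        have h4 : HasSum (fun i => cp M (X j) (cp M (X i) v)) (cp M (X j) (cp M (X j) v)) := by
          refine hasSum_single j fun i hi => ?_
          exact congrArg (fun T : H →L[ℂ] H => T v) (hmz j i fun h => hi h.symm)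
        rw [h3.unique h4, pr_app cp_pr]
      exact cp_zero_iff.1 h2 x hx
    exact sub_eq_zero.1 h1
  rw [hwv] at hw
  have h5 : HasSum (fun i => ⟪v, cp M (X i) v⟫_ℂ) ⟪v, v⟫_ℂ := (innerSL ℂ v).hasSum hw
  have h6 : HasSum (fun i => ((‖cp M (X i) v‖ ^ 2 : ℝ) : ℂ)) ((‖v‖ ^ 2 : ℝ) : ℂ) := by
    have h7 : ⟪v, v⟫_ℂ = ((‖v‖ ^ 2 : ℝ) : ℂ) := by
      rw [inner_self_eq_norm_sq_to_K]; norm_cast
    rw [← h7]
    simpa only [hinn] using h5
  exact_mod_cast h6

theorem Dec.parseval' (h : Dec M ζ I P X) (v : H) :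
    ∑' i, ENNReal.ofReal (‖cp M (X i) v‖ ^ 2) = ENNReal.ofReal (‖v‖ ^ 2) := by
  have h1 := h.parseval v
  rw [← h1.tsum_eq, ENNReal.ofReal_tsum_of_nonneg (fun i => by positivity) h1.summable]

theorem Vec.val (h : Vec M ζ p ξ) : (nt ζ p).re = ‖ξ‖ ^ 2 := by
  have h1 := h.2.2 1 (one_mem M)
  rw [one_mul] at h1
  rw [← h1]
  show (⟪ξ, ξ⟫_ℂ).re = _
  rw [inner_self_eq_norm_sq_to_K]
  norm_cast

/-- **Uniqueness.** -/
theorem dec_unique (hM : IsTr M ζ) (h : Dec M ζ I P X) (h' : Dec M ζ J Q Y) :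
    ∑' i, ENNReal.ofReal (nt ζ (P i)).re = ∑' j, ENNReal.ofReal (nt ζ (Q j)).re := by
  have e1 : ∀ i, ENNReal.ofReal (nt ζ (P i)).re =
      ∑' j, ENNReal.ofReal (‖cp M (Y j) (X i)‖ ^ 2) := fun i => by
    rw [(h.vec i).val, h'.parseval']
  have e2 : ∀ j, ENNReal.ofReal (nt ζ (Q j)).re =
      ∑' i, ENNReal.ofReal (‖cp M (X i) (Y j)‖ ^ 2) := fun j => by
    rw [(h'.vec j).val, h.parseval']
  have e3 : ∀ i j, ‖cp M (X i) (Y j)‖ = ‖cp M (Y j) (X i)‖ := by
    intro i j
    have h1 := half_le hM (h.vec i) (h'.vec j) (T := cp M (Y j) * cp M (X i))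
      (mul_mem cp_cm cp_cm) (by
        show cp M (Y j) (cp M (Y j) (cp M (X i) (X i))) = _
        rw [pr_app cp_pr]; rfl) (by
        rw [star_mul, cp_pr.1, cp_pr.1]
        show cp M (X i) (cp M (X i) (cp M (Y j) (Y j))) = _
        rw [pr_app cp_pr]; rfl)
    rw [star_mul, cp_pr.1, cp_pr.1] at h1
    have h2 : (cp M (X i) * cp M (Y j)) (Y j) = cp M (X i) (Y j) := by
      show cp M (X i) (cp M (Y j) (Y j)) = _
      rw [cp_self]
    have h3 : (cp M (Y j) * cp M (X i)) (X i) = cp M (Y j) (X i) := by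
      show cp M (Y j) (cp M (X i) (X i)) = _
      rw [cp_self]
    rw [h2, h3] at h1
    exact h1
  simp_rw [e1, e2, e3]
  exact ENNReal.tsum_comm

end Pool.Agent.Q171.KK
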