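import Mathlib
import Pool.Agent.Q171.KK.Uniq

/-!
# Spectral cuts
-/

set_option autoImplicit false
set_option linter.unusedSectionVars false
set_option linter.unusedVariables false

open Filter Topology
open scoped InnerProductSpace ComplexConjugate ComplexOrder ENNReal

noncomputable section

namespace Pool.Agent.Q171.KK

open H759R2.Kad H710R2.DP

variable {H : Type} [NormedAddCommGroup H] [InnerProductSpace ℂ H] [CompleteSpace H]

/-- Positivity of the quadratic form. -/
def Ge (x : H →L[ℂ] H) : Prop := ∀ v : H, 0 ≤ (⟪v, x v⟫_ℂ).re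

theorem Ge.add {x y : H →L[ℂ] H} (hx : Ge x) (hy : Ge y) : Ge (x + y) := fun v => by
  rw [add_apply, inner_add_right, Complex.add_re]
  exact add_nonneg (hx v) (hy v)

theorem Ge.smul {x : H →L[ℂ] H} (hx : Ge x) {c : ℝ} (hc : 0 ≤ c) : Ge ((c : ℂ) • x) := fun v => by
  rw [smul_apply, inner_smul_right, Complex.re_ofReal_mul]
  exact mul_nonneg hc (hx v)

theorem Ge.conj {x : H →L[ℂ] H} (hx : Ge x) (a : H →L[ℂ] H) : Ge (star a * x * a) := fun v => by
  have : (star a * x * a) v = star a (x (a v)) := rfl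
  rw [this, inner_star_right]
  exact hx _

theorem ge_pr {p : H →L[ℂ] H} (hp : IsPr p) : Ge p := fun v => by
  have h1 := norm_sq_inner p v
  rw [hp.1, hp.2] at h1
  rw [← h1, Complex.ofReal_re]
  positivity

theorem ge_one : Ge (1 : H →L[ℂ] H) := ge_pr pr_one

theorem Ge.conjp {x p : H →L[ℂ] H} (hx : Ge x) (hp : IsPr p) : Ge (p * x * p) := by
  have := hx.conj p
  rwa [hp.1] at this

theorem nonneg_of_ge {x : H →L[ℂ] H} (hs : star x = x) (h : Ge x) : 0 ≤ x := by
  rw [ContinuousLinearMap.nonneg_iff_isPositive, ContinuousLinearMap.isPositive_def']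
  refine ⟨hs, fun v => ?_⟩
  have h1 := h v
  have h2 : (⟪x v, v⟫_ℂ).re = (⟪v, x v⟫_ℂ).re := by
    rw [← inner_conj_symm (𝕜 := ℂ) (x v) v]
    exact Complex.conj_re _
  show 0 ≤ (⟪x v, v⟫_ℂ).re
  rw [h2]
  exact h1

theorem ge_of_nonneg {x : H →L[ℂ] H} (h : 0 ≤ x) : Ge x := fun v => by
  rw [ContinuousLinearMap.nonneg_iff_isPositive] at h
  exact h.re_inner_nonneg_right v

theorem ge_neg_pr {P : H →L[ℂ] H} (hP : IsPr P) {c : ℝ} (hc : 0 < c)
    (h : Ge (-((c : ℂ) • P))) : P = 0 := by
  ext v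
  have h1 := h v
  have h2 := norm_sq_inner P v
  rw [hP.1, hP.2] at h2
  rw [neg_apply, smul_apply, inner_neg_right, inner_smul_right, ← h2, ← Complex.ofReal_mul,
    ← Complex.ofReal_neg, Complex.ofReal_re] at h1
  have h3 : ‖P v‖ ^ 2 ≤ 0 := by nlinarith
  have h4 : ‖P v‖ = 0 := by
    have := sq_nonneg ‖P v‖
    exact pow_eq_zero_iff (two_ne_zero) |>.1 (le_antisymm h3 this)
  rw [norm_eq_zero.1 h4]
  rfl

theorem prMul {p q : H →L[ℂ] H} (hp : IsPr p) (hq : IsPr q) (h : p * q = q * p) :
    IsPr (p * q) := by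
  refine ⟨by rw [star_mul, hp.1, hq.1, h], ?_⟩
  calc p * q * (p * q) = p * (q * p) * q := by noncomm_ring
    _ = (p * p) * (q * q) := by rw [← h]; noncomm_ring
    _ = p * q := by rw [hp.2, hq.2]

/-- **Spectral cuts.** -/
theorem cut (M : VonNeumannAlgebra H) (h : H →L[ℂ] H) (hM : h ∈ M) (hs : star h = h)
    (h0 : Ge h) (h1 : Ge (1 - h)) (k : ℕ) : ∃ f ∈ M, IsPr f ∧
      (∀ y : H →L[ℂ] H, y * h = h * y → y * f = f * y) ∧
      Ge (h * f - (((1 / 2 : ℝ) ^ k : ℝ) : ℂ) • f) ∧
      Ge ((((1 / 2 : ℝ) ^ k : ℝ) : ℂ) • (1 - f) - h * (1 - f)) := by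
  induction k with
  | zero =>
    refine ⟨0, zero_mem M, pr_zero', fun y _ => by rw [mul_zero, zero_mul], ?_, ?_⟩
    · rw [mul_zero, smul_zero, sub_zero]
      intro v; simp
    · rw [pow_zero, Complex.ofReal_one, one_smul, sub_zero, mul_one]
      exact h1
  | succ k ih =>
    obtain ⟨f, hf, hfp, hfc, hf1, hf2⟩ := ih
    set r : ℝ := (1 / 2) ^ k with hr
    have hr0 : 0 < r := by positivity
    have hr' : ((1 / 2 : ℝ) ^ (k + 1)) = r / 2 := by rw [pow_succ, hr]; ring
    rw [hr']
    have hfh : f * h = h * f := (hfc h rfl).symm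
    set x := h * (1 - f) with hx
    have hxM : x ∈ M := mul_mem hM (sub_mem (one_mem M) hf)
    have hgp := prCompl hfp
    have hgh : (1 - f) * h = h * (1 - f) := by rw [sub_mul, mul_sub, one_mul, mul_one, hfh]
    have hxs : star x = x := by rw [hx, star_mul, hgp.1, hs, hgh]
    have hx0 : Ge x := by
      have h2 := h0.conjp hgp
      have e1 : (1 - f) * h * (1 - f) = x := by rw [hgh, mul_assoc, hgp.2]
      rwa [e1] at h2
    have hx1 : Ge ((r : ℂ) • (1 : H →L[ℂ] H) - x) := by
      have e1 : (r : ℂ) • (1 : H →L[ℂ] H) - x = (r : ℂ) • f + ((r : ℂ) • (1 - f) - h * (1 - f)) := by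
        rw [hx, smul_sub]; abel
      rw [e1]
      exact ((ge_pr hfp).smul hr0.le).add hf2
    obtain ⟨e, he, hep, hec, hd0, hd1⟩ := fin_bin H M x r hxM (nonneg_of_ge hxs hx0) (by
      rw [← sub_nonneg]
      have e1 : algebraMap ℝ (H →L[ℂ] H) r = (r : ℂ) • (1 : H →L[ℂ] H) := by
        rw [Algebra.algebraMap_eq_smul_one]
        rfl
      rw [e1]
      refine nonneg_of_ge ?_ hx1
      rw [star_sub, star_smul, star_one, hxs]
      have : star (r : ℂ) = r := Complex.conj_ofReal r
      rw [this])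
    have e2 : (r / 2 : ℝ) • e = ((r / 2 : ℝ) : ℂ) • e := rfl
    have e3 : algebraMap ℝ (H →L[ℂ] H) (r / 2) = ((r / 2 : ℝ) : ℂ) • (1 : H →L[ℂ] H) := by
      rw [Algebra.algebraMap_eq_smul_one]
      rfl
    rw [← sub_nonneg, e3, e2] at hd1
    rw [e2] at hd0
    set c : ℂ := ((r / 2 : ℝ) : ℂ) with hc
    have g0 := ge_of_nonneg hd0
    have g1 := ge_of_nonneg hd1
    have hfx : f * x = x * f := by
      rw [hx, ← mul_assoc, hfh, mul_assoc, mul_assoc, mul_sub, sub_mul, mul_one, one_mul, hfp.2]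
    have hxf : x * f = 0 := by rw [hx, mul_assoc, sub_mul, one_mul, hfp.2, sub_self, mul_zero]
    have hfe : f * e = e * f := hec f hfx
    have hhx : h * x = x * h := by
      rw [hx, mul_assoc, hgh]
    have heh : e * h = h * e := (hec h hhx).symm
    have hex : e * x = x * e := (hec x rfl).symm
    have hefz : e * f = 0 := by
      have h2 := g0.conjp hfp
      have e4 : f * (x - c • e) * f = -(c • (e * f)) := by
        rw [mul_sub, hfx, hxf, mul_smul_comm, zero_sub, neg_mul, smul_mul_assoc, hfe, mul_assoc,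
          hfp.2]
      rw [e4] at h2
      exact ge_neg_pr (prMul hep hfp hfe.symm) (by positivity : 0 < r / 2) h2
    have hfez : f * e = 0 := by rw [hfe, hefz]
    refine ⟨f + e, add_mem hf he, prAdd hfp hep hfez, fun y hy => ?_, ?_, ?_⟩
    · have h2 := hfc y hy
      have h3 : y * x = x * y := by
        rw [hx, ← mul_assoc, hy, mul_assoc, mul_sub, mul_one, h2, mul_assoc, sub_mul, one_mul]
      rw [mul_add, add_mul, h2, hec y h3]
    · have h2 := g0.conjp hep
      have e4 : e * (x - c • e) * e = h * e - c • e := by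
        rw [mul_sub, sub_mul, hex, mul_assoc, hep.2, mul_smul_comm, hep.2, smul_mul_assoc, hep.2]
        congr 1
        rw [hx, mul_assoc, sub_mul, one_mul, hfez, sub_zero]
      rw [e4] at h2
      have e5 : h * (f + e) - c • (f + e) = (h * f - (r : ℂ) • f) + c • f + (h * e - c • e) := by
        have : (r : ℂ) = c + c := by rw [hc]; push_cast; ring
        rw [this, mul_add, smul_add, add_smul]
        abel
      rw [e5]
      exact (hf1.add ((ge_pr hfp).smul (by positivity : 0 ≤ r / 2))).add h2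
    · have hg : IsPr (1 - (f + e)) := prCompl (prAdd hfp hep hfez)
      have h2 := g1.conjp hg
      have e4 : (1 - (f + e)) * (c • (1 : H →L[ℂ] H) - (x - c • e)) * (1 - (f + e)) =
          c • (1 - (f + e)) - h * (1 - (f + e)) := by
        have k1 : e * (1 - (f + e)) = 0 := by
          rw [mul_sub, mul_one, mul_add, hefz, hep.2, zero_add, sub_self]
        have k2 : x * (1 - (f + e)) = h * (1 - (f + e)) := by
          rw [hx, mul_assoc]
          congr 1
          rw [sub_mul, one_mul, mul_sub, mul_one, mul_add, hfp.2, hfez, add_zero, sub_self,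
            sub_zero]
        have k3 : (1 - (f + e)) * h = h * (1 - (f + e)) := by
          rw [sub_mul, mul_sub, one_mul, mul_one, add_mul, mul_add, hfh, heh]
        calc _ = (1 - (f + e)) * (c • (1 - (f + e)) - x * (1 - (f + e)) +
              c • (e * (1 - (f + e)))) := by
              rw [mul_assoc]
              congr 1
              rw [sub_mul, sub_mul, smul_mul_assoc, one_mul, smul_mul_assoc]
              abel
          _ = c • ((1 - (f + e)) * (1 - (f + e))) - ((1 - (f + e)) * h) * (1 - (f + e)) := by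
              rw [k1, k2, smul_zero, add_zero, mul_sub, mul_smul_comm, mul_assoc]
          _ = _ := by rw [k3, mul_assoc, hg.2]
      rw [e4] at h2
      exact h2

end Pool.Agent.Q171.KK
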