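import Mathlib
import Pool.Agent.Q171.KK.Cut

/-!
# A Radon-Nikodym theorem
-/

set_option autoImplicit false
set_option linter.unusedSectionVars false
set_option linter.unusedVariables false

open Filter Topology
open scoped InnerProductSpace ComplexConjugate ComplexOrder ENNReal

noncomputable section

namespace Pool.Agent.Q171.KK

open H759R2.Kad H710R2.DP

variable {H : Type} [NormedAddCommGroup H] [InnerProductSpace ℂ H] [CompleteSpace H]
variable {M : VonNeumannAlgebra H} {ζ : ℕ → H}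

/-- Elements between zero and one. -/
structure U01 (M : VonNeumannAlgebra H) (h : H →L[ℂ] H) : Prop where
  mem : h ∈ M
  sa : star h = h
  nn : Ge h
  le : Ge (1 - h)

theorem U01.norm {h : H →L[ℂ] H} (hh : U01 M h) : ‖h‖ ≤ 1 := by
  have h0 : 0 ≤ h := nonneg_of_ge hh.sa hh.nn
  have h1 : h ≤ 1 := by
    rw [← sub_nonneg]
    exact nonneg_of_ge (by rw [star_sub, star_one, hh.sa]) hh.le
  exact (CStarAlgebra.norm_le_one_iff_of_nonneg h h0).2 h1

theorem nt_re_nonneg (hs : Sm ζ) {x : H →L[ℂ] H} (hx : Ge x) : 0 ≤ (nt ζ x).re := by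
  unfold nt
  rw [Complex.re_tsum (term_summable hs x)]
  exact tsum_nonneg fun n => hx (ζ n)

theorem nt_ulim (hs : Sm ζ) {ι : Type} (U : Filter ι) (T : ι → (H →L[ℂ] H)) (S : H →L[ℂ] H)
    (C : ℝ) (hT : ∀ i, ‖T i‖ ≤ C)
    (hlim : ∀ ξ η : H, Tendsto (fun i => ⟪η, T i ξ⟫_ℂ) U (𝓝 ⟪η, S ξ⟫_ℂ)) (a : H →L[ℂ] H) :
    Tendsto (fun i => nt ζ (a * T i)) U (𝓝 (nt ζ (a * S))) := by
  refine tendsto_tsum_of_dominated_convergence (bound := fun n => ‖a‖ * C * ‖ζ n‖ ^ 2)
    (hs.mul_left _) (fun n => ?_) (Eventually.of_forall fun i n => ?_)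
  · have h1 := hlim (ζ n) (star a (ζ n))
    have h2 : ∀ X : H →L[ℂ] H, ⟪star a (ζ n), X (ζ n)⟫_ℂ = ⟪ζ n, (a * X) (ζ n)⟫_ℂ := fun X => by
      rw [inner_star_left]; rfl
    simpa only [h2] using h1
  · refine (term_le ζ (a * T i) n).trans ?_
    refine mul_le_mul_of_nonneg_right ?_ (by positivity)
    exact (norm_mul_le _ _).trans (mul_le_mul_of_nonneg_left (hT i) (norm_nonneg _))

/-- The functional to be minimised. -/
def FF (ζ : ℕ → H) (w : H) (h : H →L[ℂ] H) : ℝ := (nt ζ (h * h)).re - 2 * (⟪w, h w⟫_ℂ).re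

/-- The defect. -/
def th (ζ : ℕ → H) (w : H) (h x : H →L[ℂ] H) : ℝ := (nt ζ (h * x)).re - (⟪w, x w⟫_ℂ).re

theorem th_add (hs : Sm ζ) (w : H) (h x y : H →L[ℂ] H) :
    th ζ w h (x + y) = th ζ w h x + th ζ w h y := by
  unfold th
  rw [mul_add, nt_add hs, add_apply, inner_add_right, Complex.add_re, Complex.add_re]
  ring

theorem th_smul (hs : Sm ζ) (w : H) (h x : H →L[ℂ] H) (c : ℝ) :
    th ζ w h ((c : ℂ) • x) = c * th ζ w h x := by
  unfold th
  rw [mul_smul_comm, nt_smul hs, smul_apply, inner_smul_right, Complex.re_ofReal_mul,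
    Complex.re_ofReal_mul]
  ring

theorem th_neg (hs : Sm ζ) (w : H) (h x : H →L[ℂ] H) : th ζ w h (-x) = - th ζ w h x := by
  have := th_smul hs w h x (-1)
  simpa using this

theorem th_sub (hs : Sm ζ) (w : H) (h x y : H →L[ℂ] H) :
    th ζ w h (x - y) = th ζ w h x - th ζ w h y := by
  rw [sub_eq_add_neg, th_add hs, th_neg hs, ← sub_eq_add_neg]

/-- Expansion of the functional. -/
theorem FF_add (hM : IsTr M ζ) (w : H) {h k : H →L[ℂ] H} (hh : h ∈ M) (hk : k ∈ M) :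
    FF ζ w (h + k) = FF ζ w h + 2 * th ζ w h k + (nt ζ (k * k)).re := by
  unfold FF th
  have e1 : (h + k) * (h + k) = h * h + h * k + k * h + k * k := by noncomm_ring
  rw [e1, nt_add hM.s, nt_add hM.s, nt_add hM.s, hM.comm k hk h hh, add_apply, inner_add_right]
  simp only [Complex.add_re]
  ring

theorem exists_min (hM : IsTr M ζ) (w : H) : ∃ h, U01 M h ∧ ∀ h', U01 M h' →
    FF ζ w h ≤ FF ζ w h' := by
  have hs := hM.s
  set S : Set ℝ := {r | ∃ h, U01 M h ∧ r = FF ζ w h} with hS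
  have hne : S.Nonempty := ⟨_, 0, ⟨zero_mem M, star_zero _, fun v => by simp, by
    rw [sub_zero]; exact ge_one⟩, rfl⟩
  have hbdd : BddBelow S := by
    refine ⟨-(2 * ‖w‖ ^ 2), ?_⟩
    rintro r ⟨h, hh, rfl⟩
    have h1 : 0 ≤ (nt ζ (h * h)).re := by
      have h2 := nt_star_mul hs h
      rw [hh.sa] at h2
      rw [h2, Complex.ofReal_re]
      exact tsum_nonneg fun n => by positivity
    have h2 : (⟪w, h w⟫_ℂ).re ≤ ‖w‖ ^ 2 := by
      have h3 := hh.le w
      have h4 : ⟪w, (1 - h) w⟫_ℂ = ⟪w, w⟫_ℂ - ⟪w, h w⟫_ℂ := by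
        rw [sub_apply, inner_sub_right]; rfl
      rw [h4, inner_self_eq_norm_sq_to_K, Complex.sub_re] at h3
      have h5 : (((‖w‖ : ℂ)) ^ 2).re = ‖w‖ ^ 2 := by norm_cast
      have h6 : ((RCLike.ofReal ‖w‖ : ℂ) ^ 2).re = ‖w‖ ^ 2 := h5
      rw [h6] at h3
      linarith
    unfold FF
    linarith
  set m := sInf S with hm
  have hex : ∀ n : ℕ, ∃ h, U01 M h ∧ FF ζ w h < m + 1 / ((n : ℝ) + 1) := by
    intro n
    obtain ⟨r, ⟨h, hh, rfl⟩, hr⟩ := (csInf_lt_iff hbdd hne).1 (show sInf S < m + 1 / ((n : ℝ) + 1) by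
      have : (0 : ℝ) < 1 / ((n : ℝ) + 1) := by positivity
      linarith)
    exact ⟨h, hh, hr⟩
  choose T hT hTm using hex
  let U : Ultrafilter ℕ := Ultrafilter.of atTop
  have hU : (U : Filter ℕ) ≤ atTop := Ultrafilter.of_le _
  obtain ⟨h, hn, hlim⟩ := dp_ulim H ℕ U T 1 fun i => (hT i).norm
  have hhM : h ∈ M := by
    refine mem_iff_cm.2 fun y hy => ?_
    ext ξ
    refine ext_inner_left ℂ fun η => ?_
    have l1 : Tendsto (fun i => ⟪η, T i (y ξ)⟫_ℂ) U (𝓝 ⟪η, h (y ξ)⟫_ℂ) := hlim (y ξ) η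
    have l2 := hlim ξ (star y η)
    have l3 : ∀ i, ⟪star y η, T i ξ⟫_ℂ = ⟪η, T i (y ξ)⟫_ℂ := fun i => by
      rw [inner_star_left, cm_app hy (hT i).mem]
    have l4 := tendsto_nhds_unique (l2.congr l3) l1
    rw [inner_star_left] at l4
    exact l4
  have hhs : star h = h := by
    ext ξ
    refine ext_inner_left ℂ fun η => ?_
    rw [inner_star_right]
    have l1 := hlim η ξ
    have l2 : Tendsto (fun i => (starRingEnd ℂ) ⟪ξ, T i η⟫_ℂ) U
        (𝓝 ((starRingEnd ℂ) ⟪ξ, h η⟫_ℂ)) := (Complex.continuous_conj.tendsto _).comp l1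
    have l3 : ∀ i, (starRingEnd ℂ) ⟪ξ, T i η⟫_ℂ = ⟪η, T i ξ⟫_ℂ := fun i => by
      rw [inner_conj_symm, ← inner_star_right, (hT i).sa]
    have l4 := tendsto_nhds_unique (l2.congr l3) (hlim ξ η)
    rw [inner_conj_symm] at l4
    exact l4
  have hh0 : Ge h := fun v => by
    have l1 := (Complex.continuous_re.tendsto _).comp (hlim v v)
    exact ge_of_tendsto' l1 fun i => (hT i).nn v
  have hh1 : Ge (1 - h) := fun v => by
    have l1 := (Complex.continuous_re.tendsto _).comp ((tendsto_const_nhds (x := ⟪v, v⟫_ℂ)).sub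
      (hlim v v))
    have e1 : ∀ X : H →L[ℂ] H, ⟪v, v⟫_ℂ - ⟪v, X v⟫_ℂ = ⟪v, (1 - X) v⟫_ℂ := fun X => by
      rw [← inner_sub_right]; rfl
    rw [e1] at l1
    refine ge_of_tendsto' l1 fun i => ?_
    show 0 ≤ (⟪v, v⟫_ℂ - ⟪v, T i v⟫_ℂ).re
    rw [e1]
    exact (hT i).le v
  have hhU : U01 M h := ⟨hhM, hhs, hh0, hh1⟩
  refine ⟨h, hhU, fun h' hh' => ?_⟩
  have hle : FF ζ w h ≤ m := by
    have l0 : Tendsto (fun i => th ζ w h (T i)) U (𝓝 (th ζ w h h)) := by
      have l1 := (Complex.continuous_re.tendsto _).comp (nt_ulim hs U T h 1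
        (fun i => (hT i).norm) hlim h)
      have l2 := (Complex.continuous_re.tendsto _).comp (hlim w w)
      exact l1.sub l2
    have l1 : Tendsto (fun i => FF ζ w h + 2 * (th ζ w h (T i) - th ζ w h h)) U
        (𝓝 (FF ζ w h + 2 * (th ζ w h h - th ζ w h h))) :=
      tendsto_const_nhds.add (tendsto_const_nhds.mul (l0.sub tendsto_const_nhds))
    have l2 : Tendsto (fun i : ℕ => m + 1 / ((i : ℝ) + 1)) U (𝓝 (m + 0)) :=
      (tendsto_const_nhds.add tendsto_one_div_add_atTop_nhds_zero_nat).mono_left hU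
    rw [sub_self, mul_zero, add_zero] at l1
    rw [add_zero] at l2
    refine le_of_tendsto_of_tendsto' l1 l2 fun i => ?_
    have e1 := FF_add hM w hhM (sub_mem (hT i).mem hhM)
    rw [add_sub_cancel] at e1
    have e2 : 0 ≤ (nt ζ ((T i - h) * (T i - h))).re := by
      have h2 := nt_star_mul hs (T i - h)
      rw [star_sub, (hT i).sa, hhs] at h2
      rw [h2, Complex.ofReal_re]
      exact tsum_nonneg fun n => by positivity
    rw [th_sub hs] at e1
    have e3 := hTm i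
    linarith
  exact hle.trans (csInf_le hbdd ⟨h', hh', rfl⟩)

/-- First order condition. -/
theorem th_nonneg (hM : IsTr M ζ) (w : H) {h : H →L[ℂ] H} (hh : U01 M h)
    (hmin : ∀ h', U01 M h' → FF ζ w h ≤ FF ζ w h') {h' : H →L[ℂ] H} (hh' : U01 M h') :
    0 ≤ th ζ w h (h' - h) := by
  set k := h' - h with hk
  have hkM : k ∈ M := sub_mem hh'.mem hh.mem
  set Q := (nt ζ (k * k)).re with hQ
  have key : ∀ t : ℝ, 0 < t → t ≤ 1 → 0 ≤ 2 * th ζ w h k + t * Q := by
    intro t ht0 ht1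
    have hU : U01 M (h + (t : ℂ) • k) := by
      have e1 : h + (t : ℂ) • k = ((1 - t : ℝ) : ℂ) • h + (t : ℂ) • h' := by
        rw [hk]; push_cast; module
      have e2 : 1 - (h + (t : ℂ) • k) = ((1 - t : ℝ) : ℂ) • (1 - h) + (t : ℂ) • (1 - h') := by
        rw [hk]; push_cast; module
      refine ⟨add_mem hh.mem (vn_smul _ hkM), ?_, ?_, ?_⟩
      · rw [star_add, star_smul, hk, star_sub, hh.sa, hh'.sa]
        have : star (t : ℂ) = t := Complex.conj_ofReal t
        rw [this]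
      · rw [e1]
        exact (hh.nn.smul (by linarith)).add (hh'.nn.smul ht0.le)
      · rw [e2]
        exact (hh.le.smul (by linarith)).add (hh'.le.smul ht0.le)
    have h1 := hmin _ hU
    rw [FF_add hM w hh.mem (vn_smul _ hkM), th_smul hM.s] at h1
    have e3 : (nt ζ (((t : ℂ) • k) * ((t : ℂ) • k))).re = t * t * Q := by
      rw [smul_mul_smul_comm, nt_smul hM.s, ← Complex.ofReal_mul, Complex.re_ofReal_mul]
    rw [e3] at h1
    have h2 : 0 ≤ t * (2 * th ζ w h k + t * Q) := by nlinarith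
    exact nonneg_of_mul_nonneg_right h2 ht0
  by_contra hneg
  push Not at hneg
  have hQ0 : 0 < |Q| + 1 := by positivity
  have h1 := key (min 1 (-(th ζ w h k) / (|Q| + 1))) (lt_min one_pos (by
    apply div_pos <;> linarith)) (min_le_left _ _)
  have h2 : min 1 (-(th ζ w h k) / (|Q| + 1)) * Q ≤ -(th ζ w h k) := by
    have h3 : min 1 (-(th ζ w h k) / (|Q| + 1)) ≤ -(th ζ w h k) / (|Q| + 1) := min_le_right _ _
    have h4 : 0 < min 1 (-(th ζ w h k) / (|Q| + 1)) := lt_min one_pos (by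
      apply div_pos <;> linarith)
    calc min 1 (-(th ζ w h k) / (|Q| + 1)) * Q ≤ min 1 (-(th ζ w h k) / (|Q| + 1)) * (|Q| + 1) := by
          have := le_abs_self Q
          gcongr
          linarith
      _ ≤ -(th ζ w h k) / (|Q| + 1) * (|Q| + 1) := by gcongr
      _ = -(th ζ w h k) := by field_simp
  linarith

end Pool.Agent.Q171.KK
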