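import Mathlib
import Pool.Agent.Q171.KK.RN

/-!
# A Radon-Nikodym theorem, second part
-/

set_option autoImplicit false
set_option linter.unusedSectionVars false
set_option linter.unusedVariables false

open Filter Topology
open scoped InnerProductSpace ComplexConjugate ComplexOrder ENNReal

noncomputable section

namespace Pool.Agent.Q171.KK

open H759R2.Kad H710R2.DP

variable {H : Type} [NormedAddCommGroup H] [InnerProductSpace ℂ H] [CompleteSpace H]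
variable {M : VonNeumannAlgebra H} {ζ : ℕ → H}

theorem half_sa {f b : H →L[ℂ] H} (hf : IsPr f) (hb : star b = b) :
    star (((1 / 2 : ℝ) : ℂ) • (f - f * b * f)) = ((1 / 2 : ℝ) : ℂ) • (f - f * b * f) := by
  rw [star_smul, star_sub, star_mul, star_mul, hf.1, hb, mul_assoc]
  have : star (((1 / 2 : ℝ) : ℂ)) = ((1 / 2 : ℝ) : ℂ) := Complex.conj_ofReal _
  rw [this]

/-- Bounding a functional on a corner by its value at the unit. -/
theorem corner (hs : Sm ζ) (w : H) (h f : H →L[ℂ] H) (hfM : f ∈ M) (hf : IsPr f) (s : ℝ)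
    (hsign : ∀ b ∈ M, star b = b → Ge b → Ge (f - b) → 0 ≤ s * th ζ w h b) (b : H →L[ℂ] H)
    (hb : b ∈ M) (hbs : star b = b) (h1 : Ge (1 - b)) (h2 : Ge (1 + b)) :
    |s * th ζ w h (f * b * f)| ≤ s * th ζ w h f := by
  have hfbf : f * b * f ∈ M := mul_mem (mul_mem hfM hb) hfM
  have c1 : Ge (f - f * b * f) := by
    have := h1.conjp hf
    have e1 : f * (1 - b) * f = f - f * b * f := by rw [mul_sub, sub_mul, mul_one, hf.2]
    rwa [e1] at this
  have c2 : Ge (f + f * b * f) := by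
    have := h2.conjp hf
    have e1 : f * (1 + b) * f = f + f * b * f := by rw [mul_add, add_mul, mul_one, hf.2]
    rwa [e1] at this
  have a1 := hsign (((1 / 2 : ℝ) : ℂ) • (f - f * b * f)) (vn_smul _ (sub_mem hfM hfbf))
    (half_sa hf hbs) (c1.smul (by norm_num)) (by
      have e1 : f - ((1 / 2 : ℝ) : ℂ) • (f - f * b * f) = ((1 / 2 : ℝ) : ℂ) • (f + f * b * f) := by
        push_cast; module
      rw [e1]
      exact c2.smul (by norm_num))
  have hb' : star (-b) = -b := by rw [star_neg, hbs]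
  have a2 := hsign (((1 / 2 : ℝ) : ℂ) • (f + f * b * f)) (vn_smul _ (add_mem hfM hfbf)) (by
      have := half_sa hf hb'
      have e1 : f - f * -b * f = f + f * b * f := by noncomm_ring
      rwa [e1] at this) (c2.smul (by norm_num)) (by
      have e1 : f - ((1 / 2 : ℝ) : ℂ) • (f + f * b * f) = ((1 / 2 : ℝ) : ℂ) • (f - f * b * f) := by
        push_cast; module
      rw [e1]
      exact c1.smul (by norm_num))
  rw [th_smul hs, th_sub hs] at a1
  rw [th_smul hs, th_add hs] at a2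
  rw [abs_le]
  constructor <;> linarith

theorem nt_le_one (hM : IsTr M ζ) {p : H →L[ℂ] H} (hp : IsPr p) : (nt ζ p).re ≤ 1 := by
  have h1 := nt_re_nonneg hM.s (ge_pr (prCompl hp))
  rw [nt_sub hM.s, hM.one, Complex.sub_re, Complex.one_re] at h1
  linarith

theorem re_pr (w : H) {p : H →L[ℂ] H} (hp : IsPr p) : (⟪w, p w⟫_ℂ).re = ‖p w‖ ^ 2 := by
  have h1 := norm_sq_inner p w
  rw [hp.1, hp.2] at h1
  rw [← h1, Complex.ofReal_re]

theorem cut' (M : VonNeumannAlgebra H) (h : H →L[ℂ] H) (hM : h ∈ M) (hs : star h = h)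
    (h0 : Ge h) (h1 : Ge (1 - h)) (k : ℕ) : ∃ f ∈ M, ∃ e ∈ M, IsPr f ∧ IsPr e ∧ f + e = 1 ∧
      (∀ y : H →L[ℂ] H, y * h = h * y → y * f = f * y) ∧
      Ge (h * f - (((1 / 2 : ℝ) ^ k : ℝ) : ℂ) • f) ∧
      Ge ((((1 / 2 : ℝ) ^ k : ℝ) : ℂ) • e - h * e) := by
  obtain ⟨f, hf, p, c, A, B⟩ := cut M h hM hs h0 h1 k
  exact ⟨f, hf, 1 - f, sub_mem (one_mem M) hf, p, prCompl p, by abel, c, A, B⟩

theorem cut_disj {e₀ e₁ h : H →L[ℂ] H} (q₀ : IsPr e₀) (q₁ : IsPr e₁) (hc : e₀ * e₁ = e₁ * e₀)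
    {ε : ℝ} (hε : ε ≤ 1 / 4) (B : Ge ((ε : ℂ) • e₀ - h * e₀))
    (D : Ge ((ε : ℂ) • e₁ - (1 - h) * e₁)) : e₀ * e₁ = 0 := by
  have hP := prMul q₀ q₁ hc
  have k1 : e₀ * (e₀ * e₁) = e₀ * e₁ := by rw [← mul_assoc, q₀.2]
  have k2 : e₁ * (e₀ * e₁) = e₀ * e₁ := by rw [hc, ← mul_assoc, q₁.2]
  generalize e₀ * e₁ = P at hP k1 k2 ⊢
  have g3 := (B.conjp hP).add (D.conjp hP)
  have e1 : P * ((ε : ℂ) • e₀ - h * e₀) * P + P * ((ε : ℂ) • e₁ - (1 - h) * e₁) * P =
      -(((1 - 2 * ε : ℝ) : ℂ) • P) := by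
    have t1 : P * ((ε : ℂ) • e₀ - h * e₀) * P = (ε : ℂ) • P - P * h * P := by
      calc _ = (ε : ℂ) • (P * (e₀ * P)) - P * h * (e₀ * P) := by
            rw [mul_sub, sub_mul, mul_smul_comm, smul_mul_assoc]
            simp only [mul_assoc]
        _ = _ := by rw [k1, hP.2]
    have t2 : P * ((ε : ℂ) • e₁ - (1 - h) * e₁) * P = (ε : ℂ) • P - P + P * h * P := by
      calc _ = (ε : ℂ) • (P * (e₁ * P)) - P * (1 - h) * (e₁ * P) := by
            rw [mul_sub, sub_mul, mul_smul_comm, smul_mul_assoc]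
            simp only [mul_assoc]
        _ = _ := by
            rw [k2, hP.2, mul_sub, mul_one, sub_mul, hP.2]
            abel
    rw [t1, t2]
    push_cast
    module
  rw [e1] at g3
  exact ge_neg_pr hP (by linarith) g3

/-- Sign on the lower corner. -/
theorem sign0 (hM : IsTr M ζ) (w : H) {h f e x : H →L[ℂ] H} (hh : U01 M h)
    (hopt : ∀ h', U01 M h' → 0 ≤ th ζ w h (h' - h)) {ε : ℝ} (hε : 0 < ε) (q : IsPr e)
    (hfe : f + e = 1) (hc : h * f = f * h) (A : Ge (h * f - (ε : ℂ) • f)) (hx : x ∈ M)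
    (hxs : star x = x) (hx0 : Ge x) (hx1 : Ge (f - x)) : 0 ≤ (-1 : ℝ) * th ζ w h x := by
  have hs := hM.s
  have he : h * e = e * h := by
    have : e = 1 - f := by rw [← hfe]; abel
    rw [this, mul_sub, sub_mul, hc, mul_one, one_mul]
  have hU : U01 M (h - (ε : ℂ) • x) := by
    refine ⟨sub_mem hh.mem (vn_smul _ hx), ?_, ?_, ?_⟩
    · rw [star_sub, star_smul, hh.sa, hxs]
      have : star (ε : ℂ) = ε := Complex.conj_ofReal ε
      rw [this]
    · have e1 : h - (ε : ℂ) • x = e * h * e + (h * f - (ε : ℂ) • f) + (ε : ℂ) • (f - x) := by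
        have h2 : e * h * e = h * e := by rw [← he, mul_assoc, q.2]
        have h3 : h = h * f + h * e := by rw [← mul_add, hfe, mul_one]
        rw [h2, smul_sub]
        nth_rewrite 1 [h3]
        abel
      rw [e1]
      exact ((hh.nn.conjp q).add A).add (hx1.smul hε.le)
    · have e1 : 1 - (h - (ε : ℂ) • x) = (1 - h) + (ε : ℂ) • x := by abel
      rw [e1]
      exact hh.le.add (hx0.smul hε.le)
  have h3 := hopt _ hU
  have e2 : h - (ε : ℂ) • x - h = -((ε : ℂ) • x) := by abel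
  rw [e2, th_neg hs, th_smul hs] at h3
  have h4 : 0 ≤ ε * ((-1) * th ζ w h x) := by linarith
  exact nonneg_of_mul_nonneg_right h4 hε

/-- Sign on the upper corner. -/
theorem sign1 (hM : IsTr M ζ) (w : H) {h f e x : H →L[ℂ] H} (hh : U01 M h)
    (hopt : ∀ h', U01 M h' → 0 ≤ th ζ w h (h' - h)) {ε : ℝ} (hε : 0 < ε) (q : IsPr e)
    (hfe : f + e = 1) (hc : (1 - h) * f = f * (1 - h)) (A : Ge ((1 - h) * f - (ε : ℂ) • f))
    (hx : x ∈ M) (hxs : star x = x) (hx0 : Ge x) (hx1 : Ge (f - x)) :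
    0 ≤ (1 : ℝ) * th ζ w h x := by
  have hs := hM.s
  have he : (1 - h) * e = e * (1 - h) := by
    have : e = 1 - f := by rw [← hfe]; abel
    rw [this, mul_sub, sub_mul _ _ (1 - h), hc, mul_one, one_mul]
  have hU : U01 M (h + (ε : ℂ) • x) := by
    refine ⟨add_mem hh.mem (vn_smul _ hx), ?_, ?_, ?_⟩
    · rw [star_add, star_smul, hh.sa, hxs]
      have : star (ε : ℂ) = ε := Complex.conj_ofReal ε
      rw [this]
    · exact hh.nn.add (hx0.smul hε.le)
    · have e1 : 1 - (h + (ε : ℂ) • x) = e * (1 - h) * e + ((1 - h) * f - (ε : ℂ) • f) +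
          (ε : ℂ) • (f - x) := by
        have h2 : e * (1 - h) * e = (1 - h) * e := by rw [← he, mul_assoc, q.2]
        have h3 : 1 - h = (1 - h) * f + (1 - h) * e := by rw [← mul_add, hfe, mul_one]
        rw [h2, smul_sub, ← sub_sub]
        nth_rewrite 1 [h3]
        abel
      rw [e1]
      exact ((hh.le.conjp q).add A).add (hx1.smul hε.le)
  have h3 := hopt _ hU
  have e2 : h + (ε : ℂ) • x - h = (ε : ℂ) • x := by abel
  rw [e2, th_smul hs] at h3
  rw [one_mul]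
  exact nonneg_of_mul_nonneg_right h3 hε

/-- The estimate. -/
theorem th_small (hM : IsTr M ζ) (w : H)
    (hw : ∀ x ∈ M, ‖x w‖ ^ 2 ≤ (nt ζ (star x * x)).re) {h : H →L[ℂ] H} (hh : U01 M h)
    (hopt : ∀ h', U01 M h' → 0 ≤ th ζ w h (h' - h)) (k : ℕ) (hk : 2 ≤ k) (b : H →L[ℂ] H)
    (hb : b ∈ M) (hbs : star b = b) (h1 : Ge (1 - b)) (h2 : Ge (1 + b)) (hbn : ‖b‖ ≤ 1) :
    |th ζ w h b| ≤ 2 * (1 / 2) ^ k + 2 * (‖w‖ * √((1 / 2) ^ k)) := by
  have hs := hM.s
  set ε : ℝ := (1 / 2) ^ k with hε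
  have hε0 : 0 < ε := by positivity
  have hε4 : ε ≤ 1 / 4 := by
    have : ((1 : ℝ) / 2) ^ k ≤ (1 / 2) ^ 2 := pow_le_pow_of_le_one (by norm_num) (by norm_num) hk
    rw [hε]
    refine this.trans ?_
    norm_num
  obtain ⟨f₀, hf₀, e₀, he₀M, p₀, q₀, s₀, c₀, A, B⟩ := cut' M h hh.mem hh.sa hh.nn hh.le k
  obtain ⟨f₁, hf₁, e₁, he₁M, p₁, q₁, s₁, c₁, C, D⟩ := cut' M (1 - h) (sub_mem (one_mem M) hh.mem)
    (by rw [star_sub, star_one, hh.sa]) hh.le (by rw [sub_sub_cancel]; exact hh.nn) k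
  rw [← hε] at A B C D
  have ch₀ : h * f₀ = f₀ * h := c₀ h rfl
  have c₁' : ∀ y : H →L[ℂ] H, y * h = h * y → y * f₁ = f₁ * y := fun y hy => c₁ y (by
    rw [mul_sub, sub_mul, hy, mul_one, one_mul])
  have ch₁' : (1 - h) * f₁ = f₁ * (1 - h) := c₁ _ rfl
  have ch₁ : h * f₁ = f₁ * h := c₁' h rfl
  have c₀₁ : f₀ * f₁ = f₁ * f₀ := c₁' f₀ ch₀.symm
  have he₀ : e₀ = 1 - f₀ := by rw [← s₀]; abel
  have he₁ : e₁ = 1 - f₁ := by rw [← s₁]; abel
  have che₀ : h * e₀ = e₀ * h := by rw [he₀, mul_sub, sub_mul, ch₀, mul_one, one_mul]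
  have che₁ : h * e₁ = e₁ * h := by rw [he₁, mul_sub, sub_mul, ch₁, mul_one, one_mul]
  have ce₀₁ : e₀ * e₁ = e₁ * e₀ := by
    rw [he₀, he₁, sub_mul, mul_sub, sub_mul, mul_sub, c₀₁]
    noncomm_ring
  have hz : e₀ * e₁ = 0 := cut_disj q₀ q₁ ce₀₁ hε4 B D
  have hz' : e₁ * e₀ = 0 := by rw [← ce₀₁, hz]
  have g₀ : ∀ x ∈ M, star x = x → Ge x → Ge (f₀ - x) → 0 ≤ (-1 : ℝ) * th ζ w h x :=
    fun x hx hxs hx0 hx1 => sign0 hM w hh hopt hε0 q₀ s₀ ch₀ A hx hxs hx0 hx1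
  have g₁ : ∀ x ∈ M, star x = x → Ge x → Ge (f₁ - x) → 0 ≤ (1 : ℝ) * th ζ w h x :=
    fun x hx hxs hx0 hx1 => sign1 hM w hh hopt hε0 q₁ s₁ ch₁' C hx hxs hx0 hx1
  have pe : IsPr (f₀ * f₁) := prMul p₀ p₁ c₀₁
  have heM : f₀ * f₁ ∈ M := mul_mem hf₀ hf₁
  have k₀ : f₀ * e₁ = e₁ := by
    calc f₀ * e₁ = (f₀ + e₀) * e₁ - e₀ * e₁ := by noncomm_ring
      _ = e₁ := by rw [s₀, hz, one_mul, sub_zero]
  have k₁ : f₁ * e₀ = e₀ := by
    calc f₁ * e₀ = (f₁ + e₁) * e₀ - e₁ * e₀ := by noncomm_ring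
      _ = e₀ := by rw [s₁, hz', one_mul, sub_zero]
  have d₀ : f₀ = f₀ * f₁ + e₁ := by
    calc f₀ = f₀ * (f₁ + e₁) := by rw [s₁, mul_one]
      _ = f₀ * f₁ + e₁ := by rw [mul_add, k₀]
  have d₁ : f₁ = f₀ * f₁ + e₀ := by
    calc f₁ = f₁ * (f₀ + e₀) := by rw [s₀, mul_one]
      _ = f₀ * f₁ + e₀ := by rw [mul_add, k₁, c₀₁]
  generalize f₀ * f₁ = e at pe heM d₀ d₁
  have hsum : e₀ + e + e₁ = 1 := by
    rw [← s₀, d₀]
    abel
  -- values
  have v1 : th ζ w h e = 0 := by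
    have a1 := g₀ e heM pe.1 (ge_pr pe) (by
      have : f₀ - e = e₁ := by
        nth_rewrite 1 [d₀]
        abel
      rw [this]; exact ge_pr q₁)
    have a2 := g₁ e heM pe.1 (ge_pr pe) (by
      have : f₁ - e = e₀ := by
        nth_rewrite 1 [d₁]
        abel
      rw [this]; exact ge_pr q₀)
    linarith
  have v2 : -ε ≤ th ζ w h e₁ := by
    have a1 := nt_re_nonneg hs D
    rw [nt_sub hs, nt_smul hs, sub_mul, one_mul, nt_sub hs, Complex.sub_re, Complex.sub_re,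
      Complex.re_ofReal_mul] at a1
    have a2 := hw e₁ he₁M
    rw [q₁.1, q₁.2, ← re_pr w q₁] at a2
    have a3 := nt_le_one hM q₁
    unfold th
    nlinarith
  have v3 : th ζ w h e₀ ≤ ε - ‖e₀ w‖ ^ 2 := by
    have a1 := nt_re_nonneg hs B
    rw [nt_sub hs, nt_smul hs, Complex.sub_re, Complex.re_ofReal_mul] at a1
    have a3 := nt_le_one hM q₀
    unfold th
    rw [re_pr w q₀]
    nlinarith
  have v4 : 0 ≤ th ζ w h e₀ := by
    have := g₁ e₀ he₀M q₀.1 (ge_pr q₀) (by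
      have : f₁ - e₀ = e := by
        nth_rewrite 1 [d₁]
        abel
      rw [this]; exact ge_pr pe)
    linarith
  have w₀ : |(-1) * th ζ w h (f₀ * b * f₀)| ≤ ε := by
    refine (corner hs w h f₀ hf₀ p₀ (-1) g₀ b hb hbs h1 h2).trans ?_
    rw [d₀, th_add hs, v1]
    linarith
  have w₁ : |1 * th ζ w h (f₁ * b * f₁)| ≤ ε := by
    refine (corner hs w h f₁ hf₁ p₁ 1 g₁ b hb hbs h1 h2).trans ?_
    rw [d₁, th_add hs, v1]
    have := sq_nonneg ‖e₀ w‖
    linarith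
  have w₂ : |1 * th ζ w h (e * b * e)| ≤ 0 := by
    refine (corner hs w h e heM pe 1 (fun x hx hxs hx0 hx1 => g₁ x hx hxs hx0 (by
      have : f₁ - x = (e - x) + e₀ := by
        nth_rewrite 1 [d₁]
        abel
      rw [this]; exact hx1.add (ge_pr q₀))) b hb hbs h1 h2).trans ?_
    rw [v1, mul_zero]
  have n₀ : ‖e₀ w‖ ≤ √ε := by
    rw [← Real.sqrt_sq (norm_nonneg (e₀ w))]
    exact Real.sqrt_le_sqrt (by linarith)
  have w₃ : |th ζ w h (e₁ * b * e₀)| ≤ ‖w‖ * √ε := by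
    have a1 : nt ζ (h * (e₁ * b * e₀)) = 0 := by
      have e1 : h * (e₁ * b * e₀) = (h * e₁ * b) * e₀ := by noncomm_ring
      rw [e1, hM.comm _ (mul_mem (mul_mem hh.mem he₁M) hb) _ he₀M]
      have e2 : e₀ * (h * e₁ * b) = (e₀ * h) * e₁ * b := by noncomm_ring
      rw [e2, ← che₀, mul_assoc h, hz, mul_zero, zero_mul]
      unfold nt
      simp
    unfold th
    rw [a1, Complex.zero_re, zero_sub, abs_neg]
    refine (Complex.abs_re_le_norm _).trans ?_
    refine (norm_inner_le_norm _ _).trans ?_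
    refine mul_le_mul_of_nonneg_left ?_ (norm_nonneg _)
    have e3 : (e₁ * b * e₀) w = (e₁ * b) (e₀ w) := rfl
    rw [e3]
    refine ((e₁ * b).le_opNorm _).trans ?_
    have e4 : ‖e₁ * b‖ ≤ 1 := (norm_mul_le _ _).trans (by
      have := norm_pr q₁
      nlinarith [norm_nonneg e₁, norm_nonneg b])
    nlinarith [norm_nonneg (e₀ w), norm_nonneg (e₁ * b)]
  have w₄ : |th ζ w h (e₀ * b * e₁)| ≤ ‖w‖ * √ε := by
    have a1 : nt ζ (h * (e₀ * b * e₁)) = 0 := by
      have e1 : h * (e₀ * b * e₁) = (h * e₀ * b) * e₁ := by noncomm_ring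
      rw [e1, hM.comm _ (mul_mem (mul_mem hh.mem he₀M) hb) _ he₁M]
      have e2 : e₁ * (h * e₀ * b) = (e₁ * h) * e₀ * b := by noncomm_ring
      rw [e2, ← che₁, mul_assoc h, hz', mul_zero, zero_mul]
      unfold nt
      simp
    unfold th
    rw [a1, Complex.zero_re, zero_sub, abs_neg]
    refine (Complex.abs_re_le_norm _).trans ?_
    have e2 : ⟪w, (e₀ * b * e₁) w⟫_ℂ = ⟪e₀ w, (b * e₁) w⟫_ℂ := by
      rw [pr_inner q₀]; rfl
    rw [e2]
    refine (norm_inner_le_norm _ _).trans ?_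
    have e4 : ‖b * e₁‖ ≤ 1 := (norm_mul_le _ _).trans (by
      have := norm_pr q₁
      nlinarith [norm_nonneg e₁, norm_nonneg b])
    have e5 : ‖(b * e₁) w‖ ≤ ‖w‖ := ((b * e₁).le_opNorm _).trans (by
      nlinarith [norm_nonneg w])
    calc ‖e₀ w‖ * ‖(b * e₁) w‖ ≤ √ε * ‖w‖ := mul_le_mul n₀ e5 (norm_nonneg _) (Real.sqrt_nonneg _)
      _ = ‖w‖ * √ε := mul_comm _ _
  have hdec : b = f₀ * b * f₀ + f₁ * b * f₁ - e * b * e + e₁ * b * e₀ + e₀ * b * e₁ := by
    rw [d₀, d₁]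
    calc b = (e₀ + e + e₁) * b * (e₀ + e + e₁) := by rw [hsum, one_mul, mul_one]
      _ = _ := by noncomm_ring
  rw [neg_one_mul, abs_neg] at w₀
  rw [one_mul] at w₁ w₂
  rw [hdec, th_add hs, th_add hs, th_sub hs, th_add hs]
  calc |th ζ w h (f₀ * b * f₀) + th ζ w h (f₁ * b * f₁) - th ζ w h (e * b * e) +
        th ζ w h (e₁ * b * e₀) + th ζ w h (e₀ * b * e₁)| ≤
        |th ζ w h (f₀ * b * f₀)| + |th ζ w h (f₁ * b * f₁)| + |th ζ w h (e * b * e)| +
        |th ζ w h (e₁ * b * e₀)| + |th ζ w h (e₀ * b * e₁)| := by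
        refine (abs_add_le _ _).trans (add_le_add ?_ le_rfl)
        refine (abs_add_le _ _).trans (add_le_add ?_ le_rfl)
        refine (abs_sub _ _).trans (add_le_add ?_ le_rfl)
        exact abs_add_le _ _
    _ ≤ _ := by linarith

/-- **Radon-Nikodym.** -/
theorem rn (hM : IsTr M ζ) (w : H) (hw : ∀ x ∈ M, ‖x w‖ ^ 2 ≤ (nt ζ (star x * x)).re) :
    ∃ h, U01 M h ∧ ∀ x ∈ M, ⟪w, x w⟫_ℂ = nt ζ (h * x) := by
  have hs := hM.s
  obtain ⟨h, hh, hmin⟩ := exists_min hM w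
  have hopt : ∀ h', U01 M h' → 0 ≤ th ζ w h (h' - h) := fun h' hh' => th_nonneg hM w hh hmin hh'
  refine ⟨h, hh, ?_⟩
  have hlim : Tendsto (fun k : ℕ => 2 * ((1 : ℝ) / 2) ^ k + 2 * (‖w‖ * √((1 / 2) ^ k))) atTop
      (𝓝 0) := by
    have h1 : Tendsto (fun k : ℕ => ((1 : ℝ) / 2) ^ k) atTop (𝓝 0) :=
      tendsto_pow_atTop_nhds_zero_of_lt_one (by norm_num) (by norm_num)
    have h2 : Tendsto (fun k : ℕ => √(((1 : ℝ) / 2) ^ k)) atTop (𝓝 (√0)) :=
      (Real.continuous_sqrt.tendsto _).comp h1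
    rw [Real.sqrt_zero] at h2
    have h3 := (h1.const_mul 2).add ((h2.const_mul ‖w‖).const_mul 2)
    simpa using h3
  have key : ∀ b ∈ M, star b = b → ‖b‖ ≤ 1 → th ζ w h b = 0 := by
    intro b hb hbs hbn
    have hre : ∀ v : H, |(⟪v, b v⟫_ℂ).re| ≤ ‖v‖ ^ 2 := fun v => by
      refine (Complex.abs_re_le_norm _).trans ((norm_inner_le_norm _ _).trans ?_)
      have := b.le_opNorm v
      nlinarith [norm_nonneg v, norm_nonneg (b v)]
    have hone : ∀ v : H, (⟪v, (1 : H →L[ℂ] H) v⟫_ℂ).re = ‖v‖ ^ 2 := fun v => re_pr v pr_one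
    have g1 : Ge (1 - b) := fun v => by
      rw [sub_apply, inner_sub_right, Complex.sub_re, hone]
      linarith [(abs_le.1 (hre v)).2]
    have g2 : Ge (1 + b) := fun v => by
      rw [add_apply, inner_add_right, Complex.add_re, hone]
      linarith [(abs_le.1 (hre v)).1]
    have h4 : |th ζ w h b| ≤ 0 := by
      refine ge_of_tendsto hlim ?_
      filter_upwards [eventually_ge_atTop 2] with k hk
      exact th_small hM w hw hh hopt k hk b hb hbs g1 g2 hbn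
    exact abs_eq_zero.1 (le_antisymm h4 (abs_nonneg _))
  have key2 : ∀ b ∈ M, star b = b → th ζ w h b = 0 := by
    intro b hb hbs
    rcases eq_or_ne b 0 with h0 | h0
    · rw [h0]
      have := th_smul hs w h 0 0
      simpa using this
    have hb0 : 0 < ‖b‖ := norm_pos_iff.2 h0
    have h5 := key (((‖b‖⁻¹ : ℝ) : ℂ) • b) (vn_smul _ hb) (by
      rw [star_smul, hbs]
      have : star (((‖b‖⁻¹ : ℝ) : ℂ)) = ((‖b‖⁻¹ : ℝ) : ℂ) := Complex.conj_ofReal _
      rw [this]) (by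
      rw [norm_smul, Complex.norm_real, Real.norm_eq_abs, abs_of_pos (by positivity),
        inv_mul_cancel₀ hb0.ne'])
    rw [th_smul hs] at h5
    exact (mul_eq_zero.1 h5).resolve_left (by positivity)
  have hconj : ∀ x : H →L[ℂ] H, (starRingEnd ℂ) (nt ζ x) = nt ζ (star x) := by
    intro x
    unfold nt
    rw [Complex.conj_tsum]
    refine tsum_congr fun n => ?_
    rw [inner_conj_symm, inner_star_right]
  have key3 : ∀ b ∈ M, star b = b → nt ζ (h * b) = ⟪w, b w⟫_ℂ := by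
    intro b hb hbs
    have h6 := key2 b hb hbs
    unfold th at h6
    have im1 : (nt ζ (h * b)).im = 0 := by
      have h7 := hconj (h * b)
      rw [star_mul, hbs, hh.sa, hM.comm b hb h hh.mem] at h7
      exact Complex.conj_eq_iff_im.1 h7
    have im2 : (⟪w, b w⟫_ℂ).im = 0 := by
      have h7 : (starRingEnd ℂ) ⟪w, b w⟫_ℂ = ⟪w, b w⟫_ℂ := by
        rw [inner_conj_symm, ← inner_star_right, hbs]
      exact Complex.conj_eq_iff_im.1 h7
    apply Complex.ext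
    · linarith
    · rw [im1, im2]
  intro x hx
  have a1 := key3 (x + star x) (add_mem hx (star_mem hx)) (by rw [star_add, star_star, add_comm])
  have a2 := key3 (Complex.I • (x - star x)) (vn_smul _ (sub_mem hx (star_mem hx))) (by
    rw [star_smul, star_sub, star_star]
    have : star Complex.I = -Complex.I := Complex.conj_I
    rw [this, neg_smul, ← smul_neg, neg_sub])
  rw [mul_add, nt_add hs, add_apply, inner_add_right] at a1
  rw [mul_smul_comm, nt_smul hs, mul_sub, nt_sub hs, smul_apply, inner_smul_right, sub_apply,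
    inner_sub_right] at a2
  have a3 := mul_left_cancel₀ Complex.I_ne_zero a2
  have a4 : (2 : ℂ) * ⟪w, x w⟫_ℂ = 2 * nt ζ (h * x) := by linear_combination -a1 - a3
  exact mul_left_cancel₀ two_ne_zero a4

end Pool.Agent.Q171.KK
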