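import Mathlib
import Pool.Agent.Q171.KK.RN2

/-!
# Existence of decompositions
-/

set_option autoImplicit false
set_option linter.unusedSectionVars false
set_option linter.unusedVariables false

open Filter Topology
open scoped InnerProductSpace ComplexConjugate ComplexOrder ENNReal

noncomputable section

namespace Pool.Agent.Q171.KK

open H759R2.Kad H710R2.DP

variable {H : Type} [NormedAddCommGroup H] [InnerProductSpace ℂ H] [CompleteSpace H]
variable {M : VonNeumannAlgebra H} {ζ : ℕ → H}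

/-- A nonzero vector of an invariant subspace dominated by the trace. -/
theorem exists_dom (hM : Is21 M ζ) {P : H →L[ℂ] H} (hP : P ∈ cm M) (hPp : IsPr P) (hP0 : P ≠ 0) :
    ∃ w : H, w ≠ 0 ∧ P w = w ∧ ∀ x ∈ M, ‖x w‖ ^ 2 ≤ (nt ζ (star x * x)).re := by
  obtain ⟨n, hn⟩ : ∃ n, ζ n ≠ 0 := by
    by_contra hcon
    push Not at hcon
    have h1 := hM.tr.sm
    simp only [hcon, norm_zero] at h1
    have h2 : HasSum (fun _ : ℕ => (0 : ℝ) ^ 2) 0 := by simp
    exact zero_ne_one (h2.unique h1)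
  set Q := cp M (ζ n) with hQ
  have hQζ : Q (ζ n) = ζ n := cp_self
  have hfac : ∀ z ∈ cm M, (∀ a ∈ cm M, z * a = a * z) → ∃ c : ℂ, z = c • 1 := by
    intro z hz hza
    have hzM : z ∈ M := (cm_cm M).1 (mem_cm.2 fun y hy => (hza y hy).symm)
    exact hM.center z hzM fun a ha => (mem_cm.1 hz a ha).symm
  obtain ⟨v, hv, hv'⟩ := compar H (cm M) hfac P hP Q cp_cm hPp cp_pr
  have hsv : star v ∈ cm M := star_mem hv
  have key : P * star v = star v ∧ star v (ζ n) ≠ 0 := by
    rcases hv' with ⟨h1, h2⟩ | ⟨h1, h2⟩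
    · have hvP : v * P = v := by
        have h3 : star (v * P - v) * (v * P - v) = 0 := by
          calc star (v * P - v) * (v * P - v) = P * (star v * v) * P - P * (star v * v) -
                (star v * v) * P + star v * v := by
                rw [star_sub, star_mul, hPp.1]; noncomm_ring
            _ = 0 := by rw [h1, hPp.2, hPp.2]; noncomm_ring
        exact sub_eq_zero.1 ((CStarRing.star_mul_self_eq_zero_iff _).1 h3)
      have h4 : P * star v = star v := by
        have := congrArg star hvP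
        rwa [star_mul, hPp.1] at this
      refine ⟨h4, fun h0 => hP0 ?_⟩
      have h5 : star v * Q = 0 * Q := by
        refine eq_mul_cp (star v) 0 fun x hx => ?_
        rw [cm_app hsv hx, h0, map_zero]
        rfl
      have h6 : star v * Q = star v := by
        have := congrArg star h2
        rwa [star_mul, cp_pr.1] at this
      rw [h6, zero_mul] at h5
      rw [← h1, h5, zero_mul]
    · refine ⟨?_, fun h0 => hn ?_⟩
      · have := congrArg star h2
        rwa [star_mul, hPp.1] at this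
      · have h3 : (v * star v) (ζ n) = ζ n := by rw [h1]; exact cp_self
        rw [← h3]
        show v (star v (ζ n)) = 0
        rw [h0, map_zero]
  have hvn : ‖star v‖ ≤ 1 := by
    rw [norm_star]
    rcases hv' with ⟨h1, h2⟩ | ⟨h1, h2⟩
    · exact norm_of_PI (by rw [h1]; exact hPp)
    · have := norm_of_PI (v := star v) (by rw [star_star, h1]; exact cp_pr)
      rwa [norm_star] at this
  refine ⟨star v (ζ n), key.2, ?_, fun x hx => ?_⟩
  · exact congrArg (fun T : H →L[ℂ] H => T (ζ n)) key.1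
  · rw [nt_star_mul hM.tr.s, Complex.ofReal_re, ← cm_app hsv hx]
    have h1 : ‖star v (x (ζ n))‖ ≤ ‖x (ζ n)‖ := by
      refine ((star v).le_opNorm _).trans ?_
      nlinarith [norm_nonneg (x (ζ n))]
    have h2 : Summable fun m => ‖x (ζ m)‖ ^ 2 := by
      refine Summable.of_nonneg_of_le (fun m => by positivity) (fun m => ?_)
        (hM.tr.s.mul_left (‖x‖ ^ 2))
      rw [← mul_pow]
      exact pow_le_pow_left₀ (norm_nonneg _) (x.le_opNorm _) 2
    calc ‖star v (x (ζ n))‖ ^ 2 ≤ ‖x (ζ n)‖ ^ 2 := pow_le_pow_left₀ (norm_nonneg _) h1 2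
      _ ≤ ∑' m, ‖x (ζ m)‖ ^ 2 := h2.le_tsum n fun m _ => by positivity

theorem ge_of_norm {h : H →L[ℂ] H} (hn : ‖h‖ ≤ 1) : Ge (1 - h) := fun v => by
  have h1 : |(⟪v, h v⟫_ℂ).re| ≤ ‖v‖ ^ 2 := by
    refine (Complex.abs_re_le_norm _).trans ((norm_inner_le_norm _ _).trans ?_)
    have := h.le_opNorm v
    nlinarith [norm_nonneg v, norm_nonneg (h v)]
  have h2 : (⟪v, (1 : H →L[ℂ] H) v⟫_ℂ).re = ‖v‖ ^ 2 := re_pr v pr_one
  rw [sub_apply, inner_sub_right, Complex.sub_re, h2]
  linarith [(abs_le.1 h1).2]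

/-- **Vectors with `ω = τ(· p)` in invariant subspaces.** -/
theorem exists_vec (hM : Is21 M ζ) {P : H →L[ℂ] H} (hP : P ∈ cm M) (hPp : IsPr P) (hP0 : P ≠ 0) :
    ∃ (p : H →L[ℂ] H) (ξ : H), Vec M ζ p ξ ∧ P ξ = ξ ∧ ξ ≠ 0 := by
  obtain ⟨w, hw0, hPw, hdom⟩ := exists_dom hM hP hPp hP0
  obtain ⟨h, hh, hrn⟩ := rn hM.tr w hdom
  have hh0 : h ≠ 0 := by
    intro h0
    have h1 := hrn 1 (one_mem M)
    rw [h0, zero_mul] at h1
    have h2 : nt ζ (0 : H →L[ℂ] H) = 0 := by unfold nt; simp
    rw [h2] at h1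
    have h3 : ⟪w, w⟫_ℂ = 0 := h1
    exact hw0 (inner_self_eq_zero.1 h3)
  set N := ‖h‖ with hN
  have hNpos : 0 < N := norm_pos_iff.2 hh0
  -- normalisation
  set h' : H →L[ℂ] H := ((N⁻¹ : ℝ) : ℂ) • h with hh'
  have hh'M : h' ∈ M := vn_smul _ hh.mem
  have hh's : star h' = h' := by
    rw [hh', star_smul, hh.sa]
    have : star (((N⁻¹ : ℝ) : ℂ)) = ((N⁻¹ : ℝ) : ℂ) := Complex.conj_ofReal _
    rw [this]
  have hh'n : ‖h'‖ = 1 := by
    rw [hh', norm_smul, Complex.norm_real, Real.norm_eq_abs, abs_of_pos (by positivity),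
      inv_mul_cancel₀ hNpos.ne']
  have hh'0 : Ge h' := hh.nn.smul (by positivity)
  have hh'1 : Ge (1 - h') := ge_of_norm hh'n.le
  obtain ⟨f, hf, e, he, pf, pe, hfe, cf, A, B⟩ := cut' M h' hh'M hh's hh'0 hh'1 1
  rw [pow_one] at A B
  have hcf : h' * f = f * h' := cf h' rfl
  have hf0 : f ≠ 0 := by
    intro h0
    rw [h0, zero_add] at hfe
    rw [hfe, mul_one] at B
    -- `2 h' ≤ 1`
    have hU : U01 M (((2 : ℝ) : ℂ) • h') := by
      refine ⟨vn_smul _ hh'M, ?_, hh'0.smul (by norm_num), ?_⟩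
      · rw [star_smul, hh's]
        have : star (((2 : ℝ) : ℂ)) = ((2 : ℝ) : ℂ) := Complex.conj_ofReal _
        rw [this]
      · have e1 : (1 : H →L[ℂ] H) - ((2 : ℝ) : ℂ) • h' =
            ((2 : ℝ) : ℂ) • ((((1 / 2 : ℝ) : ℂ)) • (1 : H →L[ℂ] H) - h') := by
          push_cast; module
        rw [e1]
        exact B.smul (by norm_num)
    have h2 := hU.norm
    rw [norm_smul, hh'n, Complex.norm_real, Real.norm_eq_abs, abs_of_pos (by norm_num : (0:ℝ) < 2)]
      at h2
    norm_num at h2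
  -- the operator
  set T : H →L[ℂ] H := h' * f + e with hT
  have hTM : T ∈ M := add_mem (mul_mem hh'M hf) he
  have hTs : IsSelfAdjoint T := by
    show star T = T
    rw [hT, star_add, star_mul, hh's, pf.1, pe.1, hcf]
  have hT1 : ‖T - 1‖ ≤ 1 / 2 := by
    have e0 : (1 : H →L[ℂ] H) - T = f - h' * f := by rw [hT, ← hfe]; abel
    have hU : U01 M (((2 : ℝ) : ℂ) • (1 - T)) := by
      refine ⟨vn_smul _ (sub_mem (one_mem M) hTM), ?_, ?_, ?_⟩
      · rw [star_smul, star_sub, star_one, hTs.star_eq]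
        have : star (((2 : ℝ) : ℂ)) = ((2 : ℝ) : ℂ) := Complex.conj_ofReal _
        rw [this]
      · refine Ge.smul ?_ (by norm_num)
        rw [e0]
        have h2 := hh'1.conjp pf
        have e1 : f * (1 - h') * f = f - h' * f := by
          rw [mul_sub, mul_one, sub_mul, pf.2, ← hcf, mul_assoc, pf.2]
        rwa [e1] at h2
      · have e1 : (1 : H →L[ℂ] H) - ((2 : ℝ) : ℂ) • (1 - T) =
            e + ((2 : ℝ) : ℂ) • (h' * f - (((1 / 2 : ℝ) : ℂ)) • f) := by
          rw [e0, ← hfe]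
          push_cast
          module
        rw [e1]
        exact (ge_pr pe).add (A.smul (by norm_num))
    have h2 := hU.norm
    rw [norm_smul, Complex.norm_real, Real.norm_eq_abs, abs_of_pos (by norm_num : (0:ℝ) < 2),
      norm_sub_rev] at h2
    linarith
  obtain ⟨S, S', hS, hS', hSS, hSS', hS'S, -, -, hcomm⟩ := nearOne T hTs (1 / 2) le_rfl hT1
  have hS'M : S' ∈ M := mem_of_comm M S' fun y hy => (hcomm y (hy T hTM).symm).2
  have hfef : f * e = 0 := by
    have h2 : f * (f + e) = f := by rw [hfe, mul_one]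
    rw [mul_add, pf.2] at h2
    simpa using h2
  have hefe : e * f = 0 := by
    have h2 : (f + e) * f = f := by rw [hfe, one_mul]
    rw [add_mul, pf.2] at h2
    simpa using h2
  have hTf : T * f = h' * f := by rw [hT, add_mul, mul_assoc, pf.2, hefe, add_zero]
  have hfT : f * T = h' * f := by rw [hT, mul_add, ← mul_assoc, ← hcf, mul_assoc, pf.2, hfef, add_zero]
  have hfS : f * S' = S' * f := (hcomm f (by rw [hfT, hTf])).2
  have hTS : T * S' = S' * T := (hcomm T rfl).2
  have hS'T : S' * S' * T = 1 := by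
    rw [← hSS]
    calc S' * S' * (S * S) = S' * (S' * S) * S := by noncomm_ring
      _ = 1 := by rw [hS'S, mul_one, hS'S]
  have hkey : S' * f * h' * f * S' = f := by
    calc S' * f * h' * f * S' = S' * (f * h') * (f * S') := by noncomm_ring
      _ = S' * (T * f) * (S' * f) := by rw [← hcf, hTf, hfS]
      _ = (S' * T) * (f * S') * f := by noncomm_ring
      _ = (T * S') * (S' * f) * f := by rw [hfS, hTS]
      _ = T * S' * S' * (f * f) := by noncomm_ring
      _ = (S' * S' * T) * f := by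
          rw [pf.2]
          congr 1
          calc T * S' * S' = S' * T * S' := by rw [hTS]
            _ = S' * (T * S') := mul_assoc _ _ _
            _ = S' * (S' * T) := by rw [hTS]
            _ = S' * S' * T := (mul_assoc _ _ _).symm
      _ = f := by rw [hS'T, one_mul]
  set c : ℝ := (√N)⁻¹ with hc
  have hc2 : c * c * N = 1 := by
    have h2 := Real.mul_self_sqrt hNpos.le
    have h3 : √N ≠ 0 := (Real.sqrt_pos.2 hNpos).ne'
    rw [hc]
    field_simp
    rw [sq]
    exact h2.symm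
  set G : H →L[ℂ] H := (c : ℂ) • (S' * f) with hG
  have hGM : G ∈ M := vn_smul _ (mul_mem hS'M hf)
  have hGs : star G = (c : ℂ) • (f * S') := by
    rw [hG, star_smul, star_mul, pf.1, hS'.star_eq]
    have : star (c : ℂ) = c := Complex.conj_ofReal _
    rw [this]
  have hhN : h = (N : ℂ) • h' := by
    rw [hh', smul_smul, ← Complex.ofReal_mul, mul_inv_cancel₀ hNpos.ne', Complex.ofReal_one,
      one_smul]
  have hval : ∀ x ∈ M, ⟪G w, x (G w)⟫_ℂ = nt ζ (x * f) := by
    intro x hx
    have h2 : ⟪G w, x (G w)⟫_ℂ = ⟪w, (star G * x * G) w⟫_ℂ := by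
      have : (star G * x * G) w = star G (x (G w)) := rfl
      rw [this, inner_star_right]
    rw [h2, hrn _ (mul_mem (mul_mem (star_mem hGM) hx) hGM)]
    have e1 : h * (star G * x * G) = (h * star G * x) * G := by noncomm_ring
    rw [e1, hM.tr.comm _ (mul_mem (mul_mem hh.mem (star_mem hGM)) hx) _ hGM]
    have e2 : G * (h * star G * x) = f * x := by
      have e3 : G * h * star G = f := by
        rw [hGs, hG, hhN]
        have e4 : (c : ℂ) • (S' * f) * ((N : ℂ) • h') * ((c : ℂ) • (f * S')) =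
            ((c : ℂ) * (c : ℂ) * (N : ℂ)) • (S' * f * h' * f * S') := by
          rw [smul_mul_smul_comm, smul_mul_smul_comm]
          congr 1
          ring
        rw [e4, hkey, ← Complex.ofReal_mul, ← Complex.ofReal_mul, hc2, Complex.ofReal_one, one_smul]
      calc G * (h * star G * x) = (G * h * star G) * x := by noncomm_ring
        _ = f * x := by rw [e3]
    rw [e2, hM.tr.comm f hf x hx]
  refine ⟨f, G w, ⟨hf, pf, hval⟩, ?_, ?_⟩
  · rw [cm_app hP hGM, hPw]
  · intro h0
    have h1 := hval 1 (one_mem M)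
    rw [h0, one_mul, inner_zero_left] at h1
    refine hf0 (hM.tr.faithful f hf ?_)
    rw [pf.1, pf.2]
    exact h1.symm

/-- **Existence of decompositions.** -/
theorem exists_dec (hM : Is21 M ζ) : ∃ (I : Type) (p : I → (H →L[ℂ] H)) (ξ : I → H),
    Dec M ζ I p ξ := by
  let F : Set (Set ((H →L[ℂ] H) × H)) := {S | (∀ s ∈ S, Vec M ζ s.1 s.2) ∧
    ∀ s ∈ S, ∀ t ∈ S, s ≠ t → ∀ x ∈ M, ∀ y ∈ M, ⟪x s.2, y t.2⟫_ℂ = 0}
  obtain ⟨S, -, hS⟩ := zorn_subset_nonempty F (fun c hc hchain hne => by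
    refine ⟨⋃₀ c, ⟨?_, ?_⟩, fun s hs => Set.subset_sUnion_of_mem hs⟩
    · rintro s ⟨T, hT, hs⟩
      exact (hc hT).1 s hs
    · rintro s ⟨T, hT, hs⟩ t ⟨T', hT', ht⟩
      rcases hchain.total hT hT' with h | h
      · exact (hc hT').2 s (h hs) t ht
      · exact (hc hT).2 s hs t (h ht)) ∅ ⟨fun s hs => hs.elim, fun s hs => hs.elim⟩
  obtain ⟨⟨hS1, hS2⟩, hmax⟩ := hS
  refine ⟨S, fun s => s.1.1, fun s => s.1.2, fun s => hS1 s.1 s.2, ?_, ?_⟩
  · intro s t hst x hx y hy
    exact hS2 s.1 s.2 t.1 t.2 (fun h => hst (Subtype.ext h)) x hx y hy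
  · intro v hv
    by_contra hv0
    have hP0 : cp M v ≠ 0 := by
      intro h0
      apply hv0
      have h1 : cp M v v = v := cp_self
      rw [h0] at h1
      exact h1.symm
    obtain ⟨p, ξ, hvec, hPξ, hξ0⟩ := exists_vec hM cp_cm cp_pr hP0
    have horth : ∀ s ∈ S, ∀ x ∈ M, ∀ y ∈ M, ⟪x s.2, y ξ⟫_ℂ = 0 := by
      intro s hs x hx y hy
      have h1 : cp M v (x s.2) = 0 := by
        refine cp_zero_iff.2 fun z hz => ?_
        have h2 := hv ⟨s, hs⟩ (star z * x) (mul_mem (star_mem hz) hx)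
        have h3 : ⟪(star z * x) s.2, v⟫_ℂ = ⟪x s.2, z v⟫_ℂ := inner_star_left z (x s.2) v
        have h4 : ⟪x s.2, z v⟫_ℂ = 0 := by rw [← h3]; exact h2
        have h5 := congrArg (starRingEnd ℂ) h4
        rwa [inner_conj_symm, map_zero] at h5
      have h2 : y ξ = cp M v (y ξ) := by
        rw [cm_app cp_cm hy, hPξ]
      rw [h2, ← pr_inner cp_pr, h1, inner_zero_left]
    have hnot : ((p, ξ) : (H →L[ℂ] H) × H) ∉ S := by
      intro hmem
      have h1 := horth _ hmem 1 (one_mem M) 1 (one_mem M)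
      exact hξ0 (inner_self_eq_zero.1 h1)
    have hF : insert ((p, ξ) : (H →L[ℂ] H) × H) S ∈ F := by
      refine ⟨?_, ?_⟩
      · rintro s (rfl | hs)
        · exact hvec
        · exact hS1 s hs
      · rintro s (rfl | hs) t (rfl | ht) hst x hx y hy
        · exact absurd rfl hst
        · have h1 := horth t ht y hy x hx
          have h5 := congrArg (starRingEnd ℂ) h1
          rwa [inner_conj_symm, map_zero] at h5
        · exact horth s hs x hx y hy
        · exact hS2 s hs t ht hst x hx y hy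
    exact hnot (hmax hF (Set.subset_insert _ _) (Set.mem_insert _ _))

end Pool.Agent.Q171.KK
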